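import Pool.Agent.H259.PC.Stmt

/-!
# PC-R1 and PC-C1: ring identities
-/

set_option autoImplicit false

open MeasureTheory Set
open scoped ComplexConjugate InnerProductSpace

namespace Pool.Agent.H259.PC

namespace C1L

section
variable {Q : Type} [Ring Q]

theorem hfp {p f : Q} (hff : f * f = 1) (hfpf : f * p * f = 1 - p) : f * p = (1 - p) * f := by
  rw [← hfpf, mul_assoc, hff, mul_one]

theorem hpf {p f : Q} (hff : f * f = 1) (hfpf : f * p * f = 1 - p) : p * f = f * (1 - p) := by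
  rw [← hfpf, mul_assoc f p f, ← mul_assoc f f, hff, one_mul]

theorem p1p {p : Q} (hpp : p * p = p) : p * (1 - p) = 0 := by
  rw [mul_sub, mul_one, hpp, sub_self]

theorem p1p' {p : Q} (hpp : p * p = p) : (1 - p) * p = 0 := by
  rw [sub_mul, one_mul, hpp, sub_self]

theorem q1q {p : Q} (hpp : p * p = p) : (1 - p) * (1 - p) = 1 - p := by
  rw [mul_sub, mul_one, p1p' hpp, sub_zero]

end

/-! functions -/

theorem mb_chi (hF : Fun) : MB chi :=
  hF.f5 _ chi (Set.toFinite _) hF.f4.1 ⟨1, hF.f4.2.2.2.1⟩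

theorem mb_kap (hF : Fun) : MB kap :=
  hF.f5 _ kap (Set.finite_singleton _) hF.f4.2.2.2.2.2.2.2.2.2.1 hF.f4.2.2.2.2.2.2.2.2.2.2.1

theorem li_ww (hF : Fun) : Li ww := hF.f4.2.2.2.2.2.1

theorem mb_of_li (hF : Fun) {c : TT → ℂ} (hc : Li c) : MB c := hF.f1.2.2.2.2.2.2.1 c hc

theorem mb_ww (hF : Fun) : MB ww := mb_of_li hF (li_ww hF)

theorem mb_const (c : ℂ) : MB (fun _ : TT => c) :=
  ⟨⟨‖c‖, fun _ => le_rfl⟩, aestronglyMeasurable_const⟩

theorem mb_add {a b : TT → ℂ} (ha : MB a) (hb : MB b) : MB (fun x => a x + b x) := by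
  obtain ⟨⟨M, hM⟩, h1⟩ := ha
  obtain ⟨⟨M', hM'⟩, h2⟩ := hb
  exact ⟨⟨M + M', fun x => (norm_add_le _ _).trans (add_le_add (hM x) (hM' x))⟩, h1.add h2⟩

theorem mb_mul {a b : TT → ℂ} (ha : MB a) (hb : MB b) : MB (fun x => a x * b x) := by
  obtain ⟨⟨M, hM⟩, h1⟩ := ha
  obtain ⟨⟨M', hM'⟩, h2⟩ := hb
  refine ⟨⟨M * M', fun x => ?_⟩, h1.mul h2⟩
  rw [norm_mul]
  exact mul_le_mul (hM x) (hM' x) (norm_nonneg _) ((norm_nonneg _).trans (hM x))

theorem mb_neg {a : TT → ℂ} (ha : MB a) : MB (fun x => a (-x)) := by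
  obtain ⟨⟨M, hM⟩, h1⟩ := ha
  exact ⟨⟨M, fun x => hM (-x)⟩,
    h1.comp_measurePreserving (Measure.measurePreserving_neg hm)⟩

theorem mb_shift {a : TT → ℂ} (ha : MB a) (s : TT) : MB (fun x => a (x + s)) := by
  obtain ⟨⟨M, hM⟩, h1⟩ := ha
  exact ⟨⟨M, fun x => hM (x + s)⟩,
    h1.comp_measurePreserving (measurePreserving_add_right hm s)⟩

theorem mb_finsum {ι : Type} (t : Finset ι) (g : ι → TT → ℂ) (hg : ∀ i, MB (g i)) :
    MB (fun x => ∑ i ∈ t, g i x) := by
  classical
  induction t using Finset.induction_on with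
  | empty =>
    have := mb_const (0 : ℂ)
    simpa using this
  | insert i t hi ih =>
    have := mb_add (hg i) ih
    simpa [Finset.sum_insert hi] using this

/-- `kap (ζ - ·)` and `kap (· + ζ)` -/
theorem pl_refl {a : TT → ℂ} (ha : PL {0} a) (ζ : TT) : PL {ζ} (fun x => a (-x + ζ)) := by
  obtain ⟨L, hL⟩ := ha
  obtain ⟨t, rfl⟩ : ∃ t : ℝ, (t : TT) = ζ := QuotientAddGroup.mk_surjective ζ
  refine ⟨L, fun x y hxy h => ?_⟩
  have e : ∀ s : ℝ, (-(s : TT) + (t : TT)) = ((t - s : ℝ) : TT) := by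
    intro s
    rw [AddCircle.coe_sub]
    abel
  simp only [e]
  rw [norm_sub_rev]
  have h1 := hL (t - y) (t - x) (by linarith) (by
    intro z hz hz0
    apply h (t - z) ⟨by linarith [hz.2], by linarith [hz.1]⟩
    rw [Set.mem_singleton_iff] at hz0 ⊢
    rw [AddCircle.coe_sub, hz0, sub_zero])
  refine h1.trans (le_of_eq ?_)
  ring

theorem pl_shift {a : TT → ℂ} (ha : PL {0} a) (ζ : TT) : PL {-ζ} (fun x => a (x + ζ)) := by
  obtain ⟨L, hL⟩ := ha
  obtain ⟨t, rfl⟩ : ∃ t : ℝ, (t : TT) = ζ := QuotientAddGroup.mk_surjective ζ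
  refine ⟨L, fun x y hxy h => ?_⟩
  have e : ∀ s : ℝ, ((s : TT) + (t : TT)) = ((s + t : ℝ) : TT) := by
    intro s
    rw [AddCircle.coe_add]
  simp only [e]
  have h1 := hL (x + t) (y + t) (by linarith) (by
    intro z hz hz0
    apply h (z - t) ⟨by linarith [hz.1], by linarith [hz.2]⟩
    rw [Set.mem_singleton_iff] at hz0 ⊢
    rw [AddCircle.coe_sub, hz0, zero_sub])
  refine h1.trans (le_of_eq ?_)
  ring

section
variable {Q : Type} [Ring Q] [Algebra ℂ Q] {p f : Q} {m : (TT → ℂ) → Q} {r : TT → Q}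

theorem m_one (D : Dat p f m r) : m (fun _ => 1) = 1 := by
  rw [D.mconst, map_one]

theorem m_zero (D : Dat p f m r) : m (fun _ => 0) = 0 := by
  rw [D.mconst, map_zero]

theorem m_smul (D : Dat p f m r) {a : TT → ℂ} (ha : MB a) (c : ℂ) :
    m (fun x => c * a x) = c • m a := by
  rw [D.mmul (fun _ => c) a (mb_const c) ha, D.mconst, Algebra.smul_def]

theorem m_sum (D : Dat p f m r) {ι : Type} (t : Finset ι) (g : ι → TT → ℂ) (hg : ∀ i, MB (g i)) :
    m (fun x => ∑ i ∈ t, g i x) = ∑ i ∈ t, m (g i) := by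
  classical
  induction t using Finset.induction_on with
  | empty =>
    simp only [Finset.sum_empty]
    exact m_zero D
  | insert i t hi ih =>
    rw [Finset.sum_insert hi, ← ih, ← D.madd _ _ (hg i) (mb_finsum t g hg)]
    congr 1
    funext x
    rw [Finset.sum_insert hi]

theorem m_shift (D : Dat p f m r) {a : TT → ℂ} (ha : MB a) (s : TT) :
    m (fun x => a (x + s)) = r s * m a * r (-s) := by
  rw [D.mr s a ha, mul_assoc, D.radd, add_neg_cancel, D.rzero, mul_one]

theorem m_neg_kap (hF : Fun) (D : Dat p f m r) : m (fun x => kap (-x)) = m ww - m kap := by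
  have h1 : m (fun x => kap (-x)) + m kap = m ww := by
    rw [← D.madd _ _ (mb_neg (mb_kap hF)) (mb_kap hF)]
    apply D.mae
    filter_upwards [hF.f4.2.1] with x hx
    have h2 := hF.f4.2.2.2.2.2.2.2.2.1 x
    simp only [kap]
    rw [h2, hx]
    ring
  rw [← h1, add_sub_cancel_right]

end

theorem core {Q : Type} [Ring Q] (p f c : Q) (hpp : p * p = p) (hff : f * f = 1)
    (hfpf : f * p * f = 1 - p) (hcc : c * c = c) (hfcf : f * c * f = 1 - c) :
    (p * c * p) * (p * c * f * p) = (p * c * f * p) * (p * c * p) ∧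
    (p * c * f * p) * (p * c * f * p) = (p * c * p) * (p * c * p) - p * c * p ∧
    p * f * p = 0 ∧ f * p = (1 - p) * f := by
  have h1 : f * p = f - p * f := by rw [hfp hff hfpf, sub_mul, one_mul]
  have h2 : f * c = f - c * f := by rw [hfp hff hfcf, sub_mul, one_mul]
  have h1' : ∀ x, f * (p * x) = f * x - p * (f * x) := fun x => by
    rw [← mul_assoc, h1, sub_mul, mul_assoc]
  have h2' : ∀ x, f * (c * x) = f * x - c * (f * x) := fun x => by
    rw [← mul_assoc, h2, sub_mul, mul_assoc]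
  have h3 : ∀ x, p * (p * x) = p * x := fun x => by rw [← mul_assoc, hpp]
  have h4 : ∀ x, c * (c * x) = c * x := fun x => by rw [← mul_assoc, hcc]
  have h5 : ∀ x, f * (f * x) = x := fun x => by rw [← mul_assoc, hff, one_mul]
  refine ⟨?_, ?_, ?_, hfp hff hfpf⟩
  · simp only [mul_assoc, h1, h2, h1', h2', h3, h4, h5, hpp, hcc, hff, mul_sub, sub_mul, one_mul,
      mul_one]
    abel
  · simp only [mul_assoc, h1, h2, h1', h2', h3, h4, h5, hpp, hcc, hff, mul_sub, sub_mul, one_mul,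
      mul_one]
    abel
  · simp only [mul_assoc, h1, h3, mul_sub, sub_self]

end C1L

theorem leaf_R1 : S_R1 := fun _ _ p f c h1 h2 h3 h4 h5 => C1L.core p f c h1 h2 h3 h4 h5

theorem leaf_C1 (hF : Fun) : S_C1 := by
  intro Q _ _ p f m r D
  have hchi := C1L.mb_chi hF
  have hww := C1L.mb_ww hF
  have hcc : m chi * m chi = m chi := by
    rw [← D.mmul _ _ hchi hchi]
    congr 1
    funext x
    exact hF.f4.2.2.1 x
  have hfcf : f * m chi * f = 1 - m chi := by
    rw [D.mf _ hchi]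
    have h1 : m (fun x => chi (-x)) + m chi = 1 := by
      rw [← D.madd _ _ (C1L.mb_neg hchi) hchi, ← C1L.m_one D]
      apply D.mae
      filter_upwards [hF.f4.2.1] with x hx
      rw [hx]
      ring
    rw [← h1, add_sub_cancel_right]
  obtain ⟨k1, k2, k3, k4⟩ := C1L.core p f (m chi) D.pp D.ff D.fpf hcc hfcf
  have hwp : m ww * p = p * m ww := D.mp _ (C1L.li_ww hF)
  have hwc : m ww * m chi = m chi * m ww := by
    rw [← D.mmul _ _ hww hchi, ← D.mmul _ _ hchi hww]
    congr 1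
    funext x
    ring
  have hfw : m ww * f = f * m ww := by
    have h1 := D.mf _ hww
    have h2 : (fun x => ww (-x)) = ww := by
      funext x
      exact hF.f4.2.2.2.2.2.2.2.2.1 x
    rw [h2] at h1
    calc m ww * f = f * m ww * f * f := by rw [h1]
      _ = f * m ww := by rw [mul_assoc, D.ff, mul_one]
  have hkap : m kap = m ww * m chi := by
    rw [← D.mmul _ _ hww hchi]
    rfl
  -- commutation of `m ww` with everything
  have hwp' : ∀ x, m ww * (p * x) = p * (m ww * x) := fun x => by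
    rw [← mul_assoc, hwp, mul_assoc]
  have hwc' : ∀ x, m ww * (m chi * x) = m chi * (m ww * x) := fun x => by
    rw [← mul_assoc, hwc, mul_assoc]
  have hwf' : ∀ x, m ww * (f * x) = f * (m ww * x) := fun x => by
    rw [← mul_assoc, hfw, mul_assoc]
  have hpp' : ∀ x, p * (p * x) = p * x := fun x => by rw [← mul_assoc, D.pp]
  have gA : m ww * tA p m = tA p m * m ww := by
    unfold tA
    simp only [mul_assoc, hwp', hwc', hwp]
  have gG : m ww * tG p f m = tG p f m * m ww := by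
    unfold tG
    simp only [mul_assoc, hwp', hwc', hwf', hwp]
  have hpG : p * tG p f m = tG p f m := by
    unfold tG
    simp only [mul_assoc, hpp']
  have hGp : tG p f m * p = tG p f m := by
    unfold tG
    simp only [mul_assoc, D.pp]
  have hpA : p * tA p m = tA p m := by
    unfold tA
    simp only [mul_assoc, hpp']
  have hAp : tA p m * p = tA p m := by
    unfold tA
    simp only [mul_assoc, D.pp]
  have hAG : tA p m * tG p f m = tG p f m * tA p m := k1
  have hGG : tG p f m * tG p f m = tA p m * tA p m - tA p m := k2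
  refine ⟨hAG, hGG, hpG, hGp, hpA, hAp, gG, gA, hwp, ?_, ?_, ?_, ?_, ?_⟩
  · unfold tH
    rw [← gG, hkap]
    unfold tG
    simp only [mul_assoc, hwp']
  · unfold tH
    rw [← mul_assoc, hpG]
  · unfold tH
    rw [mul_assoc, hwp, ← mul_assoc, hGp]
  · unfold tH
    rw [mul_assoc, gG]
  · unfold tH
    rw [mul_assoc, gA, ← mul_assoc, ← mul_assoc, hAG]

end Pool.Agent.H259.PC
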