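import Pool.Agent.H259.PC.Stmt

set_option autoImplicit false

open MeasureTheory Set
open scoped ComplexConjugate InnerProductSpace

namespace Pool.Agent.H259.PC

namespace C2L

theorem fourier_one_ne {σ τ : TT} (h : σ ≠ τ) : (fourier 1 τ : ℂ) - fourier 1 σ ≠ 0 := by
  intro h0
  apply h
  have h1 : (fourier 1 τ : ℂ) = fourier 1 σ := sub_eq_zero.mp h0
  rw [fourier_apply, fourier_apply, one_zsmul, one_zsmul] at h1
  have h2 : AddCircle.toCircle τ = AddCircle.toCircle σ := Subtype.ext h1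
  exact (AddCircle.injective_toCircle (T := (1 : ℝ)) one_ne_zero h2).symm

end C2L

open C2L

theorem leaf_C2 (hF : Fun) : S_C2 := by
  intro Q _ _ p f m r D σ τ a b hst hPa hBa hPb hBb
  obtain ⟨fc, ff, fadd, fmul, -, -, fMB, fPL⟩ := hF.f1
  have hd : (fourier 1 τ : ℂ) - fourier 1 σ ≠ 0 := fourier_one_ne hst
  have hMa : MB a := hF.f5 {σ} a (Set.finite_singleton σ) hPa hBa
  have hMb : MB b := hF.f5 {τ} b (Set.finite_singleton τ) hPb hBb
  set d : ℂ := (fourier 1 τ : ℂ) - fourier 1 σ with hddef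
  let s1 : TT → ℂ := fun x => (fourier 1 x + -(fourier 1 σ : ℂ)) * d⁻¹
  let s2 : TT → ℂ := fun x => 1 + (-1) * s1 x
  have hs1 : Li s1 := fmul _ _ (fadd _ _ (ff 1) (fc (-(fourier 1 σ : ℂ)))) (fc d⁻¹)
  have hs2 : Li s2 := fadd _ _ (fc 1) (fmul _ _ (fc (-1)) hs1)
  have h1 : s1 σ = 0 := by simp [s1]
  have h2 : s2 τ = 0 := by
    have : s1 τ = 1 := by
      simp only [s1, ← sub_eq_add_neg, ← hddef]
      exact mul_inv_cancel₀ hd
    simp only [s2, this]
    ring
  have hL1 : Li fun x => s1 x * a x := by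
    apply fPL
    apply hF.f2 ∅ {σ} a s1 _ hBa hs1
    · intro x hx
      rw [Set.mem_singleton_iff.mp hx]; exact h1
    · rw [Set.empty_union]; exact hPa
  have hL2 : Li fun x => s2 x * b x := by
    apply fPL
    apply hF.f2 ∅ {τ} b s2 _ hBb hs2
    · intro x hx
      rw [Set.mem_singleton_iff.mp hx]; exact h2
    · rw [Set.empty_union]; exact hPb
  have hM1 : MB s1 := fMB _ hs1
  have hM2 : MB s2 := fMB _ hs2
  have hsum : m s1 + m s2 = 1 := by
    rw [← D.madd _ _ hM1 hM2]
    have : (fun x => s1 x + s2 x) = fun _ => (1 : ℂ) := by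
      funext x
      simp only [s2]
      ring
    rw [this, D.mconst, map_one]
  have hp1 : p * (1 - p) = 0 := by rw [mul_sub, mul_one, D.pp, sub_self]
  have hp2 : (1 - p) * p = 0 := by rw [sub_mul, one_mul, D.pp, sub_self]
  have hc1 : (1 - p) * m s1 = m s1 * (1 - p) := by
    rw [sub_mul, mul_sub, one_mul, mul_one, D.mp _ hs1]
  have ha1 : m a * m s1 = m fun x => s1 x * a x := by
    rw [← D.mmul _ _ hMa hM1]
    congr 1
    funext x
    exact mul_comm _ _
  have hb2 : m s2 * m b = m fun x => s2 x * b x := (D.mmul _ _ hM2 hMb).symm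
  have t1 : p * m a * (1 - p) * (m s1 * (m b * p)) = 0 := by
    calc p * m a * (1 - p) * (m s1 * (m b * p))
        = p * m a * ((1 - p) * m s1) * (m b * p) := by noncomm_ring
      _ = p * (m a * m s1) * (1 - p) * (m b * p) := by rw [hc1]; noncomm_ring
      _ = (p * m fun x => s1 x * a x) * (1 - p) * (m b * p) := by rw [ha1]
      _ = ((m fun x => s1 x * a x) * p) * (1 - p) * (m b * p) := by rw [D.mp _ hL1]
      _ = (m fun x => s1 x * a x) * (p * (1 - p)) * (m b * p) := by
          rw [mul_assoc (m fun x => s1 x * a x) p (1 - p)]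
      _ = 0 := by rw [hp1, mul_zero, zero_mul]
  have t2 : p * m a * (1 - p) * (m s2 * (m b * p)) = 0 := by
    calc p * m a * (1 - p) * (m s2 * (m b * p))
        = p * m a * (1 - p) * ((m s2 * m b) * p) := by rw [mul_assoc (m s2) (m b) p]
      _ = p * m a * (1 - p) * ((m fun x => s2 x * b x) * p) := by rw [hb2]
      _ = p * m a * (1 - p) * (p * m fun x => s2 x * b x) := by rw [D.mp _ hL2]
      _ = p * m a * ((1 - p) * p) * (m fun x => s2 x * b x) := by
          simp only [mul_assoc]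
      _ = 0 := by rw [hp2, mul_zero, zero_mul]
  calc p * m a * (1 - p) * (m b * p)
      = p * m a * (1 - p) * ((m s1 + m s2) * (m b * p)) := by rw [hsum, one_mul]
    _ = p * m a * (1 - p) * (m s1 * (m b * p)) + p * m a * (1 - p) * (m s2 * (m b * p)) := by
        rw [add_mul, mul_add]
    _ = 0 := by rw [t1, t2, add_zero]

end Pool.Agent.H259.PC
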