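import Pool.Agent.H259.PC.Stmt

/-!
# Leaves C4 and C5: two vanishing products
-/

set_option autoImplicit false

open MeasureTheory Set
open scoped ComplexConjugate InnerProductSpace

namespace Pool.Agent.H259.PC

namespace C4L

variable {Q : Type} [Ring Q] [Algebra ℂ Q] {p f : Q} {m : (TT → ℂ) → Q} {r : TT → Q}

theorem fp (D : Dat p f m r) : f * p = (1 - p) * f := by
  rw [← D.fpf, mul_assoc, D.ff, mul_one]

theorem pfp (D : Dat p f m r) : p * f * p = 0 := by
  rw [mul_assoc, fp D, ← mul_assoc, mul_sub, mul_one, D.pp, sub_self, zero_mul]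

theorem fm (D : Dat p f m r) {a : TT → ℂ} (ha : MB a) : f * m a = m (fun x => a (-x)) * f := by
  rw [← D.mf a ha, mul_assoc, D.ff, mul_one]

theorem chi_bo (hF : Fun) : Bo chi := ⟨1, hF.f4.2.2.2.1⟩

theorem chi_mb (hF : Fun) : MB chi :=
  hF.f5 _ _ (Set.toFinite _) hF.f4.1 (chi_bo hF)

theorem li_mb (hF : Fun) {a : TT → ℂ} (ha : Li a) : MB a := hF.f1.2.2.2.2.2.2.1 a ha

theorem li_chi (hF : Fun) {v : TT → ℂ} (hv : Li v) (h0 : v 0 = 0)
    (h1 : v ((1 / 2 : ℝ) : TT) = 0) : Li fun x => v x * chi x := by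
  refine hF.f1.2.2.2.2.2.2.2 _ (hF.f2 ∅ {0, ((1 / 2 : ℝ) : TT)} chi v ?_ (chi_bo hF) hv ?_)
  · rw [Set.empty_union]
    exact hF.f4.1
  · rintro x (rfl | rfl)
    · exact h0
    · exact h1

theorem van (hF : Fun) (D : Dat p f m r) {v : TT → ℂ} (hv : Li v) (h0 : v 0 = 0)
    (h1 : v ((1 / 2 : ℝ) : TT) = 0) : p * (m v * m chi) * f * p = 0 := by
  rw [← D.mmul v chi (li_mb hF hv) (chi_mb hF), ← D.mp _ (li_chi hF hv h0 h1), mul_assoc,
    mul_assoc, ← mul_assoc p, pfp D, mul_zero]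

theorem comm (hF : Fun) (D : Dat p f m r) {v : TT → ℂ} (hv : Li v) :
    m chi * m v = m v * m chi := by
  rw [← D.mmul v chi (li_mb hF hv) (chi_mb hF), ← D.mmul chi v (chi_mb hF) (li_mb hF hv)]
  congr 1
  funext x
  exact mul_comm _ _

/-- The second form: the function is moved through `f` and `p`. -/
theorem van' (hF : Fun) (D : Dat p f m r) {v : TT → ℂ} (hv : Li v) (h0 : v 0 = 0)
    (h1 : v (-((1 / 2 : ℝ) : TT)) = 0) : tG p f m * m v = 0 := by
  have hv' : Li fun x => v (-x) := hF.f1.2.2.2.2.1 v hv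
  have h := van hF D hv' (by rw [neg_zero]; exact h0) h1
  have e1 : tG p f m * m v = p * m chi * (f * m v) * p := by
    unfold tG
    rw [mul_assoc _ p (m v), ← D.mp v hv]
    noncomm_ring
  have e2 : p * m chi * (m (fun x => v (-x)) * f) * p =
      p * (m chi * m (fun x => v (-x))) * f * p := by noncomm_ring
  rw [e1, fm D (li_mb hF hv), e2, comm hF D hv', h]

theorem li_u (hF : Fun) : Li fun x : TT => (1 : ℂ) - fourier 2 x := by
  have h := hF.f1.2.2.1 _ _ (hF.f1.1 1) (hF.f1.2.2.2.1 _ _ (hF.f1.1 (-1)) (hF.f1.2.1 2))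
  have e : (fun x : TT => (1 : ℂ) - fourier 2 x) = fun x => 1 + (-1) * fourier 2 x := by
    funext x
    ring
  rw [e]
  exact h

theorem u_zero : (1 : ℂ) - fourier 2 (0 : TT) = 0 := by
  rw [fourier_eval_zero, sub_self]

theorem u_half : (1 : ℂ) - fourier 2 ((1 / 2 : ℝ) : TT) = 0 := by
  rw [fourier_coe_apply]
  have h : 2 * (Real.pi : ℂ) * Complex.I * ((2 : ℤ) : ℂ) * (((1 / 2 : ℝ)) : ℂ) / ((1 : ℝ) : ℂ) =
      2 * Real.pi * Complex.I := by
    push_cast
    ring
  rw [h, Complex.exp_two_pi_mul_I, sub_self]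

theorem u_neg_half : (1 : ℂ) - fourier 2 (-((1 / 2 : ℝ) : TT)) = 0 := by
  have h0 : (-((1 / 2 : ℝ) : TT)) = ((1 / 2 : ℝ) : TT) := by
    have h1 : (((1 / 2 : ℝ) + (1 / 2 : ℝ) : ℝ) : TT) = 0 := by
      have h2 : ((1 / 2 : ℝ) + (1 / 2 : ℝ)) = 1 := by norm_num
      rw [h2]
      exact AddCircle.coe_period 1
    rw [AddCircle.coe_add] at h1
    exact neg_eq_of_add_eq_zero_left h1
  rw [h0]
  exact u_half

end C4L

theorem leaf_C4 (hF : Fun) (h1 : S_C1) : S_C4 := by
  intro Q _ _ p f m r D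
  obtain ⟨-, -, -, -, -, -, c7, -, -, -, -, -, -, -⟩ := h1 Q p f m r D
  obtain ⟨-, -, -, -, -, w1, w2, w3, w4, -, -, -⟩ := hF.f4
  have hw := C4L.li_mb hF w1
  -- the function `ww * ww - ww`
  have hv : Li fun x => ww x * ww x + (-1) * ww x :=
    hF.f1.2.2.1 _ _ (hF.f1.2.2.2.1 _ _ w1 w1) (hF.f1.2.2.2.1 _ _ (hF.f1.1 (-1)) w1)
  have hv' := C4L.van' hF D hv (by simp only [w2]; norm_num)
    (by simp only [w4, w3]; norm_num)
  have hm : m (fun x => ww x * ww x + (-1) * ww x) = m ww * m ww - m ww := by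
    rw [D.madd _ _ (C4L.li_mb hF (hF.f1.2.2.2.1 _ _ w1 w1))
      (C4L.li_mb hF (hF.f1.2.2.2.1 _ _ (hF.f1.1 (-1)) w1)), D.mmul _ _ hw hw,
      D.mmul (fun _ => -1) ww (C4L.li_mb hF (hF.f1.1 (-1))) hw, D.mconst, map_neg, map_one,
      neg_one_mul, ← sub_eq_add_neg]
  rw [hm, mul_sub] at hv'
  have e1 : tG p f m * (m ww * m ww) = tG p f m * m ww := sub_eq_zero.mp hv'
  unfold tH
  calc tG p f m * m ww * (tG p f m * m ww) = tG p f m * (m ww * tG p f m) * m ww := by
        noncomm_ring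
    _ = tG p f m * (tG p f m * m ww) * m ww := by rw [c7]
    _ = tG p f m * (tG p f m * (m ww * m ww)) := by noncomm_ring
    _ = tG p f m * (tG p f m * m ww) := by rw [e1]

theorem leaf_C5 (hF : Fun) (h1 : S_C1) : S_C5 := by
  intro Q _ _ p f m r D c hc C hC
  obtain ⟨-, -, -, -, -, -, c7, -, -, -, -, -, -, -⟩ := h1 Q p f m r D
  obtain ⟨-, -, -, -, -, w1, w2, w3, w4, -, -, -⟩ := hF.f4
  have hw := C4L.li_mb hF w1
  obtain ⟨c', hc', he⟩ := hF.f11 c hc C hC
  have hu := C4L.li_u hF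
  have hub := C4L.li_mb hF hu
  have em : m c * m ww = m c' * m (fun x => (1 : ℂ) - fourier 2 x) := by
    rw [← D.mmul c ww hc hw, ← D.mmul c' _ hc' hub]
    congr 1
    funext x
    exact he x
  have em' : m ww * m c = m (fun x => (1 : ℂ) - fourier 2 x) * m c' := by
    rw [← D.mmul ww c hw hc, ← D.mmul _ c' hub hc']
    congr 1
    funext x
    rw [mul_comm, he x, mul_comm]
  constructor
  · have hv := C4L.van hF D hu C4L.u_zero C4L.u_half
    unfold tH
    calc p * m c * (tG p f m * m ww) = p * m c * (m ww * tG p f m) := by rw [c7]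
      _ = p * (m c * m ww) * tG p f m := by noncomm_ring
      _ = p * m c' * (m (fun x => (1 : ℂ) - fourier 2 x) * p) * (m chi * f * p) := by
          rw [em]
          unfold tG
          noncomm_ring
      _ = p * m c' * (p * m (fun x => (1 : ℂ) - fourier 2 x)) * (m chi * f * p) := by
          rw [D.mp _ hu]
      _ = p * m c' * (p * (m (fun x => (1 : ℂ) - fourier 2 x) * m chi) * f * p) := by
          noncomm_ring
      _ = 0 := by rw [hv, mul_zero]
  · have hv := C4L.van' hF D hu C4L.u_zero C4L.u_neg_half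
    unfold tH
    calc tG p f m * m ww * m c * p = tG p f m * (m ww * m c) * p := by noncomm_ring
      _ = tG p f m * m (fun x => (1 : ℂ) - fourier 2 x) * (m c' * p) := by
          rw [em']
          noncomm_ring
      _ = 0 := by rw [hv, zero_mul]

end Pool.Agent.H259.PC
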