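import Pool.Agent.H259.PC.Stmt

/-!
# PC-C7: product of two Toeplitz elements
-/

set_option autoImplicit false

open MeasureTheory Set
open scoped ComplexConjugate InnerProductSpace

namespace Pool.Agent.H259.PC

namespace C7L

section
variable {Q : Type} [Ring Q]

theorem hfp {p f : Q} (hff : f * f = 1) (hfpf : f * p * f = 1 - p) : f * p = (1 - p) * f := by
  rw [← hfpf, mul_assoc, hff, mul_one]

theorem hpf {p f : Q} (hff : f * f = 1) (hfpf : f * p * f = 1 - p) : p * f = f * (1 - p) := by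
  rw [← hfpf, mul_assoc f p f, ← mul_assoc f f, hff, one_mul]

theorem p1p {p : Q} (hpp : p * p = p) : p * (1 - p) = 0 := by
  rw [mul_sub, mul_one, hpp, sub_self]

theorem p1p' {p : Q} (hpp : p * p = p) : (1 - p) * p = 0 := by
  rw [sub_mul, one_mul, hpp, sub_self]

theorem q1q {p : Q} (hpp : p * p = p) : (1 - p) * (1 - p) = 1 - p := by
  rw [mul_sub, mul_one, p1p' hpp, sub_zero]

end

/-! functions -/

theorem mb_chi (hF : Fun) : MB chi :=
  hF.f5 _ chi (Set.toFinite _) hF.f4.1 ⟨1, hF.f4.2.2.2.1⟩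

theorem mb_kap (hF : Fun) : MB kap :=
  hF.f5 _ kap (Set.finite_singleton _) hF.f4.2.2.2.2.2.2.2.2.2.1 hF.f4.2.2.2.2.2.2.2.2.2.2.1

theorem li_ww (hF : Fun) : Li ww := hF.f4.2.2.2.2.2.1

theorem mb_of_li (hF : Fun) {c : TT → ℂ} (hc : Li c) : MB c := hF.f1.2.2.2.2.2.2.1 c hc

theorem mb_ww (hF : Fun) : MB ww := mb_of_li hF (li_ww hF)

theorem mb_const (c : ℂ) : MB (fun _ : TT => c) :=
  ⟨⟨‖c‖, fun _ => le_rfl⟩, aestronglyMeasurable_const⟩

theorem mb_add {a b : TT → ℂ} (ha : MB a) (hb : MB b) : MB (fun x => a x + b x) := by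
  obtain ⟨⟨M, hM⟩, h1⟩ := ha
  obtain ⟨⟨M', hM'⟩, h2⟩ := hb
  exact ⟨⟨M + M', fun x => (norm_add_le _ _).trans (add_le_add (hM x) (hM' x))⟩, h1.add h2⟩

theorem mb_mul {a b : TT → ℂ} (ha : MB a) (hb : MB b) : MB (fun x => a x * b x) := by
  obtain ⟨⟨M, hM⟩, h1⟩ := ha
  obtain ⟨⟨M', hM'⟩, h2⟩ := hb
  refine ⟨⟨M * M', fun x => ?_⟩, h1.mul h2⟩
  rw [norm_mul]
  exact mul_le_mul (hM x) (hM' x) (norm_nonneg _) ((norm_nonneg _).trans (hM x))

theorem mb_neg {a : TT → ℂ} (ha : MB a) : MB (fun x => a (-x)) := by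
  obtain ⟨⟨M, hM⟩, h1⟩ := ha
  exact ⟨⟨M, fun x => hM (-x)⟩,
    h1.comp_measurePreserving (Measure.measurePreserving_neg hm)⟩

theorem mb_shift {a : TT → ℂ} (ha : MB a) (s : TT) : MB (fun x => a (x + s)) := by
  obtain ⟨⟨M, hM⟩, h1⟩ := ha
  exact ⟨⟨M, fun x => hM (x + s)⟩,
    h1.comp_measurePreserving (measurePreserving_add_right hm s)⟩

theorem mb_finsum {ι : Type} (t : Finset ι) (g : ι → TT → ℂ) (hg : ∀ i, MB (g i)) :
    MB (fun x => ∑ i ∈ t, g i x) := by
  classical
  induction t using Finset.induction_on with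
  | empty =>
    have := mb_const (0 : ℂ)
    simpa using this
  | insert i t hi ih =>
    have := mb_add (hg i) ih
    simpa [Finset.sum_insert hi] using this

/-- `kap (ζ - ·)` and `kap (· + ζ)` -/
theorem pl_refl {a : TT → ℂ} (ha : PL {0} a) (ζ : TT) : PL {ζ} (fun x => a (-x + ζ)) := by
  obtain ⟨L, hL⟩ := ha
  obtain ⟨t, rfl⟩ : ∃ t : ℝ, (t : TT) = ζ := QuotientAddGroup.mk_surjective ζ
  refine ⟨L, fun x y hxy h => ?_⟩
  have e : ∀ s : ℝ, (-(s : TT) + (t : TT)) = ((t - s : ℝ) : TT) := by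
    intro s
    rw [AddCircle.coe_sub]
    abel
  simp only [e]
  rw [norm_sub_rev]
  have h1 := hL (t - y) (t - x) (by linarith) (by
    intro z hz hz0
    apply h (t - z) ⟨by linarith [hz.2], by linarith [hz.1]⟩
    rw [Set.mem_singleton_iff] at hz0 ⊢
    rw [AddCircle.coe_sub, hz0, sub_zero])
  refine h1.trans (le_of_eq ?_)
  ring

theorem pl_shift {a : TT → ℂ} (ha : PL {0} a) (ζ : TT) : PL {-ζ} (fun x => a (x + ζ)) := by
  obtain ⟨L, hL⟩ := ha
  obtain ⟨t, rfl⟩ : ∃ t : ℝ, (t : TT) = ζ := QuotientAddGroup.mk_surjective ζ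
  refine ⟨L, fun x y hxy h => ?_⟩
  have e : ∀ s : ℝ, ((s : TT) + (t : TT)) = ((s + t : ℝ) : TT) := by
    intro s
    rw [AddCircle.coe_add]
  simp only [e]
  have h1 := hL (x + t) (y + t) (by linarith) (by
    intro z hz hz0
    apply h (z - t) ⟨by linarith [hz.1], by linarith [hz.2]⟩
    rw [Set.mem_singleton_iff] at hz0 ⊢
    rw [AddCircle.coe_sub, hz0, zero_sub])
  refine h1.trans (le_of_eq ?_)
  ring

section
variable {Q : Type} [Ring Q] [Algebra ℂ Q] {p f : Q} {m : (TT → ℂ) → Q} {r : TT → Q}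

theorem m_one (D : Dat p f m r) : m (fun _ => 1) = 1 := by
  rw [D.mconst, map_one]

theorem m_zero (D : Dat p f m r) : m (fun _ => 0) = 0 := by
  rw [D.mconst, map_zero]

theorem m_smul (D : Dat p f m r) {a : TT → ℂ} (ha : MB a) (c : ℂ) :
    m (fun x => c * a x) = c • m a := by
  rw [D.mmul (fun _ => c) a (mb_const c) ha, D.mconst, Algebra.smul_def]

theorem m_sum (D : Dat p f m r) {ι : Type} (t : Finset ι) (g : ι → TT → ℂ) (hg : ∀ i, MB (g i)) :
    m (fun x => ∑ i ∈ t, g i x) = ∑ i ∈ t, m (g i) := by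
  classical
  induction t using Finset.induction_on with
  | empty =>
    simp only [Finset.sum_empty]
    exact m_zero D
  | insert i t hi ih =>
    rw [Finset.sum_insert hi, ← ih, ← D.madd _ _ (hg i) (mb_finsum t g hg)]
    congr 1
    funext x
    rw [Finset.sum_insert hi]

theorem m_shift (D : Dat p f m r) {a : TT → ℂ} (ha : MB a) (s : TT) :
    m (fun x => a (x + s)) = r s * m a * r (-s) := by
  rw [D.mr s a ha, mul_assoc, D.radd, add_neg_cancel, D.rzero, mul_one]

theorem m_neg_kap (hF : Fun) (D : Dat p f m r) : m (fun x => kap (-x)) = m ww - m kap := by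
  have h1 : m (fun x => kap (-x)) + m kap = m ww := by
    rw [← D.madd _ _ (mb_neg (mb_kap hF)) (mb_kap hF)]
    apply D.mae
    filter_upwards [hF.f4.2.1] with x hx
    have h2 := hF.f4.2.2.2.2.2.2.2.2.1 x
    simp only [kap]
    rw [h2, hx]
    ring
  rw [← h1, add_sub_cancel_right]

end

end C7L

theorem leaf_C7 (hF : Fun) (h1 : S_C1) (h2 : S_C2) (h4 : S_C4) (h6 : S_C6) : S_C7 := by
  intro Q _ _ p f m r D ι _ _ z hz a b α β α' β' hSa hSb
  obtain ⟨-, -, -, -, -, -, -, -, hwp, hH, -⟩ := h1 Q p f m r D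
  have hk := C7L.mb_kap hF
  have hpl : PL {0} kap := hF.f4.2.2.2.2.2.2.2.2.2.1
  have hma : MB a := hF.f5 _ a (Set.finite_range z) hSa.pl hSa.bo
  have hmb : MB b := hF.f5 _ b (Set.finite_range z) hSb.pl hSb.bo
  have hfp := C7L.hfp D.ff D.fpf
  have hrp : ∀ s, r s * (1 - p) = (1 - p) * r s := by
    intro s
    rw [mul_sub, mul_one, sub_mul, one_mul, D.rp]
  have hqq := C7L.q1q D.pp
  -- the diagonal terms
  have hdiag : p * m kap * (1 - p) * ((1 - p) * m kap * p) = -(tG p f m * tH p f m) := by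
    rw [← h4 Q p f m r D, hH]
    have e1 : f * m kap * f = m ww - m kap := by rw [D.mf _ hk, C7L.m_neg_kap hF D]
    have e2 : p * m kap * f * p * (p * m kap * f * p) = -(p * m kap * (1 - p) * (m kap * p)) := by
      calc p * m kap * f * p * (p * m kap * f * p)
          = p * m kap * (f * p) * (m kap * f * p) := by
            have : p * (p * (m kap * f * p)) = p * (m kap * f * p) := by
              rw [← mul_assoc, D.pp]
            simp only [mul_assoc] at this ⊢
            rw [this]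
        _ = p * m kap * (1 - p) * ((f * m kap * f) * p) := by
            rw [hfp]
            simp only [mul_assoc]
        _ = p * m kap * ((1 - p) * p) * m ww - p * m kap * (1 - p) * (m kap * p) := by
            rw [e1, sub_mul, mul_sub, hwp]
            simp only [mul_assoc]
        _ = _ := by rw [C7L.p1p' D.pp, mul_zero, zero_mul, zero_sub]
    rw [e2, neg_neg]
    calc p * m kap * (1 - p) * ((1 - p) * m kap * p)
        = p * m kap * ((1 - p) * (1 - p)) * (m kap * p) := by simp only [mul_assoc]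
      _ = _ := by rw [hqq]
  -- the other terms
  have hoff : ∀ ζ : TT, ζ ≠ 0 →
      p * m kap * (1 - p) * r ζ * ((1 - p) * m kap * p) = 0 := by
    intro ζ hζ
    have hbo' : Bo (fun x => kap (x + ζ)) := by
      obtain ⟨M, hM⟩ := hk.bo
      exact ⟨M, fun x => hM _⟩
    have h3 := h2 Q p f m r D 0 (-ζ) kap (fun x => kap (x + ζ))
      (fun h => hζ (by rw [eq_comm, neg_eq_zero] at h; exact h)) hpl hk.bo (C7L.pl_shift hpl ζ) hbo'
    calc p * m kap * (1 - p) * r ζ * ((1 - p) * m kap * p)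
        = p * m kap * ((1 - p) * (r ζ * (1 - p))) * m kap * p := by simp only [mul_assoc]
      _ = p * m kap * (1 - p) * (r ζ * m kap) * p := by
          rw [hrp, ← mul_assoc (1 - p) (1 - p), hqq]
          simp only [mul_assoc]
      _ = p * m kap * (1 - p) * m (fun x => kap (x + ζ)) * (r ζ * p) := by
          rw [D.mr _ _ hk]
          simp only [mul_assoc]
      _ = (p * m kap * (1 - p) * (m (fun x => kap (x + ζ)) * p)) * r ζ := by
          rw [D.rp]
          simp only [mul_assoc]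
      _ = 0 := by rw [h3, zero_mul]
  -- the product of the Hankel parts
  have hprod : (p * m a * (1 - p)) * ((1 - p) * m b * p) =
      -∑ i, (β i * β' i) • (r (-z i) * (tG p f m * tH p f m) * r (z i)) := by
    rw [(h6 Q p f m r D ι z hz a α β hSa).1, (h6 Q p f m r D ι z hz b α' β' hSb).2,
      Finset.sum_mul, ← Finset.sum_neg_distrib]
    refine Finset.sum_congr rfl fun i _ => ?_
    rw [Finset.mul_sum, Finset.sum_eq_single i]
    · rw [smul_mul_smul_comm, ← smul_neg]
      congr 1
      calc r (-z i) * (p * m kap * (1 - p)) * r (z i) * (r (-z i) * ((1 - p) * m kap * p) * r (z i))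
          = r (-z i) * (p * m kap * (1 - p)) * (r (z i) * r (-z i)) *
              ((1 - p) * m kap * p) * r (z i) := by simp only [mul_assoc]
        _ = r (-z i) * (p * m kap * (1 - p) * ((1 - p) * m kap * p)) * r (z i) := by
            rw [D.radd, add_neg_cancel, D.rzero, mul_one]
            simp only [mul_assoc]
        _ = _ := by rw [hdiag, mul_neg, neg_mul]
    · intro j _ hj
      rw [smul_mul_smul_comm]
      have e3 : r (-z i) * (p * m kap * (1 - p)) * r (z i) *
          (r (-z j) * ((1 - p) * m kap * p) * r (z j)) =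
          r (-z i) * (p * m kap * (1 - p) * r (z i + -z j) * ((1 - p) * m kap * p)) * r (z j) := by
        rw [← D.radd]
        simp only [mul_assoc]
      rw [e3, hoff, mul_zero, zero_mul, smul_zero]
      intro h
      apply hj
      apply hz
      rw [← sub_eq_add_neg, sub_eq_zero] at h
      exact h.symm
    · intro h
      exact absurd (Finset.mem_univ i) h
  have hq : (p * m a * (1 - p)) * ((1 - p) * m b * p) =
      p * (m a * m b) * p - (p * m a * p) * (p * m b * p) := by
    calc (p * m a * (1 - p)) * ((1 - p) * m b * p)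
        = p * m a * ((1 - p) * (1 - p)) * (m b * p) := by simp only [mul_assoc]
      _ = p * m a * (1 - p) * (m b * p) := by rw [hqq]
      _ = p * (m a * m b) * p - p * m a * p * (m b * p) := by
          rw [mul_sub, mul_one, sub_mul]
          simp only [mul_assoc]
      _ = p * (m a * m b) * p - p * m a * (p * p) * (m b * p) := by rw [D.pp]
      _ = _ := by simp only [mul_assoc]
  rw [D.mmul _ _ hma hmb]
  rw [hprod] at hq
  rw [eq_comm, sub_eq_iff_eq_add] at hq
  rw [hq]
  abel

end Pool.Agent.H259.PC
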