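import Pool.Agent.H259.PC.Stmt

set_option autoImplicit false

open MeasureTheory Set
open scoped ComplexConjugate InnerProductSpace

namespace Pool.Agent.H259.PC

namespace C8L

/-! ### functions -/

lemma MB_shift {a : TT → ℂ} (h : MB a) (s : TT) : MB fun x => a (x + s) := by
  obtain ⟨⟨M, hM⟩, hme⟩ := h
  refine ⟨⟨M, fun x => hM _⟩, ?_⟩
  exact hme.comp_measurePreserving (measurePreserving_add_right hm s)

lemma MB_add {a b : TT → ℂ} (ha : MB a) (hb : MB b) : MB fun x => a x + b x := by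
  obtain ⟨⟨M, hM⟩, hme⟩ := ha
  obtain ⟨⟨M', hM'⟩, hme'⟩ := hb
  exact ⟨⟨M + M', fun x => (norm_add_le _ _).trans (add_le_add (hM x) (hM' x))⟩, hme.add hme'⟩

lemma MB_mul {a b : TT → ℂ} (ha : MB a) (hb : MB b) : MB fun x => a x * b x := by
  obtain ⟨⟨M, hM⟩, hme⟩ := ha
  obtain ⟨⟨M', hM'⟩, hme'⟩ := hb
  refine ⟨⟨M * M', fun x => ?_⟩, hme.mul hme'⟩
  rw [norm_mul]
  exact mul_le_mul (hM x) (hM' x) (norm_nonneg _) ((norm_nonneg _).trans (hM x))

lemma MB_const (c : ℂ) : MB fun _ : TT => c :=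
  ⟨⟨‖c‖, fun _ => le_rfl⟩, aestronglyMeasurable_const⟩

lemma MB_sub {a b : TT → ℂ} (ha : MB a) (hb : MB b) : MB fun x => a x - b x := by
  obtain ⟨⟨M, hM⟩, hme⟩ := ha
  obtain ⟨⟨M', hM'⟩, hme'⟩ := hb
  exact ⟨⟨M + M', fun x => (norm_sub_le _ _).trans (add_le_add (hM x) (hM' x))⟩, hme.sub hme'⟩

lemma MB_chi (hF : Fun) : MB chi := by
  obtain ⟨h1, -, -, h4, -⟩ := hF.f4
  exact hF.f5 _ _ (by simp) h1 ⟨1, h4⟩

lemma MB_sym (hF : Fun) {ι : Type} [Fintype ι] {z : ι → TT} {a : TT → ℂ} {α β : ι → ℂ}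
    (h : Sym z a α β) : MB a :=
  hF.f5 _ _ (finite_range z) h.pl h.bo

lemma exists_rep (x : TT) : ∃ s : ℝ, (s : TT) = x ∧ |s| = ‖x‖ := by
  induction x using QuotientAddGroup.induction_on with
  | H t =>
    refine ⟨t - round ((1 : ℝ)⁻¹ * t) * 1, ?_, ?_⟩
    · rw [AddCircle.coe_sub]
      have : ((round ((1 : ℝ)⁻¹ * t) * 1 : ℝ) : TT) = 0 := by
        rw [AddCircle.coe_eq_zero_iff]
        exact ⟨round ((1 : ℝ)⁻¹ * t), by simp⟩
      rw [this, sub_zero]
    · exact (AddCircle.norm_eq (1 : ℝ) (x := t)).symm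

/-! ### algebra -/

section
variable {Q Λ : Type} [Ring Q] [Algebra ℂ Q] [CommRing Λ] [Algebra ℂ Λ] {p f : Q}
  {m : (TT → ℂ) → Q} {r : TT → Q} {φ : Λ →ₐ[ℂ] Q} {aa ga : Λ}

lemma r_inv (D : Dat p f m r) (s : TT) : r (-s) * r s = 1 := by
  rw [D.radd, neg_add_cancel, D.rzero]

lemma r_inv' (D : Dat p f m r) (s : TT) : r s * r (-s) = 1 := by
  rw [D.radd, add_neg_cancel, D.rzero]

/-- shifting from the left -/
lemma m_r (D : Dat p f m r) {a : TT → ℂ} (ha : MB a) (s : TT) :
    m a * r (-s) = r (-s) * m fun x => a (x + s) := by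
  have h := D.mr s a ha
  calc m a * r (-s) = (r (-s) * r s) * m a * r (-s) := by rw [r_inv D, one_mul]
    _ = r (-s) * (r s * m a) * r (-s) := by simp only [mul_assoc]
    _ = r (-s) * (m (fun x => a (x + s)) * r s) * r (-s) := by rw [h]
    _ = r (-s) * m (fun x => a (x + s)) * (r s * r (-s)) := by simp only [mul_assoc]
    _ = _ := by rw [r_inv' D, mul_one]

/-- the value of a symbol at a jump, up to a function which vanishes there -/
lemma m_split (hF : Fun) (D : Dat p f m r) {ι : Type} [Fintype ι] {z : ι → TT} {a : TT → ℂ}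
    {α β : ι → ℂ} (h : Sym z a α β) (i : ι) :
    ∃ c : TT → ℂ, MB c ∧ (∃ C : ℝ, ∀ x, ‖c x‖ ≤ C * ‖x‖) ∧
      m (fun x => a (x + z i)) = m c + (algebraMap ℂ Q (α i) + β i • m chi) := by
  have hc : MB chi := MB_chi hF
  have hsh : MB fun x => a (x + z i) := MB_shift (MB_sym hF h) (z i)
  refine ⟨fun x => a (x + z i) - α i - β i * chi x,
    MB_sub (MB_sub hsh (MB_const _)) (MB_mul (MB_const _) hc), h.jump i, ?_⟩
  have e : (fun x => a (x + z i)) = fun x => (fun x => a (x + z i) - α i - β i * chi x) x +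
      (fun x => (fun _ => α i) x + (fun x => (fun _ => β i) x * chi x) x) x := by
    funext x; simp only; ring
  conv_lhs => rw [e]
  rw [D.madd _ _ (MB_sub (MB_sub hsh (MB_const _)) (MB_mul (MB_const _) hc))
    (MB_add (MB_const _) (MB_mul (MB_const _) hc)),
    D.madd _ _ (MB_const _) (MB_mul (MB_const _) hc), D.mmul _ _ (MB_const _) hc, D.mconst,
    D.mconst, Algebra.smul_def]

/-- local symbol -/
noncomputable def ls (aa : Λ) (α β : ℂ) : Λ := algebraMap ℂ Λ α + β • aa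

lemma phi_ls (P : Phi p f m φ aa ga) (α β : ℂ) :
    φ (ls aa α β) = algebraMap ℂ Q α + β • tA p m := by
  rw [ls, map_add, AlgHom.commutes, map_smul, P.ha]

lemma p_phi (h1 : S_C1) (D : Dat p f m r) (P : Phi p f m φ aa ga) (x : Λ) :
    p * φ x = φ x * p := by
  obtain ⟨-, -, hpG, hGp, hpA, hAp, -⟩ := h1 Q p f m r D
  exact P.hcomm p (by rw [hpA, hAp]) (by rw [hpG, hGp]) x

lemma H_phi (h1 : S_C1) (D : Dat p f m r) (P : Phi p f m φ aa ga) (x : Λ) :
    tH p f m * φ x = φ x * tH p f m := by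
  obtain ⟨-, -, -, -, -, -, -, -, -, -, -, -, hGH, hAH⟩ := h1 Q p f m r D
  exact P.hcomm _ hAH.symm hGH.symm x

lemma pH (h1 : S_C1) (D : Dat p f m r) : p * tH p f m = tH p f m := by
  obtain ⟨-, -, -, -, -, -, -, -, -, -, h, -⟩ := h1 Q p f m r D
  exact h

lemma Hp (h1 : S_C1) (D : Dat p f m r) : tH p f m * p = tH p f m := by
  obtain ⟨-, -, -, -, -, -, -, -, -, -, -, h, -⟩ := h1 Q p f m r D
  exact h

/-- (i) at one jump -/
lemma left_jump (hF : Fun) (h1 : S_C1) (h5 : S_C5) (D : Dat p f m r) (P : Phi p f m φ aa ga)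
    {ι : Type} [Fintype ι] {z : ι → TT} {a : TT → ℂ} {α β : ι → ℂ} (h : Sym z a α β) (i : ι) :
    p * m (fun x => a (x + z i)) * p * tH p f m = φ (ls aa (α i) (β i)) * tH p f m := by
  obtain ⟨c, hc, ⟨C, hC⟩, e⟩ := m_split hF D h i
  have h0 := (h5 Q p f m r D c hc C hC).1
  have hp := pH h1 D
  rw [e, phi_ls P]
  have e1 : p * (m c + (algebraMap ℂ Q (α i) + β i • m chi)) * p * tH p f m =
      p * m c * (p * tH p f m) + (p * algebraMap ℂ Q (α i) * (p * tH p f m) +
        β i • (p * m chi * p) * tH p f m) := by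
    rw [mul_add, mul_add, add_mul, add_mul, add_mul, add_mul, mul_smul_comm, smul_mul_assoc]
    simp only [mul_assoc]
  rw [e1, hp, h0, zero_add, add_mul, ← Algebra.commutes (α i) p, mul_assoc, hp]
  rfl

lemma right_jump (hF : Fun) (h1 : S_C1) (h5 : S_C5) (D : Dat p f m r) (P : Phi p f m φ aa ga)
    {ι : Type} [Fintype ι] {z : ι → TT} {a : TT → ℂ} {α β : ι → ℂ} (h : Sym z a α β) (i : ι) :
    tH p f m * (p * m (fun x => a (x + z i)) * p) = φ (ls aa (α i) (β i)) * tH p f m := by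
  obtain ⟨c, hc, ⟨C, hC⟩, e⟩ := m_split hF D h i
  have h0 := (h5 Q p f m r D c hc C hC).2
  have hp := Hp h1 D
  rw [← H_phi h1 D P, e, phi_ls P]
  have e1 : tH p f m * (p * (m c + (algebraMap ℂ Q (α i) + β i • m chi)) * p) =
      (tH p f m * p) * m c * p + ((tH p f m * p) * algebraMap ℂ Q (α i) * p +
        tH p f m * (β i • (p * m chi * p))) := by
    rw [mul_add, mul_add, add_mul, add_mul, mul_add, mul_add, mul_smul_comm, smul_mul_assoc]
    simp only [mul_assoc]
  rw [e1, hp, h0, zero_add, mul_add, mul_assoc, Algebra.commutes (α i) p, ← mul_assoc, hp]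
  rfl

/-- the basic piece -/
noncomputable def pc (p f : Q) (m : (TT → ℂ) → Q) (r : TT → Q) (φ : Λ →ₐ[ℂ] Q) (s t : TT)
    (x : Λ) : Q := r (-s) * φ x * tH p f m * r t

lemma pc_add (s t : TT) (x y : Λ) :
    pc p f m r φ s t (x + y) = pc p f m r φ s t x + pc p f m r φ s t y := by
  simp only [pc, map_add, mul_add, add_mul]

lemma pc_zero (s t : TT) : pc p f m r φ s t 0 = 0 := by
  simp only [pc, map_zero, mul_zero, zero_mul]

lemma pc_sum {κ : Type} (S : Finset κ) (s t : TT) (x : κ → Λ) :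
    pc p f m r φ s t (∑ k ∈ S, x k) = ∑ k ∈ S, pc p f m r φ s t (x k) := by
  simp only [pc, map_sum, Finset.mul_sum, Finset.sum_mul]

lemma left_pc (hF : Fun) (h1 : S_C1) (h5 : S_C5) (D : Dat p f m r) (P : Phi p f m φ aa ga)
    {ι : Type} [Fintype ι] {z : ι → TT} {a : TT → ℂ} {α β : ι → ℂ} (h : Sym z a α β) (i : ι)
    (t : TT) (x : Λ) :
    (p * m a * p) * pc p f m r φ (z i) t x =
      pc p f m r φ (z i) t (ls aa (α i) (β i) * x) := by
  have hr := D.rp (-z i)
  have hm' := m_r D (MB_sym hF h) (z i)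
  calc (p * m a * p) * pc p f m r φ (z i) t x
      = p * m a * (p * r (-z i)) * φ x * tH p f m * r t := by
        simp only [pc, mul_assoc]
    _ = p * (m a * r (-z i)) * p * φ x * tH p f m * r t := by
        rw [← hr]; simp only [mul_assoc]
    _ = (p * r (-z i)) * m (fun x => a (x + z i)) * p * φ x * tH p f m * r t := by
        rw [hm']; simp only [mul_assoc]
    _ = r (-z i) * (p * m (fun x => a (x + z i)) * p) * (φ x * tH p f m) * r t := by
        rw [← hr]; simp only [mul_assoc]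
    _ = r (-z i) * (p * m (fun x => a (x + z i)) * p * tH p f m) * φ x * r t := by
        rw [← H_phi h1 D P]; simp only [mul_assoc]
    _ = r (-z i) * φ (ls aa (α i) (β i)) * (tH p f m * φ x) * r t := by
        rw [left_jump hF h1 h5 D P h i]; simp only [mul_assoc]
    _ = _ := by
        rw [H_phi h1 D P, pc, map_mul]; simp only [mul_assoc]

lemma m_r_right (D : Dat p f m r) {a : TT → ℂ} (ha : MB a) (s : TT) :
    r s * (p * m a * p) = (p * m (fun x => a (x + s)) * p) * r s := by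
  have hr := D.rp s
  have h := D.mr s a ha
  calc r s * (p * m a * p) = (r s * p) * m a * p := by simp only [mul_assoc]
    _ = p * (r s * m a) * p := by rw [hr]; simp only [mul_assoc]
    _ = p * m (fun x => a (x + s)) * (r s * p) := by rw [h]; simp only [mul_assoc]
    _ = _ := by rw [hr]; simp only [mul_assoc]

lemma H_r_m (hF : Fun) (h1 : S_C1) (h5 : S_C5) (D : Dat p f m r) (P : Phi p f m φ aa ga)
    {ι : Type} [Fintype ι] {z : ι → TT} {a : TT → ℂ} {α β : ι → ℂ} (h : Sym z a α β) (j : ι) :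
    tH p f m * r (z j) * (p * m a * p) = φ (ls aa (α j) (β j)) * (tH p f m * r (z j)) := by
  rw [mul_assoc, m_r_right D (MB_sym hF h) (z j), ← mul_assoc,
    right_jump hF h1 h5 D P h j, mul_assoc]

lemma pc_right (hF : Fun) (h1 : S_C1) (h5 : S_C5) (D : Dat p f m r) (P : Phi p f m φ aa ga)
    {ι : Type} [Fintype ι] {z : ι → TT} {a : TT → ℂ} {α β : ι → ℂ} (h : Sym z a α β) (j : ι)
    (s : TT) (x : Λ) :
    pc p f m r φ s (z j) x * (p * m a * p) =
      pc p f m r φ s (z j) (x * ls aa (α j) (β j)) := by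
  have e := H_r_m hF h1 h5 D P h j
  calc pc p f m r φ s (z j) x * (p * m a * p)
      = r (-s) * φ x * (tH p f m * r (z j) * (p * m a * p)) := by
        simp only [pc, mul_assoc]
    _ = _ := by
        rw [e, pc, map_mul]; simp only [mul_assoc]

lemma HH (h4 : S_C4) (D : Dat p f m r) (P : Phi p f m φ aa ga) :
    tH p f m * tH p f m = φ ga * tH p f m := by
  rw [h4 Q p f m r D, P.hg]

/-- the middle product -/
lemma H_mid (h1 : S_C1) (h3 : S_C3) (h4 : S_C4) (D : Dat p f m r) (P : Phi p f m φ aa ga)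
    {ι : Type} [DecidableEq ι] {z : ι → TT} (hz : Function.Injective z) (j k : ι) (y : Λ) :
    tH p f m * r (z j) * r (-z k) * φ y * tH p f m =
      if j = k then φ (ga * y) * tH p f m else 0 := by
  split_ifs with hjk
  · subst hjk
    rw [mul_assoc (tH p f m), r_inv' D, mul_one, H_phi h1 D P, mul_assoc, HH h4 D P,
      ← mul_assoc, ← map_mul, mul_comm y ga]
  · have hne : z j + -z k ≠ 0 := by
      intro h0
      apply hjk
      apply hz
      rw [← sub_eq_add_neg] at h0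
      exact sub_eq_zero.1 h0
    have h0 := h3 Q p f m r D _ hne
    rw [mul_assoc (tH p f m), D.radd, mul_assoc _ (φ y), ← H_phi h1 D P, ← mul_assoc, h0, zero_mul]

lemma pc_pc (h1 : S_C1) (h3 : S_C3) (h4 : S_C4) (D : Dat p f m r) (P : Phi p f m φ aa ga)
    {ι : Type} [DecidableEq ι] {z : ι → TT} (hz : Function.Injective z) (j k : ι) (s t : TT)
    (x y : Λ) :
    pc p f m r φ s (z j) x * pc p f m r φ (z k) t y =
      if j = k then pc p f m r φ s t (ga * (x * y)) else 0 := by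
  have e := H_mid h1 h3 h4 D P hz j k y
  have e2 : pc p f m r φ s (z j) x * pc p f m r φ (z k) t y =
      r (-s) * φ x * (tH p f m * r (z j) * r (-z k) * φ y * tH p f m) * r t := by
    simp only [pc, mul_assoc]
  rw [e2, e]
  split_ifs with hjk
  · rw [pc]
    have : φ (ga * (x * y)) = φ x * φ (ga * y) := by
      rw [← map_mul]; congr 1; ring
    rw [this]; simp only [mul_assoc]
  · simp

variable {ι : Type} [Fintype ι] [DecidableEq ι]

omit [DecidableEq ι] in
lemma Op_eq (z : ι → TT) (N : Matrix ι ι Λ) :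
    Op p f m r φ z N = ∑ i, ∑ j, pc p f m r φ (z i) (z j) (N i j) := rfl

omit [DecidableEq ι] in
lemma Op_add (z : ι → TT) (N M : Matrix ι ι Λ) :
    Op p f m r φ z (N + M) = Op p f m r φ z N + Op p f m r φ z M := by
  simp only [Op_eq, Matrix.add_apply, pc_add, Finset.sum_add_distrib]

lemma Op_diag (z : ι → TT) (d : ι → Λ) :
    Op p f m r φ z (Matrix.diagonal d) = ∑ i, pc p f m r φ (z i) (z i) (d i) := by
  rw [Op_eq]
  refine Finset.sum_congr rfl fun i _ => ?_
  rw [Finset.sum_eq_single i]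
  · rw [Matrix.diagonal_apply_eq]
  · intro j _ hj
    rw [Matrix.diagonal_apply_ne _ hj.symm, pc_zero]
  · intro h; exact absurd (Finset.mem_univ i) h

lemma DD_apply (α β : ι → ℂ) (M : Matrix ι ι Λ) (i j : ι) :
    (DD aa α β * M) i j = ls aa (α i) (β i) * M i j := by
  rw [DD, Matrix.diagonal_mul, ls]

lemma DD_apply' (α β : ι → ℂ) (M : Matrix ι ι Λ) (i j : ι) :
    (M * DD aa α β) i j = M i j * ls aa (α j) (β j) := by
  rw [DD, Matrix.mul_diagonal, ls]

lemma left_Op (hF : Fun) (h1 : S_C1) (h5 : S_C5) (D : Dat p f m r) (P : Phi p f m φ aa ga)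
    {z : ι → TT} {a : TT → ℂ} {α β : ι → ℂ} (h : Sym z a α β) (M : Matrix ι ι Λ) :
    (p * m a * p) * Op p f m r φ z M = Op p f m r φ z (DD aa α β * M) := by
  rw [Op_eq, Op_eq, Finset.mul_sum]
  refine Finset.sum_congr rfl fun i _ => ?_
  rw [Finset.mul_sum]
  refine Finset.sum_congr rfl fun j _ => ?_
  rw [left_pc hF h1 h5 D P h i, DD_apply]

lemma Op_right (hF : Fun) (h1 : S_C1) (h5 : S_C5) (D : Dat p f m r) (P : Phi p f m φ aa ga)
    {z : ι → TT} {a : TT → ℂ} {α β : ι → ℂ} (h : Sym z a α β) (M : Matrix ι ι Λ) :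
    Op p f m r φ z M * (p * m a * p) = Op p f m r φ z (M * DD aa α β) := by
  rw [Op_eq, Op_eq, Finset.sum_mul]
  refine Finset.sum_congr rfl fun i _ => ?_
  rw [Finset.sum_mul]
  refine Finset.sum_congr rfl fun j _ => ?_
  rw [pc_right hF h1 h5 D P h j, DD_apply']

lemma Op_Op (h1 : S_C1) (h3 : S_C3) (h4 : S_C4) (D : Dat p f m r) (P : Phi p f m φ aa ga)
    {z : ι → TT} (hz : Function.Injective z) (N M : Matrix ι ι Λ) :
    Op p f m r φ z N * Op p f m r φ z M = Op p f m r φ z (ga • (N * M)) := by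
  rw [Op_eq, Op_eq, Op_eq, Finset.sum_mul]
  refine Finset.sum_congr rfl fun i _ => ?_
  have e : ∀ l, pc p f m r φ (z i) (z l) ((ga • (N * M)) i l) =
      ∑ j, pc p f m r φ (z i) (z l) (ga * (N i j * M j l)) := by
    intro l
    rw [Matrix.smul_apply, Matrix.mul_apply, smul_eq_mul, Finset.mul_sum, pc_sum]
  simp only [e]
  rw [Finset.sum_comm (f := fun l j => pc p f m r φ (z i) (z l) (ga * (N i j * M j l))),
    Finset.sum_mul]
  refine Finset.sum_congr rfl fun j _ => ?_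
  rw [Finset.mul_sum, Finset.sum_eq_single j]
  · rw [Finset.mul_sum]
    refine Finset.sum_congr rfl fun l _ => ?_
    rw [pc_pc h1 h3 h4 D P hz, if_pos rfl]
  · intro k _ hk
    rw [Finset.mul_sum]
    refine Finset.sum_eq_zero fun l _ => ?_
    rw [pc_pc h1 h3 h4 D P hz, if_neg hk.symm]
  · intro h; exact absurd (Finset.mem_univ j) h

end

end C8L

open C8L in
theorem leaf_C8 (hF : Fun) (h1 : S_C1) (h3 : S_C3) (h4 : S_C4) (h5 : S_C5) (h7 : S_C7) : S_C8 := by
  intro Q Λ _ _ _ _ p f m r φ aa ga D P ι _ _ z hz a b α β α' β' ha hb N M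
  have e7 := h7 Q p f m r D ι z hz a b α β α' β' ha hb
  have ed : Op p f m r φ z (Matrix.diagonal fun i => (β i * β' i) • ga) =
      ∑ i, (β i * β' i) • (r (-z i) * (tG p f m * tH p f m) * r (z i)) := by
    rw [Op_diag]
    refine Finset.sum_congr rfl fun i _ => ?_
    rw [pc, map_smul, P.hg, mul_smul_comm, smul_mul_assoc, smul_mul_assoc]
    simp only [mul_assoc]
  rw [mul_add, add_mul, add_mul, e7, ← ed, left_Op hF h1 h5 D P ha, Op_right hF h1 h5 D P hb,
    Op_Op h1 h3 h4 D P hz, Op_add, Op_add, Op_add]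
  abel

end Pool.Agent.H259.PC
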