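import Pool.Agent.H259.PC.C8

set_option autoImplicit false

open MeasureTheory Set
open scoped ComplexConjugate InnerProductSpace

namespace Pool.Agent.H259.PC

open C8L in
theorem leaf_C9 (hF : Fun) (h1 : S_C1) (h3 : S_C3) (h4 : S_C4) (h5 : S_C5) : S_C9 := by
  intro Q Λ _ _ _ _ p f m r φ aa ga D P ι _ _ z hz a α β ha N i
  have e1 := H_r_m hF h1 h5 D P ha i
  have e2 : tH p f m * r (z i) * Op p f m r φ z N =
      ∑ j, φ (ga * N i j) * (tH p f m * r (z j)) := by
    rw [Op_eq, Finset.mul_sum, Finset.sum_eq_single i]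
    · rw [Finset.mul_sum]
      refine Finset.sum_congr rfl fun j _ => ?_
      have e := H_mid h1 h3 h4 D P hz i i (N i j)
      rw [if_pos rfl] at e
      calc tH p f m * r (z i) * pc p f m r φ (z i) (z j) (N i j)
          = (tH p f m * r (z i) * r (-z i) * φ (N i j) * tH p f m) * r (z j) := by
            simp only [pc, mul_assoc]
        _ = _ := by rw [e]; simp only [mul_assoc]
    · intro k _ hk
      rw [Finset.mul_sum]
      refine Finset.sum_eq_zero fun j _ => ?_
      have e := H_mid h1 h3 h4 D P hz i k (N k j)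
      rw [if_neg hk.symm] at e
      calc tH p f m * r (z i) * pc p f m r φ (z k) (z j) (N k j)
          = (tH p f m * r (z i) * r (-z k) * φ (N k j) * tH p f m) * r (z j) := by
            simp only [pc, mul_assoc]
        _ = _ := by rw [e, zero_mul]
    · intro h; exact absurd (Finset.mem_univ i) h
  have e3 : φ (ls aa (α i) (β i)) * (tH p f m * r (z i)) =
      ∑ j, φ ((DD aa α β) i j) * (tH p f m * r (z j)) := by
    rw [Finset.sum_eq_single i]
    · rw [DD, Matrix.diagonal_apply_eq, ls]
    · intro j _ hj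
      rw [DD, Matrix.diagonal_apply_ne _ hj.symm, map_zero, zero_mul]
    · intro h; exact absurd (Finset.mem_univ i) h
  rw [mul_add, e1, e2, e3, ← Finset.sum_add_distrib]
  refine Finset.sum_congr rfl fun j _ => ?_
  rw [← add_mul, ← map_add, Matrix.add_apply, Matrix.smul_apply, smul_eq_mul]

open C8L in
theorem leaf_C10 (hF : Fun) (h1 : S_C1) (h5 : S_C5) : S_C10 := by
  intro Q Λ _ _ _ _ p f m r φ aa ga D P ι _ _ z hz a α β ha N u hu hz0
  obtain ⟨-, -, -, -, -, -, fMB, fPL⟩ := hF.f1
  have hMBa : MB a := MB_sym hF ha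
  have hMBu : MB u := fMB u hu
  -- first part
  have hLi : Li fun x => u x * a x := by
    apply fPL
    apply hF.f2 ∅ (range z) a u
    · rw [empty_union]; exact ha.pl
    · exact ha.bo
    · exact hu
    · rintro x ⟨i, rfl⟩; exact hz0 i
  have hua : m (fun x => u x * a x) = m u * m a := D.mmul _ _ hMBu hMBa
  have hau : m (fun x => u x * a x) = m a * m u := by
    rw [← D.mmul _ _ hMBa hMBu]
    congr 1; funext x; ring
  have hcu := D.mp u hu
  have hcua := D.mp _ hLi
  have e1 : m u * (p * m a * p) = m a * (m u * p) := by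
    calc m u * (p * m a * p) = (m u * p) * m a * p := by simp only [mul_assoc]
      _ = p * (m u * m a) * p := by rw [hcu]; simp only [mul_assoc]
      _ = (m (fun x => u x * a x) * p) * p := by rw [← hua, hcua]
      _ = m (fun x => u x * a x) * p := by rw [mul_assoc, D.pp]
      _ = _ := by rw [hau, mul_assoc]
  -- second part
  obtain ⟨K, hK⟩ := id hu
  have e2 : ∀ i, m (fun x => u (x + z i)) * tH p f m = 0 := by
    intro i
    have hLs : Li fun x => u (x + z i) := by
      refine ⟨K, fun x s => ?_⟩
      have := hK (x + z i) s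
      rwa [show x + z i + (s : TT) = x + (s : TT) + z i by abel] at this
    have hb : ∀ x, ‖u (x + z i)‖ ≤ K * ‖x‖ := by
      intro x
      obtain ⟨s, hs, hs'⟩ := exists_rep x
      have := hK (z i) s
      rw [hz0 i, sub_zero, hs', hs, add_comm (z i) x] at this
      exact this
    have h0 := (h5 Q p f m r D _ (fMB _ hLs) K hb).1
    calc m (fun x => u (x + z i)) * tH p f m
        = (m (fun x => u (x + z i)) * p) * tH p f m := by rw [mul_assoc, pH h1 D]
      _ = _ := by rw [D.mp _ hLs, h0]
  have e3 : m u * Op p f m r φ z N = 0 := by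
    rw [Op_eq, Finset.mul_sum]
    refine Finset.sum_eq_zero fun i _ => ?_
    rw [Finset.mul_sum]
    refine Finset.sum_eq_zero fun j _ => ?_
    calc m u * pc p f m r φ (z i) (z j) (N i j)
        = (m u * r (-z i)) * (φ (N i j) * tH p f m) * r (z j) := by simp only [pc, mul_assoc]
      _ = r (-z i) * (m (fun x => u (x + z i)) * tH p f m) * φ (N i j) * r (z j) := by
          rw [m_r D hMBu, ← H_phi h1 D P]; simp only [mul_assoc]
      _ = 0 := by rw [e2]; simp
  rw [mul_add, e1, e3, add_zero]

end Pool.Agent.H259.PC
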