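import Pool.Agent.H259.PC.Stmt2

/-!
# Curves: eigenvalues of block matrices of Laurent polynomials
-/

set_option autoImplicit false

open Set Polynomial

namespace Pool.Agent.H259.PC

open Pool.Agent.H259.RH Pool.Agent.H259.HA

namespace D3L

lemma den_ne (x : ℝ) : (1 + (x : ℂ) ^ 2) ≠ 0 := by
  have h : (1 + (x : ℂ) ^ 2) = ((1 + x ^ 2 : ℝ) : ℂ) := by push_cast; ring
  rw [h]
  exact Complex.ofReal_ne_zero.2 (by positivity)

lemma pm (x : ℝ) : (1 + Complex.I * (x : ℂ)) * (1 - Complex.I * x) = 1 + (x : ℂ) ^ 2 := by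
  linear_combination (-(x : ℂ) ^ 2) * Complex.I_sq

/-- the points of the circle -/
noncomputable def tu (s : ℂ) (hs : s * s = 1) (x : ℝ) : ℂˣ where
  val := s * (1 + Complex.I * x) ^ 2 * (1 + (x : ℂ) ^ 2)⁻¹
  inv := s * (1 - Complex.I * x) ^ 2 * (1 + (x : ℂ) ^ 2)⁻¹
  val_inv := by
    have h := den_ne x
    calc s * (1 + Complex.I * x) ^ 2 * (1 + (x : ℂ) ^ 2)⁻¹ *
        (s * (1 - Complex.I * x) ^ 2 * (1 + (x : ℂ) ^ 2)⁻¹) =
        (s * s) * ((1 + Complex.I * (x : ℂ)) * (1 - Complex.I * x)) ^ 2 *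
          ((1 + (x : ℂ) ^ 2)⁻¹) ^ 2 := by ring
      _ = 1 := by
        rw [hs, pm, one_mul, ← mul_pow, mul_inv_cancel₀ h, one_pow]
  inv_val := by
    have h := den_ne x
    calc s * (1 - Complex.I * x) ^ 2 * (1 + (x : ℂ) ^ 2)⁻¹ *
        (s * (1 + Complex.I * x) ^ 2 * (1 + (x : ℂ) ^ 2)⁻¹) =
        (s * s) * ((1 + Complex.I * (x : ℂ)) * (1 - Complex.I * x)) ^ 2 *
          ((1 + (x : ℂ) ^ 2)⁻¹) ^ 2 := by ring
      _ = 1 := by
        rw [hs, pm, one_mul, ← mul_pow, mul_inv_cancel₀ h, one_pow]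

lemma rat (s : ℂ) (hs : s * s = 1) (f : LP) : ∃ (n : ℕ) (p : ℂ[X]), ∀ x : ℝ,
    evL (tu s hs x) f = p.eval (x : ℂ) * ((1 + (x : ℂ) ^ 2)⁻¹) ^ n := by
  induction f using LaurentPolynomial.induction_on' with
  | add f g hf hg =>
    obtain ⟨n, P, hP⟩ := hf
    obtain ⟨m, Q, hQ⟩ := hg
    refine ⟨n + m, P * (1 + X ^ 2) ^ m + Q * (1 + X ^ 2) ^ n, fun x => ?_⟩
    rw [map_add, hP, hQ]
    simp only [eval_add, eval_mul, eval_pow, eval_one, eval_X]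
    have h := den_ne x
    have h1 : (1 + (x : ℂ) ^ 2) ^ m * ((1 + (x : ℂ) ^ 2)⁻¹) ^ m = 1 := by
      rw [← mul_pow, mul_inv_cancel₀ h, one_pow]
    have h2 : (1 + (x : ℂ) ^ 2) ^ n * ((1 + (x : ℂ) ^ 2)⁻¹) ^ n = 1 := by
      rw [← mul_pow, mul_inv_cancel₀ h, one_pow]
    rw [pow_add]
    linear_combination (-P.eval (x : ℂ) * ((1 + (x : ℂ) ^ 2)⁻¹) ^ n) * h1 -
      (Q.eval (x : ℂ) * ((1 + (x : ℂ) ^ 2)⁻¹) ^ m) * h2
  | C_mul_T n a =>
    rcases n with k | k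
    · refine ⟨k, C a * (C s * (1 + C Complex.I * X) ^ 2) ^ k, fun x => ?_⟩
      rw [evL_smulT, Int.ofNat_eq_natCast, zpow_natCast, Units.val_pow_eq_pow_val]
      simp only [eval_add, eval_mul, eval_pow, eval_one, eval_X, eval_C, smul_eq_mul]
      rw [mul_assoc, ← mul_pow]
      rfl
    · refine ⟨k + 1, C a * (C s * (1 - C Complex.I * X) ^ 2) ^ (k + 1), fun x => ?_⟩
      rw [evL_smulT, zpow_negSucc, ← inv_pow, Units.val_pow_eq_pow_val]
      simp only [eval_sub, eval_mul, eval_pow, eval_one, eval_X, eval_C, smul_eq_mul]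
      rw [mul_assoc, ← mul_pow]
      rfl

lemma inv_bv (s : Set ℝ) : LocallyBoundedVariationOn (fun x : ℝ => (1 + (x : ℂ) ^ 2)⁻¹) s := by
  have h : LipschitzWith 1 (fun x : ℝ => (1 + x ^ 2)⁻¹) := by
    refine LipschitzWith.of_dist_le_mul fun x y => ?_
    rw [Real.dist_eq, Real.dist_eq, NNReal.coe_one, one_mul]
    have hx : (0 : ℝ) < 1 + x ^ 2 := by positivity
    have hy : (0 : ℝ) < 1 + y ^ 2 := by positivity
    have e : (1 + x ^ 2)⁻¹ - (1 + y ^ 2)⁻¹ = (y - x) * (y + x) / ((1 + x ^ 2) * (1 + y ^ 2)) := by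
      field_simp
      ring
    rw [e, abs_div, abs_mul, abs_of_pos (mul_pos hx hy), div_le_iff₀ (mul_pos hx hy),
      abs_sub_comm y x]
    apply mul_le_mul_of_nonneg_left _ (abs_nonneg _)
    have h1 : |y + x| ≤ |y| + |x| := abs_add_le _ _
    have h2 : |x| ^ 2 = x ^ 2 := sq_abs x
    have h3 : |y| ^ 2 = y ^ 2 := sq_abs y
    nlinarith [sq_nonneg (|x| - 1), sq_nonneg (|y| - 1), mul_nonneg (sq_nonneg x) (sq_nonneg y)]
  have h1 := bv_real (h.locallyBoundedVariationOn s)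
  have e : (fun x : ℝ => (((1 + x ^ 2)⁻¹ : ℝ) : ℂ)) = fun x : ℝ => (1 + (x : ℂ) ^ 2)⁻¹ := by
    funext x
    push_cast
    rfl
  rwa [e] at h1

lemma bv_pow {f : ℝ → ℂ} {s : Set ℝ} (hf : LocallyBoundedVariationOn f s) (n : ℕ) :
    LocallyBoundedVariationOn (fun x => f x ^ n) s := by
  induction n with
  | zero =>
    simp only [pow_zero]
    exact bv_const 1 s
  | succ n ih =>
    simp only [pow_succ]
    exact bv_mul ih hf

lemma evL_bv (s : ℂ) (hs : s * s = 1) (f : LP) (S : Set ℝ) :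
    LocallyBoundedVariationOn (fun x : ℝ => evL (tu s hs x) f) S := by
  obtain ⟨n, p, h⟩ := rat s hs f
  simp only [h]
  exact bv_mul (poly_bv p S).1 (bv_pow (inv_bv S) n)

lemma root_bv (s : ℂ) (hs : s * s = 1) (f : LP) (S : Set ℝ) : ∃ y : ℝ → ℂ,
    LocallyBoundedVariationOn y S ∧ ∀ x : ℝ, y x ^ 2 = evL (tu s hs x) f := by
  obtain ⟨n, p, h⟩ := rat s hs f
  obtain ⟨y, hy, hy2⟩ := (poly_bv (p * (1 + X ^ 2) ^ n) S).2
  refine ⟨fun x => y x * ((1 + (x : ℂ) ^ 2)⁻¹) ^ n, bv_mul hy (bv_pow (inv_bv S) n), fun x => ?_⟩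
  rw [mul_pow, hy2, h]
  simp only [eval_add, eval_mul, eval_pow, eval_one, eval_X]
  have h1 : (1 + (x : ℂ) ^ 2) ^ n * ((1 + (x : ℂ) ^ 2)⁻¹) ^ n = 1 := by
    rw [← mul_pow, mul_inv_cancel₀ (den_ne x), one_pow]
  linear_combination (p.eval (x : ℂ) * ((1 + (x : ℂ) ^ 2)⁻¹) ^ n) * h1

lemma quadL (s : ℂ) (hs : s * s = 1) (τ δ : LP) : LoopSet {r : ℂ | ∃ x : ℝ, |x| ≤ 1 ∧
    r ^ 2 - evL (tu s hs x) τ * r + evL (tu s hs x) δ = 0} := by
  have hRR : (-1 : ℝ) ≤ 1 := by norm_num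
  obtain ⟨y, hy, hy2⟩ := root_bv s hs (LaurentPolynomial.C (1 / 4) * τ ^ 2 - δ) (Icc (-1) 1)
  have ht := evL_bv s hs τ (Icc (-1) 1)
  have h1 := bv_add (bv_mul (bv_const (1 / 2) _) ht) hy
  have h2 := bv_add (bv_mul (bv_const (1 / 2) _) ht) (bv_mul (bv_const (-1) _) hy)
  obtain ⟨γ, L, e1, e2, e3, e4⟩ := (bv_loop hRR h1).union (bv_loop hRR h2)
  refine ⟨γ, L, e1, e2, e3, fun r hr => e4 ?_⟩
  obtain ⟨x, hx, hr⟩ := hr
  have hxm : x ∈ Icc (-1 : ℝ) 1 := abs_le.1 hx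
  have h3 : (r - 1 / 2 * evL (tu s hs x) τ) ^ 2 = y x ^ 2 := by
    rw [hy2, map_sub, map_mul, evL_C, map_pow, Algebra.algebraMap_self, RingHom.id_apply]
    linear_combination hr
  rcases sq_eq_sq_iff_eq_or_eq_neg.1 h3 with h4 | h4
  · left
    refine ⟨x, hxm, ?_⟩
    simp only
    linear_combination -h4
  · right
    refine ⟨x, hxm, ?_⟩
    simp only
    linear_combination -h4

lemma param {w : ℂ} (hw : ‖w‖ = 1) (h0 : 0 ≤ w.re) : ∃ x : ℝ, |x| ≤ 1 ∧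
    w = (1 + Complex.I * x) ^ 2 * (1 + (x : ℂ) ^ 2)⁻¹ := by
  have h1 : w.re ^ 2 + w.im ^ 2 = 1 := by
    have h2 := Complex.sq_norm w
    rw [hw, Complex.normSq_apply] at h2
    linarith
  have hc : 0 < 1 + w.re := by linarith
  set x : ℝ := w.im / (1 + w.re) with hx
  have hxc : x * (1 + w.re) = w.im := by
    rw [hx]
    field_simp
  refine ⟨x, ?_, ?_⟩
  · rw [hx, abs_div, abs_of_pos hc, div_le_one hc]
    have h3 : |w.im| ≤ 1 := by
      rw [abs_le]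
      constructor <;> nlinarith
    linarith
  · rw [eq_mul_inv_iff_mul_eq₀ (den_ne x)]
    have hre : w.re * (1 + x ^ 2) = 1 - x ^ 2 := by
      have h3 : (1 + w.re) ^ 2 * (w.re * (1 + x ^ 2)) = (1 + w.re) ^ 2 * (1 - x ^ 2) := by
        linear_combination (w.re + 1) * (x * (1 + w.re) + w.im) * hxc + (w.re + 1) * h1
      exact mul_left_cancel₀ (by positivity) h3
    have him : w.im * (1 + x ^ 2) = 2 * x := by
      have h3 : (1 + w.re) ^ 2 * (w.im * (1 + x ^ 2)) = (1 + w.re) ^ 2 * (2 * x) := by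
        linear_combination (w.im * (x * (1 + w.re) + w.im) - 2 * (1 + w.re)) * hxc +
          w.im * h1
      exact mul_left_cancel₀ (by positivity) h3
    have hww : w = (w.re : ℂ) + (w.im : ℂ) * Complex.I := (Complex.re_add_im w).symm
    have hre' : (w.re : ℂ) * (1 + (x : ℂ) ^ 2) = 1 - (x : ℂ) ^ 2 := by exact_mod_cast hre
    have him' : (w.im : ℂ) * (1 + (x : ℂ) ^ 2) = 2 * (x : ℂ) := by exact_mod_cast him
    calc w * (1 + (x : ℂ) ^ 2) = ((w.re : ℂ) + (w.im : ℂ) * Complex.I) * (1 + (x : ℂ) ^ 2) := by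
          rw [← hww]
      _ = (1 + Complex.I * x) ^ 2 := by
          linear_combination hre' + Complex.I * him' - (x : ℂ) ^ 2 * Complex.I_sq

/-- the sign -/
noncomputable def sg (b : Bool) : ℂ := if b then 1 else -1

lemma sg_sq (b : Bool) : sg b * sg b = 1 := by
  cases b <;> simp [sg]

lemma exists_tu (t : ℂˣ) (ht : ‖(t : ℂ)‖ = 1) : ∃ (b : Bool) (x : ℝ), |x| ≤ 1 ∧
    t = tu (sg b) (sg_sq b) x := by
  rcases le_total 0 (t : ℂ).re with h | h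
  · obtain ⟨x, hx, he⟩ := param ht h
    refine ⟨true, x, hx, Units.ext ?_⟩
    rw [he]
    change _ = (1 : ℂ) * (1 + Complex.I * x) ^ 2 * (1 + (x : ℂ) ^ 2)⁻¹
    rw [one_mul]
  · obtain ⟨x, hx, he⟩ := param (w := -(t : ℂ)) (by rw [norm_neg]; exact ht)
      (by rw [Complex.neg_re]; linarith)
    refine ⟨false, x, hx, Units.ext ?_⟩
    rw [← neg_neg (t : ℂ), he]
    change _ = (-1 : ℂ) * (1 + Complex.I * x) ^ 2 * (1 + (x : ℂ) ^ 2)⁻¹
    ring

end D3L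

open D3L in
theorem leaf_D3 : S_D3 := by
  intro ι _ _ σ hσ F hF
  set T : ι → LP := fun l => if σ l = l then 2 * F l l else F l l + F (σ l) (σ l) with hT
  set Δ : ι → LP := fun l => if σ l = l then (F l l) ^ 2 else
    F l l * F (σ l) (σ l) - F l (σ l) * F (σ l) l with hΔ
  obtain ⟨γ, L, e1, e2, e3, e4⟩ := loop_union (Finset.univ : Finset (ι × Bool))
    (fun i => {r : ℂ | ∃ x : ℝ, |x| ≤ 1 ∧
      r ^ 2 - evL (tu (sg i.2) (sg_sq i.2) x) (T i.1) * r +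
        evL (tu (sg i.2) (sg_sq i.2) x) (Δ i.1) = 0}) (fun i _ => quadL _ _ _ _)
  refine ⟨γ, L, e1, e2, e3, fun r hr => e4 ?_⟩
  obtain ⟨t, ht, hr⟩ := hr
  obtain ⟨b, x, hx, hb⟩ := exists_tu t ht
  have hGb : ∀ l m, m ≠ l → m ≠ σ l → (F.map (evL t)) l m = 0 := by
    intro l m h3 h4
    rw [Matrix.map_apply, hF l m h3 h4, map_zero]
  obtain ⟨l, h⟩ := blk_root hσ hGb hr
  refine Set.mem_biUnion (Finset.mem_coe.2 (Finset.mem_univ (l, b))) ⟨x, hx, ?_⟩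
  simp only
  rw [← hb]
  rcases h with ⟨hl, h3⟩ | ⟨hl, h3⟩
  · rw [Matrix.map_apply] at h3
    simp only [hT, hΔ, if_pos hl, map_mul, map_ofNat, map_pow]
    rw [h3]
    ring
  · simp only [Matrix.map_apply] at h3
    simp only [hT, hΔ, if_neg hl, map_add, map_sub, map_mul]
    linear_combination h3

end Pool.Agent.H259.PC
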