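import Pool.Agent.H259.PC.Stmt

set_option autoImplicit false

open MeasureTheory Set
open scoped ComplexConjugate InnerProductSpace

namespace Pool.Agent.H259.PC

namespace F1L

/-- every point has a real representative of the same size -/
theorem rep (x : TT) : ∃ s : ℝ, (s : TT) = x ∧ |s| = ‖x‖ ∧ |s| ≤ 1 / 2 := by
  obtain ⟨y, rfl⟩ := QuotientAddGroup.mk_surjective x
  have h1 : ((y - round y : ℝ) : TT) = (y : TT) := by
    have h2 : ((round y : ℝ) : TT) = 0 := by
      rw [AddCircle.coe_eq_zero_iff]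
      exact ⟨round y, by simp⟩
    rw [AddCircle.coe_sub, h2, sub_zero]
  exact ⟨y - round y, h1, (UnitAddCircle.norm_eq (x := y)).symm, abs_sub_round y⟩

theorem li_le {a : TT → ℂ} {K : ℝ} (h : ∀ (x : TT) (s : ℝ), ‖a (x + (s : TT)) - a x‖ ≤ K * |s|)
    (x y : TT) : ‖a y - a x‖ ≤ K * ‖y - x‖ := by
  obtain ⟨s, hs, hs1, -⟩ := rep (y - x)
  have h1 := h x s
  rw [hs, add_sub_cancel, hs1] at h1
  exact h1

theorem li_nonneg {a : TT → ℂ} {K : ℝ}
    (h : ∀ (x : TT) (s : ℝ), ‖a (x + (s : TT)) - a x‖ ≤ K * |s|) : 0 ≤ K := by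
  have h1 := h 0 1
  rw [abs_one, mul_one] at h1
  exact (norm_nonneg _).trans h1

theorem li_bo {a : TT → ℂ} (h : Li a) : Bo a := by
  obtain ⟨K, hK⟩ := h
  refine ⟨‖a 0‖ + K, fun x => ?_⟩
  obtain ⟨s, hs, -, hs2⟩ := rep x
  have h1 := hK 0 s
  rw [zero_add, hs] at h1
  have h2 := li_nonneg hK
  have h3 : K * |s| ≤ K := by nlinarith
  have h4 : ‖a x‖ ≤ ‖a x - a 0‖ + ‖a 0‖ := by
    have h5 := norm_add_le (a x - a 0) (a 0)
    rw [sub_add_cancel] at h5
    exact h5
  linarith

theorem li_cont {a : TT → ℂ} (h : Li a) : Continuous a := by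
  obtain ⟨K, hK⟩ := h
  have h0 := li_nonneg hK
  have h1 : LipschitzWith ⟨K, h0⟩ a := by
    apply LipschitzWith.of_dist_le_mul
    intro x y
    rw [dist_eq_norm, dist_eq_norm]
    exact li_le hK y x
  exact h1.continuous

end F1L

theorem leaf_F1 : S_F1 := by
  refine ⟨fun c => ⟨0, fun x s => by simp⟩, fun n => ?_, ?_, ?_, ?_, ?_, ?_, ?_⟩
  · refine ⟨2 * Real.pi * |(n : ℝ)|, fun x s => ?_⟩
    have h1 : (fourier n (x + (s : TT)) : ℂ) = fourier n x * fourier n (s : TT) := by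
      rw [fourier_apply, fourier_apply, fourier_apply, smul_add, AddCircle.toCircle_add,
        Circle.coe_mul]
    have h2 : ‖(fourier n (s : TT) : ℂ) - 1‖ ≤ 2 * Real.pi * |(n : ℝ)| * |s| := by
      have h3 : (fourier n (s : TT) : ℂ) =
          Complex.exp (Complex.I * ((2 * Real.pi * n * s : ℝ) : ℂ)) := by
        rw [fourier_coe_apply]
        congr 1
        push_cast
        ring
      rw [h3]
      refine Real.norm_exp_I_mul_ofReal_sub_one_le.trans (le_of_eq ?_)
      rw [Real.norm_eq_abs, abs_mul, abs_mul, abs_mul, abs_two, abs_of_pos Real.pi_pos]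
    have h4 : (fourier n (x + (s : TT)) : ℂ) - fourier n x =
        fourier n x * (fourier n (s : TT) - 1) := by
      rw [h1]
      ring
    rw [h4, norm_mul]
    have h5 : ‖(fourier n x : ℂ)‖ = 1 := by
      rw [fourier_apply]
      exact Circle.norm_coe _
    rw [h5, one_mul]
    exact h2
  · rintro a b ⟨K, hK⟩ ⟨L, hL⟩
    refine ⟨K + L, fun x s => ?_⟩
    have h1 : a (x + (s : TT)) + b (x + (s : TT)) - (a x + b x) =
        (a (x + (s : TT)) - a x) + (b (x + (s : TT)) - b x) := by ring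
    rw [h1, add_mul]
    exact (norm_add_le _ _).trans (add_le_add (hK x s) (hL x s))
  · rintro a b ha hb
    obtain ⟨M, hM⟩ := F1L.li_bo ha
    obtain ⟨M', hM'⟩ := F1L.li_bo hb
    obtain ⟨K, hK⟩ := ha
    obtain ⟨L, hL⟩ := hb
    have hM0 : 0 ≤ M := (norm_nonneg _).trans (hM 0)
    have hM0' : 0 ≤ M' := (norm_nonneg _).trans (hM' 0)
    refine ⟨M * L + M' * K, fun x s => ?_⟩
    have h1 : a (x + (s : TT)) * b (x + (s : TT)) - a x * b x =
        a (x + (s : TT)) * (b (x + (s : TT)) - b x) + b x * (a (x + (s : TT)) - a x) := by ring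
    rw [h1]
    refine (norm_add_le _ _).trans ?_
    rw [norm_mul, norm_mul, add_mul, mul_assoc, mul_assoc]
    exact add_le_add (mul_le_mul (hM _) (hL x s) (norm_nonneg _) hM0)
      (mul_le_mul (hM' _) (hK x s) (norm_nonneg _) hM0')
  · rintro a ⟨K, hK⟩
    refine ⟨K, fun x s => ?_⟩
    have h1 : -(x + (s : TT)) = -x + ((-s : ℝ) : TT) := by
      rw [neg_add, AddCircle.coe_neg]
    show ‖a (-(x + (s : TT))) - a (-x)‖ ≤ K * |s|
    rw [h1, ← abs_neg s]
    exact hK (-x) (-s)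
  · rintro a t ⟨K, hK⟩
    refine ⟨K, fun x s => ?_⟩
    show ‖a (x + (s : TT) + t) - a (x + t)‖ ≤ K * |s|
    rw [add_right_comm]
    exact hK (x + t) s
  · intro a ha
    exact ⟨F1L.li_bo ha, (F1L.li_cont ha).aestronglyMeasurable⟩
  · rintro a ⟨L, hL⟩
    refine ⟨L, fun x s => ?_⟩
    obtain ⟨r, rfl⟩ := QuotientAddGroup.mk_surjective x
    show ‖a ((r : TT) + (s : TT)) - a (r : TT)‖ ≤ L * |s|
    rw [← AddCircle.coe_add]
    rcases le_total 0 s with h | h
    · have h1 := hL r (r + s) (by linarith) (fun z _ => notMem_empty _)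
      rw [norm_sub_rev, add_sub_cancel_left] at h1
      rw [abs_of_nonneg h]
      exact h1
    · have h1 := hL (r + s) r (by linarith) (fun z _ => notMem_empty _)
      rw [abs_of_nonpos h]
      have h2 : r - (r + s) = -s := by ring
      rw [h2] at h1
      exact h1

end Pool.Agent.H259.PC
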