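import Pool.Agent.H259.PC.Stmt

set_option autoImplicit false

open MeasureTheory Set
open scoped ComplexConjugate InnerProductSpace

namespace Pool.Agent.H259.PC

namespace F10L

theorem li_lip {c : TT → ℂ} (h : Li c) : ∃ L : NNReal, LipschitzWith L (fun t : ℝ => c (t : TT)) := by
  obtain ⟨K, hK⟩ := h
  refine ⟨K.toNNReal, LipschitzWith.of_dist_le_mul fun s t => ?_⟩
  rw [dist_eq_norm, Real.dist_eq]
  have h1 := hK (t : TT) (s - t)
  have e : ((t : ℝ) : TT) + ((s - t : ℝ) : TT) = ((s : ℝ) : TT) := by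
    rw [← AddCircle.coe_add]
    congr 1
    ring
  rw [e] at h1
  refine h1.trans (mul_le_mul_of_nonneg_right ?_ (abs_nonneg _))
  exact Real.le_coe_toNNReal K

theorem exists_rep (x : TT) : ∃ t ∈ Icc (0 : ℝ) 1, (t : TT) = x := by
  obtain ⟨r, rfl⟩ := QuotientAddGroup.mk_surjective x
  refine ⟨Int.fract r, ⟨Int.fract_nonneg r, (Int.fract_lt_one r).le⟩, ?_⟩
  have h1 : (((⌊r⌋ : ℤ) : ℝ) : TT) = 0 := by
    rw [AddCircle.coe_eq_zero_iff]
    exact ⟨⌊r⌋, by simp⟩
  have h2 : Int.fract r = r - ⌊r⌋ := rfl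
  rw [h2, AddCircle.coe_sub, h1, sub_zero]

theorem li_sum (h1 : S_F1) {ι : Type} (S : Finset ι) (f : ι → TT → ℂ) (hf : ∀ i, Li (f i)) :
    Li fun x => ∑ i ∈ S, f i x := by
  classical
  induction S using Finset.induction_on with
  | empty =>
    have := h1.1 0
    simpa using this
  | insert i S hi ih =>
    have := h1.2.2.1 _ _ (hf i) ih
    simpa [Finset.sum_insert hi] using this

end F10L

open F10L in
theorem leaf_F10 (h1 : S_F1) (h4 : S_F4) (h7 : S_F7) : S_F10 := by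
  intro ι _ _ z hz a α β hS
  have hc₀ := h7 ι z hz a α β hS
  have hww : Li ww := h4.2.2.2.2.2.1
  have hli : ∀ i, Li fun x => β i * ww (x - z i) := by
    intro i
    have hs := h1.2.2.2.2.2.1 ww (-z i) hww
    have hm := h1.2.2.2.1 _ _ (h1.1 (β i)) hs
    simpa [sub_eq_add_neg] using hm
  have hcS : ∀ S : Finset ι, Li fun x => (a x - ∑ i, β i * kap (x - z i)) + ∑ i ∈ S, β i * ww (x - z i) :=
    fun S => h1.2.2.1 _ _ hc₀ (li_sum h1 S _ hli)
  refine ⟨Finset ι, inferInstance, fun S t =>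
    (a (t : TT) - ∑ i, β i * kap ((t : TT) - z i)) + ∑ i ∈ S, β i * ww ((t : TT) - z i),
    fun S => li_lip (hcS S), fun x => ?_⟩
  obtain ⟨t, ht, rfl⟩ := exists_rep x
  classical
  refine ⟨Finset.univ.filter fun i => 0 < (fourier 1 ((t : TT) - z i) : ℂ).im, t, ht, ?_⟩
  have e : ∑ i, β i * kap ((t : TT) - z i) =
      ∑ i ∈ Finset.univ.filter (fun i => 0 < (fourier 1 ((t : TT) - z i) : ℂ).im), β i * ww ((t : TT) - z i) := by
    rw [Finset.sum_filter]
    refine Finset.sum_congr rfl fun i _ => ?_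
    unfold kap chi
    split_ifs <;> ring
  simp only
  rw [e]
  ring

end Pool.Agent.H259.PC
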