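import Pool.Agent.H259.PC.Stmt

/-!
# Leaf F11: division by `1 - fourier 2`
-/

set_option autoImplicit false

open MeasureTheory Set
open scoped ComplexConjugate InnerProductSpace

namespace Pool.Agent.H259.PC

namespace F11L

theorem exists_rep (x : TT) : ∃ s : ℝ, (s : TT) = x ∧ ‖x‖ = |s| ∧ |s| ≤ 1 / 2 := by
  obtain ⟨y, rfl⟩ := QuotientAddGroup.mk_surjective x
  refine ⟨y - round y, ?_, ?_, abs_sub_round y⟩
  · have h : (((round y : ℤ) : ℝ) : TT) = 0 := by
      rw [AddCircle.coe_eq_zero_iff]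
      exact ⟨round y, by simp⟩
    rw [AddCircle.coe_sub, h, sub_zero]
  · have h := AddCircle.norm_eq (1 : ℝ) (x := y)
    rw [inv_one, one_mul, mul_one] at h
    exact h

theorem fourier_bound (x : TT) : 4 * ‖x‖ ≤ ‖1 - (fourier 1 x : ℂ)‖ := by
  obtain ⟨s, rfl, h1, h2⟩ := exists_rep x
  rw [h1]
  have e1 : (fourier 1 (s : TT) : ℂ) = Complex.exp (Complex.I * ((2 * Real.pi * s : ℝ) : ℂ)) := by
    rw [fourier_coe_apply]
    congr 1
    push_cast
    ring
  rw [norm_sub_rev, e1, Complex.norm_exp_I_mul_ofReal_sub_one]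
  have e2 : 2 * Real.pi * s / 2 = Real.pi * s := by ring
  rw [e2, norm_mul, Real.norm_eq_abs, Real.norm_eq_abs, abs_of_pos (by norm_num : (0 : ℝ) < 2)]
  have hpi := Real.pi_pos
  have e3 : |Real.pi * s| ≤ Real.pi / 2 := by
    rw [abs_mul, abs_of_pos hpi]
    calc Real.pi * |s| ≤ Real.pi * (1 / 2) := mul_le_mul_of_nonneg_left h2 hpi.le
      _ = Real.pi / 2 := by ring
  have e4 := Real.mul_abs_le_abs_sin e3
  have e5 : 2 / Real.pi * |Real.pi * s| = 2 * |s| := by
    rw [abs_mul, abs_of_pos hpi]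
    field_simp
  rw [e5] at e4
  linarith

/-- the multiplier -/
noncomputable def mm (x : TT) : ℂ := (1 + fourier (-1) x) / (4 * (1 - fourier 1 x))

theorem mm_meas : Measurable mm := by
  unfold mm
  refine Measurable.div ?_ ?_
  · exact (continuous_const.add (fourier (-1)).continuous).measurable
  · exact (continuous_const.mul (continuous_const.sub (fourier 1).continuous)).measurable

theorem f1_mul (x : TT) : (fourier 1 x : ℂ) * fourier (-1) x = 1 := by
  rw [← fourier_add]
  norm_num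

theorem f2_eq (x : TT) : (fourier 2 x : ℂ) = fourier 1 x * fourier 1 x := by
  rw [← fourier_add]
  norm_num

theorem norm_f (n : ℤ) (x : TT) : ‖(fourier n x : ℂ)‖ = 1 := by
  rw [fourier_apply]
  exact Circle.norm_coe _

end F11L

open F11L in
theorem leaf_F11 : S_F11 := by
  intro c hc C hC
  have h0 : c 0 = 0 := by
    have := hC 0
    rw [norm_zero, mul_zero] at this
    exact norm_le_zero_iff.1 this
  have hne : ∀ x : TT, x ≠ 0 → 0 < ‖1 - (fourier 1 x : ℂ)‖ := by
    intro x hx
    have h1 := fourier_bound x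
    have h2 : 0 < ‖x‖ := norm_pos_iff.2 hx
    linarith
  refine ⟨fun x => c x * mm x, ⟨⟨|C| / 8, ?_⟩, hc.me.mul mm_meas.aestronglyMeasurable⟩, ?_⟩
  · intro x
    by_cases hx : x = 0
    · subst hx
      show ‖c 0 * mm 0‖ ≤ |C| / 8
      rw [h0, zero_mul, norm_zero]
      positivity
    · have hp := hne x hx
      have h1 : ‖c x‖ ≤ |C| * (‖1 - (fourier 1 x : ℂ)‖ / 4) := by
        calc ‖c x‖ ≤ C * ‖x‖ := hC x
          _ ≤ |C| * ‖x‖ := mul_le_mul_of_nonneg_right (le_abs_self C) (norm_nonneg x)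
          _ ≤ |C| * (‖1 - (fourier 1 x : ℂ)‖ / 4) := by
            refine mul_le_mul_of_nonneg_left ?_ (abs_nonneg C)
            have := fourier_bound x
            linarith
      have h2 : ‖mm x‖ ≤ 2 / (4 * ‖1 - (fourier 1 x : ℂ)‖) := by
        unfold mm
        rw [norm_div, norm_mul]
        have h4 : ‖(4 : ℂ)‖ = 4 := by norm_num
        rw [h4]
        refine div_le_div_of_nonneg_right ?_ (by positivity)
        calc ‖(1 : ℂ) + fourier (-1) x‖ ≤ ‖(1 : ℂ)‖ + ‖(fourier (-1) x : ℂ)‖ := norm_add_le _ _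
          _ = 2 := by rw [norm_f, norm_one]; norm_num
      calc ‖c x * mm x‖ = ‖c x‖ * ‖mm x‖ := norm_mul _ _
        _ ≤ (|C| * (‖1 - (fourier 1 x : ℂ)‖ / 4)) * (2 / (4 * ‖1 - (fourier 1 x : ℂ)‖)) :=
          mul_le_mul h1 h2 (norm_nonneg _) (by positivity)
        _ = |C| / 8 := by
          field_simp
          ring
  · intro x
    by_cases hx : x = 0
    · subst hx
      simp only [h0, zero_mul]
    · have hp := hne x hx
      have hz : (1 - (fourier 1 x : ℂ)) ≠ 0 := norm_pos_iff.1 hp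
      have hm := f1_mul x
      simp only [mm, ww]
      rw [f2_eq]
      field_simp
      linear_combination (c x * fourier 1 x - c x) * hm

end Pool.Agent.H259.PC
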