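import Pool.Agent.H259.PC.Stmt

/-!
# Two lemmas about piecewise Lipschitz functions
-/

set_option autoImplicit false

open MeasureTheory Set
open scoped ComplexConjugate InnerProductSpace

namespace Pool.Agent.H259.PC

namespace F23L

lemma coe_norm_le (t : ℝ) : ‖(t : TT)‖ ≤ |t| := by
  have h := AddCircle.norm_le_half_period (1 : ℝ) (x := (t : TT)) (by norm_num)
  rcases le_or_gt |t| (1 / 2) with h1 | h1
  · rw [(AddCircle.norm_coe_eq_abs_iff (1 : ℝ) (x := t) (by norm_num)).2 (by simpa using h1)]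
  · refine h.trans ?_
    rw [abs_one]
    linarith

lemma li_real {c : TT → ℂ} {K : ℝ} (hc : ∀ (x : TT) (s : ℝ), ‖c (x + (s : TT)) - c x‖ ≤ K * |s|)
    (x y : ℝ) : ‖c (x : TT) - c (y : TT)‖ ≤ |K| * |x - y| := by
  have h := hc (y : TT) (x - y)
  rw [← AddCircle.coe_add, add_sub_cancel] at h
  exact h.trans (mul_le_mul_of_nonneg_right (le_abs_self K) (abs_nonneg _))

lemma li_bo {c : TT → ℂ} (hc : Li c) : ∃ B : ℝ, 0 ≤ B ∧ ∀ x, ‖c x‖ ≤ B := by
  obtain ⟨K, hK⟩ := hc
  refine ⟨‖c ((0 : ℝ) : TT)‖ + |K| * (1 / 2), by positivity, fun x => ?_⟩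
  obtain ⟨t, rfl⟩ : ∃ t : ℝ, (t : TT) = x := QuotientAddGroup.mk_surjective x
  obtain ⟨s, hs, hst⟩ : ∃ s : ℝ, |s| ≤ 1 / 2 ∧ (s : TT) = (t : TT) := by
    refine ⟨t - round t, abs_sub_round t, ?_⟩
    rw [AddCircle.coe_sub, sub_eq_self]
    exact (AddCircle.coe_eq_zero_iff (1 : ℝ)).2 ⟨round t, by simp⟩
  rw [← hst]
  have h1 := li_real hK s 0
  rw [sub_zero] at h1
  have h2 : ‖c (s : TT)‖ ≤ ‖c (s : TT) - c ((0 : ℝ) : TT)‖ + ‖c ((0 : ℝ) : TT)‖ := by
    have e : c (s : TT) = (c (s : TT) - c ((0 : ℝ) : TT)) + c ((0 : ℝ) : TT) := by ring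
    conv_lhs => rw [e]
    exact norm_add_le _ _
  have h3 : |K| * |s| ≤ |K| * (1 / 2) := mul_le_mul_of_nonneg_left hs (abs_nonneg K)
  linarith

end F23L

open F23L

theorem leaf_F2 : S_F2 := by
  intro F G a c ha hb hc h0
  obtain ⟨L, hL⟩ := ha
  obtain ⟨M, hM⟩ := hb
  obtain ⟨B, hB0, hB⟩ := li_bo hc
  obtain ⟨K, hK⟩ := hc
  have hM0 : 0 ≤ M := (norm_nonneg _).trans (hM 0)
  refine ⟨B * |L| + |K| * M, fun x y hxy hF => ?_⟩
  have hxy0 : 0 ≤ y - x := by linarith
  have hK0 := abs_nonneg K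
  have hL0 := abs_nonneg L
  by_cases hG : ∀ z ∈ Icc x y, (z : TT) ∉ F ∪ G
  · have h1 := (hL x y hxy hG).trans (mul_le_mul_of_nonneg_right (le_abs_self L) hxy0)
    have h2 := li_real hK x y
    rw [abs_sub_comm, abs_of_nonneg hxy0] at h2
    have e : c (x : TT) * a (x : TT) - c (y : TT) * a (y : TT) =
        c (x : TT) * (a (x : TT) - a (y : TT)) + (c (x : TT) - c (y : TT)) * a (y : TT) := by ring
    show ‖c (x : TT) * a (x : TT) - c (y : TT) * a (y : TT)‖ ≤ _
    rw [e]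
    refine (norm_add_le _ _).trans ?_
    rw [norm_mul, norm_mul]
    have h3 : ‖c (x : TT)‖ * ‖a (x : TT) - a (y : TT)‖ ≤ B * (|L| * (y - x)) :=
      mul_le_mul (hB _) h1 (norm_nonneg _) hB0
    have h4 : ‖c (x : TT) - c (y : TT)‖ * ‖a (y : TT)‖ ≤ |K| * (y - x) * M :=
      mul_le_mul h2 (hM _) (norm_nonneg _) (by positivity)
    linarith
  · push Not at hG
    obtain ⟨z, hz, hz2⟩ := hG
    have hzG : (z : TT) ∈ G := hz2.resolve_left (hF z hz)
    have hcz := h0 _ hzG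
    have h1 := li_real hK x z
    have h2 := li_real hK y z
    rw [hcz, sub_zero, abs_sub_comm, abs_of_nonneg (a := z - x) (by linarith [hz.1])] at h1
    rw [hcz, sub_zero, abs_of_nonneg (a := y - z) (by linarith [hz.2])] at h2
    show ‖c (x : TT) * a (x : TT) - c (y : TT) * a (y : TT)‖ ≤ _
    refine (norm_sub_le _ _).trans ?_
    rw [norm_mul, norm_mul]
    have h3 : ‖c (x : TT)‖ * ‖a (x : TT)‖ ≤ |K| * (z - x) * M :=
      mul_le_mul h1 (hM _) (norm_nonneg _) (mul_nonneg hK0 (by linarith [hz.1]))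
    have h4 : ‖c (y : TT)‖ * ‖a (y : TT)‖ ≤ |K| * (y - z) * M :=
      mul_le_mul h2 (hM _) (norm_nonneg _) (mul_nonneg hK0 (by linarith [hz.2]))
    have h5 : 0 ≤ B * |L| * (y - x) := by positivity
    linarith

theorem leaf_F3 : S_F3 := by
  classical
  intro F b hF hb hj
  obtain ⟨L, hL⟩ := hb
  choose! α C hαC using hj
  set C' : ℝ := |L| + ∑ σ ∈ hF.toFinset, |C σ| with hC'
  have hsum0 : 0 ≤ ∑ σ ∈ hF.toFinset, |C σ| := Finset.sum_nonneg fun _ _ => abs_nonneg _
  have hL0 := abs_nonneg L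
  have hC0 : 0 ≤ C' := by linarith
  have key : ∀ x y : ℝ, x ≤ y → ‖b (x : TT) - b (y : TT)‖ ≤ C' * (y - x) := by
    intro x y hxy
    have hxy0 : 0 ≤ y - x := by linarith
    by_cases h : ∀ z ∈ Icc x y, (z : TT) ∉ F
    · refine (hL x y hxy h).trans (mul_le_mul_of_nonneg_right ?_ hxy0)
      linarith [le_abs_self L]
    · push Not at h
      obtain ⟨z, hz, hzF⟩ := h
      have hCσ : |C (z : TT)| ≤ C' := by
        have h1 := Finset.single_le_sum (f := fun σ => |C σ|) (fun _ _ => abs_nonneg _)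
          (hF.mem_toFinset.2 hzF)
        linarith
      have hone : ∀ w : ℝ, ‖b (w : TT) - α (z : TT)‖ ≤ C' * |w - z| := by
        intro w
        have h1 := hαC (z : TT) hzF ((w - z : ℝ) : TT)
        rw [← AddCircle.coe_add, sub_add_cancel] at h1
        refine h1.trans ?_
        calc C (z : TT) * ‖((w - z : ℝ) : TT)‖ ≤ |C (z : TT)| * ‖((w - z : ℝ) : TT)‖ :=
              mul_le_mul_of_nonneg_right (le_abs_self _) (norm_nonneg _)
          _ ≤ C' * |w - z| := mul_le_mul hCσ (coe_norm_le _) (norm_nonneg _) hC0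
      have h1 := hone x
      have h2 := hone y
      rw [abs_sub_comm, abs_of_nonneg (a := z - x) (by linarith [hz.1])] at h1
      rw [abs_of_nonneg (a := y - z) (by linarith [hz.2])] at h2
      have e : b (x : TT) - b (y : TT) = (b (x : TT) - α (z : TT)) - (b (y : TT) - α (z : TT)) := by
        ring
      rw [e]
      refine (norm_sub_le _ _).trans ?_
      linarith
  refine ⟨C', fun x s => ?_⟩
  obtain ⟨t, rfl⟩ : ∃ t : ℝ, (t : TT) = x := QuotientAddGroup.mk_surjective x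
  rw [← AddCircle.coe_add]
  rcases le_total 0 s with hs | hs
  · have h1 := key t (t + s) (by linarith)
    rw [add_sub_cancel_left] at h1
    rw [norm_sub_rev, abs_of_nonneg hs]
    exact h1
  · have h1 := key (t + s) t (by linarith)
    rw [abs_of_nonpos hs]
    have e : t - (t + s) = -s := by ring
    rwa [e] at h1

end Pool.Agent.H259.PC
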