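import Pool.Agent.H259.PC.Stmt

/-!
Leaf F4: the functions `chi`, `ww`, `kap` (helper588).
-/

set_option autoImplicit false

open MeasureTheory Set
open scoped ComplexConjugate InnerProductSpace

namespace Pool.Agent.H259.PC

namespace F4L

lemma four_im (t : ℝ) : (fourier 1 (t : TT) : ℂ).im = Real.sin (2 * Real.pi * t) := by
  rw [fourier_coe_apply]
  have h : 2 * (Real.pi : ℂ) * Complex.I * ((1 : ℤ) : ℂ) * (t : ℂ) / ((1 : ℝ) : ℂ) =
      ((2 * Real.pi * t : ℝ) : ℂ) * Complex.I := by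
    push_cast
    ring
  rw [h, Complex.exp_ofReal_mul_I_im]

lemma chi_coe (t : ℝ) : chi (t : TT) = if 0 < Real.sin (2 * Real.pi * t) then 1 else 0 := by
  unfold chi
  rw [four_im]

/-- the zeros of the imaginary part -/
lemma mem_of_sin (t : ℝ) (h : Real.sin (2 * Real.pi * t) = 0) :
    (t : TT) ∈ ({0, ((1 / 2 : ℝ) : TT)} : Set TT) := by
  rw [Real.sin_eq_zero_iff] at h
  obtain ⟨n, hn⟩ := h
  have h1 : t = n / 2 := by
    have hpi := Real.pi_pos.ne'
    have h2 : Real.pi * (n : ℝ) = Real.pi * (2 * t) := by linarith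
    have h3 := mul_left_cancel₀ hpi h2
    linarith
  rw [Set.mem_insert_iff, Set.mem_singleton_iff]
  rcases Int.even_or_odd n with ⟨k, hk⟩ | ⟨k, hk⟩
  · left
    rw [AddCircle.coe_eq_zero_iff]
    refine ⟨k, ?_⟩
    rw [h1, hk]
    push_cast
    rw [zsmul_eq_mul, mul_one]
    ring
  · right
    have h3 : ((t - 1 / 2 : ℝ) : TT) = 0 := by
      rw [AddCircle.coe_eq_zero_iff]
      refine ⟨k, ?_⟩
      rw [h1, hk]
      push_cast
      rw [zsmul_eq_mul, mul_one]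
      ring
    rw [AddCircle.coe_sub, sub_eq_zero] at h3
    exact h3

lemma chi_pl : PL {0, ((1 / 2 : ℝ) : TT)} chi := by
  refine ⟨0, fun x y hxy hz => ?_⟩
  have hne : ∀ z ∈ Icc x y, Real.sin (2 * Real.pi * z) ≠ 0 := fun z hzI h0 =>
    hz z hzI (mem_of_sin z h0)
  have hcont : ContinuousOn (fun z : ℝ => Real.sin (2 * Real.pi * z)) (Icc x y) := by
    fun_prop
  have key : (0 < Real.sin (2 * Real.pi * x)) ↔ (0 < Real.sin (2 * Real.pi * y)) := by
    constructor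
    · intro hx
      by_contra hy
      rw [not_lt] at hy
      obtain ⟨z, hzI, hz0⟩ := intermediate_value_Icc' hxy hcont ⟨hy, hx.le⟩
      exact hne z hzI hz0
    · intro hy
      by_contra hx
      rw [not_lt] at hx
      obtain ⟨z, hzI, hz0⟩ := intermediate_value_Icc hxy hcont ⟨hx, hy.le⟩
      exact hne z hzI hz0
  rw [chi_coe, chi_coe]
  simp only [key, sub_self, norm_zero, zero_mul, le_refl]

lemma nontriv : Nontrivial TT := by
  refine ⟨⟨((1 / 2 : ℝ) : TT), 0, ?_⟩⟩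
  intro h
  rw [AddCircle.coe_eq_zero_iff] at h
  obtain ⟨n, hn⟩ := h
  rw [zsmul_eq_mul, mul_one] at hn
  have h1 : (2 * n : ℤ) = 1 := by
    have : (2 : ℝ) * (n : ℝ) = 1 := by linarith
    exact_mod_cast this
  omega

lemma null : NullSingletonClass hm := by
  have := nontriv
  infer_instance

lemma chi_neg : ∀ᵐ x ∂hm, chi (-x) = 1 - chi x := by
  have := null
  have hfin : ({0, ((1 / 2 : ℝ) : TT)} : Set TT).Finite := Set.toFinite _
  have h0 : hm ({0, ((1 / 2 : ℝ) : TT)} : Set TT) = 0 := hfin.measure_zero hm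
  have h1 : ∀ᵐ x ∂hm, x ∉ ({0, ((1 / 2 : ℝ) : TT)} : Set TT) := measure_eq_zero_iff_ae_notMem.1 h0
  filter_upwards [h1] with x hx
  obtain ⟨t, rfl⟩ := QuotientAddGroup.mk_surjective x
  change chi (-(t : TT)) = 1 - chi (t : TT)
  have hs : Real.sin (2 * Real.pi * t) ≠ 0 := fun h => hx (mem_of_sin t h)
  rw [← AddCircle.coe_neg, chi_coe, chi_coe]
  have h2 : Real.sin (2 * Real.pi * -t) = - Real.sin (2 * Real.pi * t) := by
    rw [mul_neg, Real.sin_neg]
  rw [h2]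
  rcases lt_or_gt_of_ne hs with h | h
  · rw [if_pos (by linarith), if_neg (by linarith), sub_zero]
  · rw [if_neg (by linarith), if_pos h, sub_self]

lemma chi_sq (x : TT) : chi x * chi x = chi x := by
  unfold chi
  split_ifs <;> simp

lemma chi_le (x : TT) : ‖chi x‖ ≤ 1 := by
  unfold chi
  split_ifs <;> simp

lemma chi_zero : chi 0 = 0 := by
  have h := chi_coe 0
  rw [mul_zero, Real.sin_zero, if_neg (lt_irrefl _)] at h
  exact h

lemma ww_li (h1 : S_F1) : Li ww := by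
  obtain ⟨hc, hf, ha, hm', -, -, -, -⟩ := h1
  have e : ww = fun x => (1 / 4 : ℂ) * ((2 + (fourier 1 x : ℂ)) + (fourier (-1) x : ℂ)) := by
    funext x
    unfold ww
    ring
  rw [e]
  exact hm' _ _ (hc _) (ha _ _ (ha _ _ (hc _) (hf 1)) (hf (-1)))

lemma ww_zero : ww 0 = 1 := by
  unfold ww
  rw [fourier_eval_zero, fourier_eval_zero]
  norm_num

lemma ww_half : ww ((1 / 2 : ℝ) : TT) = 0 := by
  have h1 : (fourier 1 ((1 / 2 : ℝ) : TT) : ℂ) = -1 := by
    rw [fourier_coe_apply]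
    have h : 2 * (Real.pi : ℂ) * Complex.I * ((1 : ℤ) : ℂ) * ((1 / 2 : ℝ) : ℂ) / ((1 : ℝ) : ℂ) =
        Real.pi * Complex.I := by
      push_cast
      ring
    rw [h, Complex.exp_pi_mul_I]
  have h2 : (fourier (-1) ((1 / 2 : ℝ) : TT) : ℂ) = -1 := by
    rw [fourier_neg, h1]
    simp
  unfold ww
  rw [h1, h2]
  norm_num

lemma fourier_negarg (n : ℤ) (x : TT) : (fourier n (-x) : ℂ) = fourier (-n) x := by
  rw [fourier_apply, fourier_apply, smul_neg, neg_smul]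

lemma ww_neg (x : TT) : ww (-x) = ww x := by
  unfold ww
  rw [fourier_negarg, fourier_negarg, neg_neg]
  ring

lemma exists_rep (x : TT) : ∃ s : ℝ, (s : TT) = x ∧ |s| = ‖x‖ := by
  obtain ⟨t, rfl⟩ := QuotientAddGroup.mk_surjective x
  refine ⟨t - round t, ?_, ?_⟩
  · change ((t - round t : ℝ) : TT) = (t : TT)
    rw [AddCircle.coe_sub, sub_eq_self, AddCircle.coe_eq_zero_iff]
    exact ⟨round t, by rw [zsmul_eq_mul, mul_one]⟩
  · change |t - round t| = ‖(t : TT)‖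
    rw [AddCircle.norm_eq]
    simp

lemma kap_pl (h1 : S_F1) (h2 : S_F2) : PL {0} kap := by
  have h := h2 {0} {((1 / 2 : ℝ) : TT)} chi ww ?_ ⟨1, chi_le⟩ (ww_li h1) ?_
  · exact h
  · exact chi_pl
  · intro x hx
    rw [Set.mem_singleton_iff] at hx
    rw [hx, ww_half]

lemma kap_bo (h1 : S_F1) : Bo kap := by
  obtain ⟨M, hM⟩ := (h1.2.2.2.2.2.2.1 ww (ww_li h1)).bo
  refine ⟨M, fun x => ?_⟩
  unfold kap
  rw [norm_mul]
  have h3 := hM x
  have h4 := chi_le x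
  calc ‖ww x‖ * ‖chi x‖ ≤ ‖ww x‖ * 1 := mul_le_mul_of_nonneg_left h4 (norm_nonneg _)
    _ ≤ M := by linarith

lemma kap_near (h1 : S_F1) : ∃ C : ℝ, ∀ x, ‖kap x - chi x‖ ≤ C * ‖x‖ := by
  obtain ⟨K, hK⟩ := ww_li h1
  refine ⟨K, fun x => ?_⟩
  obtain ⟨s, hs, hn⟩ := exists_rep x
  have h3 := hK 0 s
  rw [zero_add, hs, ww_zero, hn] at h3
  have h4 : kap x - chi x = (ww x - 1) * chi x := by
    unfold kap
    ring
  rw [h4, norm_mul]
  calc ‖ww x - 1‖ * ‖chi x‖ ≤ ‖ww x - 1‖ * 1 :=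
        mul_le_mul_of_nonneg_left (chi_le x) (norm_nonneg _)
    _ ≤ K * ‖x‖ := by linarith

end F4L

open F4L in
theorem leaf_F4 (h1 : S_F1) (h2 : S_F2) : S_F4 :=
  ⟨chi_pl, chi_neg, chi_sq, chi_le, chi_zero, ww_li h1, ww_zero, ww_half, ww_neg, kap_pl h1 h2,
    kap_bo h1, kap_near h1⟩

end Pool.Agent.H259.PC
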