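import Pool.Agent.H259.PC.Stmt

/-!
# F5: measurability of piecewise Lipschitz functions
-/

set_option autoImplicit false

open MeasureTheory Set Filter Topology
open scoped ComplexConjugate InnerProductSpace

namespace Pool.Agent.H259.PC

namespace F5L

lemma contAt {F : Set TT} {a : TT → ℂ} (hF : F.Finite) (hP : PL F a) {t : ℝ} (ht : (t : TT) ∉ F) :
    ContinuousAt a (t : TT) := by
  obtain ⟨L, hL⟩ := hP
  have hc : Continuous (fun s : ℝ => (s : TT)) := AddCircle.continuous_mk' (1 : ℝ)
  have hopen : IsOpen {s : ℝ | (s : TT) ∉ F} := hF.isClosed.isOpen_compl.preimage hc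
  obtain ⟨δ, hδ, hball⟩ := Metric.isOpen_iff.mp hopen t ht
  have key : ∀ s : ℝ, |s - t| < δ → ‖a (s : TT) - a (t : TT)‖ ≤ |L| * |s - t| := by
    intro s hs
    have hin : ∀ z : ℝ, |z - t| ≤ |s - t| → (z : TT) ∉ F := fun z hz =>
      hball (by rw [Metric.mem_ball, Real.dist_eq]; linarith)
    rcases le_total s t with h | h
    · have h1 := hL s t h (fun z hz => hin z (by
        rw [abs_of_nonpos (by linarith [hz.2]), abs_of_nonpos (by linarith)]
        linarith [hz.1]))
      refine h1.trans ?_
      rw [abs_of_nonpos (by linarith : s - t ≤ 0)]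
      have : L * (t - s) ≤ |L| * (t - s) := mul_le_mul_of_nonneg_right (le_abs_self L) (by linarith)
      linarith
    · have h1 := hL t s h (fun z hz => hin z (by
        rw [abs_of_nonneg (by linarith [hz.1]), abs_of_nonneg (by linarith)]
        linarith [hz.2]))
      rw [norm_sub_rev]
      refine h1.trans ?_
      rw [abs_of_nonneg (by linarith : 0 ≤ s - t)]
      exact mul_le_mul_of_nonneg_right (le_abs_self L) (by linarith)
  have h2 : Tendsto (fun s : ℝ => a (s : TT)) (𝓝 t) (𝓝 (a (t : TT))) := by
    rw [tendsto_iff_norm_sub_tendsto_zero]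
    have h3 : Tendsto (fun s : ℝ => |L| * |s - t|) (𝓝 t) (𝓝 0) := by
      have h4 : Continuous (fun s : ℝ => |L| * |s - t|) := by fun_prop
      have h5 := h4.tendsto t
      simpa using h5
    refine squeeze_zero' (Eventually.of_forall fun s => norm_nonneg _) ?_ h3
    filter_upwards [Metric.ball_mem_nhds t hδ] with s hs
    rw [Metric.mem_ball, Real.dist_eq] at hs
    exact key s hs
  unfold ContinuousAt
  rw [show 𝓝 (t : TT) = Filter.map (fun s : ℝ => (s : TT)) (𝓝 t) from QuotientAddGroup.nhds_eq _ t,
    Filter.tendsto_map'_iff]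
  exact h2

end F5L

theorem leaf_F5 : S_F5 := by
  classical
  intro F a hF hP hB
  refine ⟨hB, ?_⟩
  have hcont : ContinuousOn a Fᶜ := by
    intro x hx
    refine ContinuousAt.continuousWithinAt ?_
    obtain ⟨t, rfl⟩ := QuotientAddGroup.mk_surjective x
    exact F5L.contAt hF hP hx
  have h0 : ContinuousOn (fun _ : TT => (0 : ℂ)) (Fᶜ)ᶜ := continuousOn_const
  have hm1 : Measurable ((Fᶜ).piecewise a (fun _ : TT => (0 : ℂ))) :=
    hcont.measurable_piecewise h0 hF.isClosed.isOpen_compl.measurableSet
  have hm2 : Measurable a := by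
    refine hm1.measurable_of_countable_ne (hF.countable.mono ?_)
    intro x hx
    by_contra hxF
    exact hx (Set.piecewise_eq_of_mem _ _ _ hxF)
  exact hm2.aestronglyMeasurable

end Pool.Agent.H259.PC
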