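import Pool.Agent.H259.PC.Stmt

/-!
# F6: symbols form an algebra
-/

set_option autoImplicit false

open MeasureTheory Set
open scoped ComplexConjugate InnerProductSpace

namespace Pool.Agent.H259.PC

namespace F6L

/-- the standard product estimate -/
theorem norm_mul_sub_mul_le (a b p q : ℂ) :
    ‖a * b - p * q‖ ≤ ‖a‖ * ‖b - q‖ + ‖a - p‖ * ‖q‖ := by
  have h : a * b - p * q = a * (b - q) + (a - p) * q := by ring
  rw [h]
  refine (norm_add_le _ _).trans ?_
  rw [norm_mul, norm_mul]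

theorem bo_nonneg {a : TT → ℂ} {M : ℝ} (h : ∀ x, ‖a x‖ ≤ M) : 0 ≤ M :=
  (norm_nonneg (a 0)).trans (h 0)

theorem sym_const (ι : Type) (z : ι → TT) (c : ℂ) : Sym z (fun _ => c) (fun _ => c) (fun _ => 0) where
  pl := ⟨0, fun x y _ _ => by simp⟩
  bo := ⟨‖c‖, fun _ => le_rfl⟩
  jump := fun _ => ⟨0, fun x => by simp⟩

theorem sym_mul (hc : ∀ x, chi x * chi x = chi x) (hn : ∀ x, ‖chi x‖ ≤ 1) (ι : Type) (z : ι → TT)
    (a b : TT → ℂ) (α β α' β' : ι → ℂ) (ha : Sym z a α β) (hb : Sym z b α' β') :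
    Sym z (fun x => a x * b x) (fun i => α i * α' i)
      (fun i => α i * β' i + β i * α' i + β i * β' i) := by
  obtain ⟨Ma, hMa⟩ := ha.bo
  obtain ⟨Mb, hMb⟩ := hb.bo
  have hMa0 := bo_nonneg hMa
  have hMb0 := bo_nonneg hMb
  refine ⟨?_, ?_, ?_⟩
  · obtain ⟨L, hL⟩ := ha.pl
    obtain ⟨L', hL'⟩ := hb.pl
    refine ⟨Ma * L' + L * Mb, fun x y hxy hF => ?_⟩
    have h1 := hL x y hxy hF
    have h2 := hL' x y hxy hF
    have h3 := norm_mul_sub_mul_le (a (x : TT)) (b (x : TT)) (a (y : TT)) (b (y : TT))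
    have h4 : ‖a (x : TT)‖ * ‖b (x : TT) - b (y : TT)‖ ≤ Ma * (L' * (y - x)) :=
      mul_le_mul (hMa _) h2 (norm_nonneg _) hMa0
    have h5 : ‖a (x : TT) - a (y : TT)‖ * ‖b (y : TT)‖ ≤ (L * (y - x)) * Mb :=
      mul_le_mul h1 (hMb _) (norm_nonneg _) ((norm_nonneg _).trans h1)
    show ‖a (x : TT) * b (x : TT) - a (y : TT) * b (y : TT)‖ ≤ _
    linarith
  · refine ⟨Ma * Mb, fun x => ?_⟩
    show ‖a x * b x‖ ≤ _
    rw [norm_mul]
    exact mul_le_mul (hMa x) (hMb x) (norm_nonneg _) hMa0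
  · intro i
    obtain ⟨C, hC⟩ := ha.jump i
    obtain ⟨C', hC'⟩ := hb.jump i
    refine ⟨Ma * C' + C * (‖α' i‖ + ‖β' i‖), fun x => ?_⟩
    have h1 : ‖a (x + z i) - (α i + β i * chi x)‖ ≤ C * ‖x‖ := by
      have h := hC x
      rwa [sub_sub] at h
    have h2 : ‖b (x + z i) - (α' i + β' i * chi x)‖ ≤ C' * ‖x‖ := by
      have h := hC' x
      rwa [sub_sub] at h
    have h3 := norm_mul_sub_mul_le (a (x + z i)) (b (x + z i)) (α i + β i * chi x)
      (α' i + β' i * chi x)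
    have h4 : ‖α' i + β' i * chi x‖ ≤ ‖α' i‖ + ‖β' i‖ := by
      refine (norm_add_le _ _).trans ?_
      rw [norm_mul]
      have h := mul_le_mul_of_nonneg_left (hn x) (norm_nonneg (β' i))
      linarith
    have h5 : ‖a (x + z i)‖ * ‖b (x + z i) - (α' i + β' i * chi x)‖ ≤ Ma * (C' * ‖x‖) :=
      mul_le_mul (hMa _) h2 (norm_nonneg _) hMa0
    have h6 : ‖a (x + z i) - (α i + β i * chi x)‖ * ‖α' i + β' i * chi x‖ ≤
        (C * ‖x‖) * (‖α' i‖ + ‖β' i‖) :=
      mul_le_mul h1 h4 (norm_nonneg _) ((norm_nonneg _).trans h1)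
    have h7 : a (x + z i) * b (x + z i) - α i * α' i -
        (α i * β' i + β i * α' i + β i * β' i) * chi x =
        a (x + z i) * b (x + z i) - (α i + β i * chi x) * (α' i + β' i * chi x) := by
      linear_combination (β i * β' i) * hc x
    show ‖a (x + z i) * b (x + z i) - α i * α' i -
        (α i * β' i + β i * α' i + β i * β' i) * chi x‖ ≤ _
    rw [h7]
    linarith

theorem sym_add (ι : Type) (z : ι → TT)
    (a b : TT → ℂ) (α β α' β' : ι → ℂ) (ha : Sym z a α β) (hb : Sym z b α' β') :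
    Sym z (fun x => a x + b x) (fun i => α i + α' i) (fun i => β i + β' i) := by
  refine ⟨?_, ?_, ?_⟩
  · obtain ⟨L, hL⟩ := ha.pl
    obtain ⟨L', hL'⟩ := hb.pl
    refine ⟨L + L', fun x y hxy hF => ?_⟩
    have h1 := hL x y hxy hF
    have h2 := hL' x y hxy hF
    have h3 : a (x : TT) + b (x : TT) - (a (y : TT) + b (y : TT)) =
        (a (x : TT) - a (y : TT)) + (b (x : TT) - b (y : TT)) := by ring
    show ‖a (x : TT) + b (x : TT) - (a (y : TT) + b (y : TT))‖ ≤ _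
    rw [h3]
    refine (norm_add_le _ _).trans ?_
    linarith
  · obtain ⟨Ma, hMa⟩ := ha.bo
    obtain ⟨Mb, hMb⟩ := hb.bo
    exact ⟨Ma + Mb, fun x => (norm_add_le _ _).trans (add_le_add (hMa x) (hMb x))⟩
  · intro i
    obtain ⟨C, hC⟩ := ha.jump i
    obtain ⟨C', hC'⟩ := hb.jump i
    refine ⟨C + C', fun x => ?_⟩
    have h1 := hC x
    have h2 := hC' x
    have h3 : a (x + z i) + b (x + z i) - (α i + α' i) - (β i + β' i) * chi x =
        (a (x + z i) - α i - β i * chi x) + (b (x + z i) - α' i - β' i * chi x) := by ring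
    show ‖a (x + z i) + b (x + z i) - (α i + α' i) - (β i + β' i) * chi x‖ ≤ _
    rw [h3]
    refine (norm_add_le _ _).trans ?_
    linarith

end F6L

/-- F6. Symbols form an algebra. -/
theorem leaf_F6 (h4 : S_F4) : S_F6 := by
  obtain ⟨-, -, hc, hn, -⟩ := h4
  exact ⟨F6L.sym_const, fun ι z a b α β α' β' ha hb =>
    ⟨F6L.sym_mul hc hn ι z a b α β α' β' ha hb, F6L.sym_add ι z a b α β α' β' ha hb⟩⟩

end Pool.Agent.H259.PC
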