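import Pool.Agent.H259.PC.Stmt

/-!
The jumps of a symbol are given by `kap`.
-/

set_option autoImplicit false

open MeasureTheory Set
open scoped ComplexConjugate InnerProductSpace

namespace Pool.Agent.H259.PC

namespace F7L

theorem norm_le_abs (t : ℝ) : ‖(t : TT)‖ ≤ |t| := by
  have h : ‖(t : TT)‖ = |t - round t| := UnitAddCircle.norm_eq
  rw [h]
  simpa using round_le t 0

theorem exists_rep (x : TT) : ∃ s : ℝ, (s : TT) = x ∧ |s| = ‖x‖ := by
  induction x using QuotientAddGroup.induction_on with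
  | H t =>
    refine ⟨t - round t, ?_, ?_⟩
    · rw [AddCircle.coe_sub]
      have : ((round t : ℝ) : TT) = 0 := by
        rw [AddCircle.coe_eq_zero_iff]
        exact ⟨round t, by simp⟩
      rw [this, sub_zero]
    · have h : ‖(t : TT)‖ = |t - round t| := UnitAddCircle.norm_eq
      exact h.symm

/-- translation of a function which is Lipschitz off `0` -/
theorem pl_shift {k : TT → ℂ} {L : ℝ} (hL : ∀ x y : ℝ, x ≤ y → (∀ w ∈ Icc x y, (w : TT) ∉ ({0} : Set TT)) →
    ‖k (x : TT) - k (y : TT)‖ ≤ L * (y - x)) {ζ : TT} {x y : ℝ} (hxy : x ≤ y)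
    (h : ∀ w ∈ Icc x y, (w : TT) ≠ ζ) : ‖k ((x : TT) - ζ) - k ((y : TT) - ζ)‖ ≤ L * (y - x) := by
  obtain ⟨t, ht, -⟩ := exists_rep ζ
  have h1 := hL (x - t) (y - t) (by linarith) (by
    intro w hw hw0
    rw [mem_singleton_iff] at hw0
    refine h (w + t) ⟨by linarith [hw.1], by linarith [hw.2]⟩ ?_
    rw [AddCircle.coe_add, hw0, zero_add, ht])
  rw [AddCircle.coe_sub, AddCircle.coe_sub, ht] at h1
  refine h1.trans (le_of_eq ?_)
  ring

/-- a function which is bounded and Lipschitz off `0` is Lipschitz at the other points -/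
theorem lip_at {k : TT → ℂ} (hk : PL {0} k) (hb : Bo k) {ζ : TT} (hζ : ζ ≠ 0) :
    ∃ C : ℝ, ∀ x : TT, ‖k (x + ζ) - k ζ‖ ≤ C * ‖x‖ := by
  obtain ⟨L, hL⟩ := hk
  obtain ⟨M, hM⟩ := hb
  have hM0 : 0 ≤ M := (norm_nonneg _).trans (hM 0)
  have hδ : 0 < ‖ζ‖ := norm_pos_iff.2 hζ
  have hq : 0 ≤ 2 * M / ‖ζ‖ := by positivity
  refine ⟨|L| + 2 * M / ‖ζ‖, fun x => ?_⟩
  rcases le_or_gt ‖ζ‖ ‖x‖ with hx | hx
  · have h1 : ‖k (x + ζ) - k ζ‖ ≤ 2 * M := by
      refine (norm_sub_le _ _).trans ?_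
      linarith [hM (x + ζ), hM ζ]
    have h2 : 2 * M ≤ 2 * M / ‖ζ‖ * ‖x‖ := by
      rw [div_mul_eq_mul_div, le_div_iff₀ hδ]
      exact mul_le_mul_of_nonneg_left hx (by linarith)
    have h3 : 0 ≤ |L| * ‖x‖ := by positivity
    rw [add_mul]
    linarith
  · obtain ⟨s, hs, hs'⟩ := exists_rep x
    obtain ⟨t, ht, -⟩ := exists_rep ζ
    have hno : ∀ w : ℝ, |w - t| ≤ |s| → (w : TT) ≠ 0 := by
      intro w hw hw0
      have h1 : ((t - w : ℝ) : TT) = ζ := by
        rw [AddCircle.coe_sub, hw0, sub_zero, ht]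
      have h2 := norm_le_abs (t - w)
      rw [h1, abs_sub_comm] at h2
      linarith
    have h1 : ‖k (x + ζ) - k ζ‖ ≤ L * |s| := by
      rw [← hs, ← ht, ← AddCircle.coe_add]
      rcases le_total 0 s with h0 | h0
      · have h2 := hL t (s + t) (by linarith) (by
          intro w hw hw0
          refine hno w ?_ hw0
          rw [abs_of_nonneg (by linarith [hw.1]), abs_of_nonneg h0]
          linarith [hw.2])
        rw [norm_sub_rev, abs_of_nonneg h0]
        refine h2.trans (le_of_eq ?_)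
        ring
      · have h2 := hL (s + t) t (by linarith) (by
          intro w hw hw0
          refine hno w ?_ hw0
          rw [abs_of_nonpos (by linarith [hw.2]), abs_of_nonpos h0]
          linarith [hw.1])
        rw [abs_of_nonpos h0]
        refine h2.trans (le_of_eq ?_)
        ring
    rw [hs'] at h1
    have h2 : L * ‖x‖ ≤ |L| * ‖x‖ := mul_le_mul_of_nonneg_right (le_abs_self L) (norm_nonneg _)
    have h3 : 0 ≤ 2 * M / ‖ζ‖ * ‖x‖ := by positivity
    rw [add_mul]
    linarith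

end F7L

open F7L in
theorem leaf_F7 (h1 : S_F1) (h3 : S_F3) (h4 : S_F4) : S_F7 := by
  have _ := h1
  obtain ⟨-, -, -, -, -, -, -, -, -, hk, hkb, hkc⟩ := h4
  intro ι _ _ z hz a α β hs
  refine h3 (range z) _ (finite_range z) ?_ ?_
  · -- Lipschitz off the points
    obtain ⟨La, hLa⟩ := hs.pl
    obtain ⟨L, hL⟩ := hk
    refine ⟨La + ∑ i, ‖β i‖ * L, fun x y hxy hr => ?_⟩
    have e1 : (a (x : TT) - ∑ i, β i * kap ((x : TT) - z i)) -
        (a (y : TT) - ∑ i, β i * kap ((y : TT) - z i)) =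
        (a (x : TT) - a (y : TT)) -
          ∑ i, β i * (kap ((x : TT) - z i) - kap ((y : TT) - z i)) := by
      simp only [mul_sub, Finset.sum_sub_distrib]
      ring
    rw [e1, add_mul, Finset.sum_mul]
    refine (norm_sub_le _ _).trans (add_le_add (hLa x y hxy hr) ?_)
    refine (norm_sum_le _ _).trans (Finset.sum_le_sum fun i _ => ?_)
    rw [norm_mul, mul_assoc]
    exact mul_le_mul_of_nonneg_left
      (pl_shift hL hxy (fun w hw hw0 => hr w hw ⟨i, hw0.symm⟩)) (norm_nonneg _)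
  · rintro _ ⟨j, rfl⟩
    obtain ⟨C, hC⟩ := hs.jump j
    obtain ⟨C', hC'⟩ := hkc
    have h5 : ∀ i : ι, ∃ D : ℝ, i ≠ j → ∀ x : TT,
        ‖kap (x + (z j - z i)) - kap (z j - z i)‖ ≤ D * ‖x‖ := by
      intro i
      by_cases hij : i = j
      · exact ⟨0, fun h => absurd hij h⟩
      · obtain ⟨D, hD⟩ := lip_at hk hkb (ζ := z j - z i) (by
          rw [sub_ne_zero]
          exact fun h => hij (hz h.symm))
        exact ⟨D, fun _ => hD⟩
    choose D hD using h5
    refine ⟨α j - ∑ i ∈ Finset.univ.erase j, β i * kap (z j - z i),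
      C + ‖β j‖ * C' + ∑ i ∈ Finset.univ.erase j, ‖β i‖ * D i, fun x => ?_⟩
    have e1 : (a (x + z j) - ∑ i, β i * kap (x + z j - z i)) -
        (α j - ∑ i ∈ Finset.univ.erase j, β i * kap (z j - z i)) =
        (a (x + z j) - α j - β j * chi x) - β j * (kap x - chi x) -
          ∑ i ∈ Finset.univ.erase j, β i * (kap (x + (z j - z i)) - kap (z j - z i)) := by
      rw [← Finset.add_sum_erase Finset.univ _ (Finset.mem_univ j), add_sub_cancel_right]
      have e2 : ∀ i : ι, x + z j - z i = x + (z j - z i) := fun i => add_sub_assoc _ _ _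
      simp only [e2, mul_sub, Finset.sum_sub_distrib]
      ring
    rw [e1, add_mul, add_mul, Finset.sum_mul]
    refine (norm_sub_le _ _).trans (add_le_add ((norm_sub_le _ _).trans (add_le_add (hC x) ?_)) ?_)
    · rw [norm_mul, mul_assoc]
      exact mul_le_mul_of_nonneg_left (hC' x) (norm_nonneg _)
    · refine (norm_sum_le _ _).trans (Finset.sum_le_sum fun i hi => ?_)
      rw [norm_mul, mul_assoc]
      exact mul_le_mul_of_nonneg_left (hD i (Finset.ne_of_mem_erase hi) x) (norm_nonneg _)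

end Pool.Agent.H259.PC
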