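import Pool.Agent.H259.PC.Stmt

/-!
# Leaf F8: one-sided limits, normalisation of a piecewise Lipschitz function at its jumps
-/

set_option autoImplicit false

open MeasureTheory Set
open scoped ComplexConjugate InnerProductSpace

namespace Pool.Agent.H259.PC

namespace F8L

/-- A Lipschitz function on a set of real numbers has a boundary value at every point. -/
theorem boundary (g : ℝ → ℂ) (S : Set ℝ) (L : ℝ)
    (hg : ∀ x ∈ S, ∀ y ∈ S, x ≤ y → ‖g x - g y‖ ≤ L * (y - x)) (t : ℝ) :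
    ∃ (r : ℂ) (K : ℝ), 0 ≤ K ∧ ∀ x ∈ S, ‖g x - r‖ ≤ K * |x - t| := by
  have hL : LipschitzOnWith (Real.toNNReal L) g S := by
    apply LipschitzOnWith.of_dist_le_mul
    have key : ∀ x ∈ S, ∀ y ∈ S, x ≤ y → dist (g x) (g y) ≤ (Real.toNNReal L : ℝ) * dist x y := by
      intro x hx y hy h
      rw [dist_eq_norm, Real.dist_eq, abs_sub_comm, abs_of_nonneg (sub_nonneg.mpr h)]
      exact (hg x hx y hy h).trans
        (mul_le_mul_of_nonneg_right (Real.le_coe_toNNReal L) (sub_nonneg.mpr h))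
    intro x hx y hy
    rcases le_total x y with h | h
    · exact key x hx y hy h
    · rw [dist_comm (g x), dist_comm x]
      exact key y hy x hx h
  obtain ⟨f, hf, hfg⟩ := hL.extend_finite_dimension
  refine ⟨f t, ((lipschitzExtensionConstant ℂ * Real.toNNReal L : NNReal) : ℝ),
    NNReal.coe_nonneg _, fun x hx => ?_⟩
  have h1 := hf.dist_le_mul x t
  rw [dist_eq_norm, Real.dist_eq, ← hfg hx] at h1
  exact h1

/-- Every point of the circle has a representative of minimal absolute value. -/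
theorem exists_rep (x : TT) : ∃ s : ℝ, (s : TT) = x ∧ |s| = ‖x‖ ∧ |s| ≤ 1 / 2 := by
  obtain ⟨y, rfl⟩ := QuotientAddGroup.mk_surjective x
  refine ⟨y - round y, ?_, ?_, abs_sub_round y⟩
  · have h1 : ((round y : ℝ) : TT) = 0 := by
      rw [AddCircle.coe_eq_zero_iff]
      exact ⟨round y, by simp⟩
    rw [AddCircle.coe_sub, h1, sub_zero]
  · exact (UnitAddCircle.norm_eq (x := y)).symm

/-- norm of a small real number -/
theorem norm_coe {s : ℝ} (h : |s| ≤ 1 / 2) : ‖(s : TT)‖ = |s| :=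
  (AddCircle.norm_coe_eq_abs_iff 1 one_ne_zero).mpr (by rw [abs_one]; exact h)

/-- the values of `chi` -/
theorem chi_coe (s : ℝ) : chi (s : TT) = if 0 < Real.sin (2 * Real.pi * s) then 1 else 0 := by
  have h : (fourier 1 (s : TT) : ℂ).im = Real.sin (2 * Real.pi * s) := by
    rw [fourier_coe_apply]
    have h1 : (2 * (Real.pi : ℂ) * Complex.I * ((1 : ℤ) : ℂ) * (s : ℂ) / ((1 : ℝ) : ℂ)) =
        ((2 * Real.pi * s : ℝ) : ℂ) * Complex.I := by push_cast; ring
    rw [h1, Complex.exp_ofReal_mul_I_im]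
  unfold chi
  rw [h]

theorem chi_pos {s : ℝ} (h0 : 0 < s) (h1 : s < 1 / 2) : chi (s : TT) = 1 := by
  rw [chi_coe, if_pos]
  apply Real.sin_pos_of_pos_of_lt_pi
  · have := Real.pi_pos
    positivity
  · nlinarith [Real.pi_pos]

theorem chi_neg {s : ℝ} (h0 : s ≤ 0) (h1 : -(1 / 2) ≤ s) : chi (s : TT) = 0 := by
  rw [chi_coe, if_neg]
  rw [not_lt]
  apply Real.sin_nonpos_of_nonpos_of_neg_pi_le
  · nlinarith [Real.pi_pos]
  · nlinarith [Real.pi_pos]

/-- The points `z i` are isolated from each other. -/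
theorem isolated {ι : Type} [Fintype ι] (z : ι → TT) (i : ι) :
    ∃ δ : ℝ, 0 < δ ∧ δ ≤ 1 / 2 ∧ ∀ s : ℝ, s ≠ 0 → |s| < δ → (s : TT) + z i ∉ range z := by
  have h1 : (range z \ {z i}).Finite := (finite_range z).subset sdiff_subset
  have h2 : IsOpen (range z \ {z i})ᶜ := h1.isClosed.isOpen_compl
  obtain ⟨ε, hε, h3⟩ := Metric.isOpen_iff.mp h2 (z i) (fun h => h.2 rfl)
  refine ⟨min ε (1 / 2), lt_min hε (by norm_num), min_le_right _ _, ?_⟩
  intro s hs0 hs hmem
  have h4 : |s| < ε := lt_of_lt_of_le hs (min_le_left _ _)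
  have h5 : |s| ≤ 1 / 2 := (lt_of_lt_of_le hs (min_le_right _ _)).le
  have h6 : ‖(s : TT)‖ = |s| := norm_coe h5
  have h7 : (s : TT) + z i ∈ Metric.ball (z i) ε := by
    rw [Metric.mem_ball, dist_eq_norm, add_sub_cancel_right, h6]
    exact h4
  apply h3 h7
  refine ⟨hmem, ?_⟩
  rw [mem_singleton_iff]
  intro h9
  have h10 : (s : TT) = 0 := by
    have h11 := congrArg (fun y => y - z i) h9
    simpa using h11
  rw [h10, norm_zero] at h6
  exact hs0 (abs_eq_zero.mp h6.symm)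

/-- One-sided boundary values. -/
theorem one_side {F : Set TT} {a : TT → ℂ} (ha : PL F a) (ζ : TT) (u v : ℝ)
    (h : ∀ s ∈ Ioo u v, (s : TT) + ζ ∉ F) :
    ∃ (r : ℂ) (K : ℝ), 0 ≤ K ∧ ∀ s ∈ Ioo u v, ‖a ((s : TT) + ζ) - r‖ ≤ K * |s| := by
  obtain ⟨L, hL⟩ := ha
  obtain ⟨t, rfl⟩ := QuotientAddGroup.mk_surjective ζ
  obtain ⟨r, K, hK, h1⟩ := boundary (fun s => a ((s : TT) + (t : TT))) (Ioo u v) L (by
    intro x hx y hy hxy
    have h2 := hL (x + t) (y + t) (by linarith) (by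
      intro w hw
      have h3 : w - t ∈ Ioo u v :=
        ⟨lt_of_lt_of_le hx.1 (by linarith [hw.1]), lt_of_le_of_lt (by linarith [hw.2]) hy.2⟩
      have h4 := h (w - t) h3
      have h5 : (w : TT) = ((w - t : ℝ) : TT) + (t : TT) := by
        rw [← AddCircle.coe_add, sub_add_cancel]
      rw [h5]
      exact h4)
    rw [AddCircle.coe_add, AddCircle.coe_add] at h2
    have h6 : y + t - (x + t) = y - x := by ring
    rw [h6] at h2
    exact h2) 0
  refine ⟨r, K, hK, fun s hs => ?_⟩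
  have h7 := h1 s hs
  rw [sub_zero] at h7
  exact h7

end F8L

open F8L in
/-- Leaf F8. -/
theorem leaf_F8 (h4 : S_F4) : S_F8 := by
  intro ι _ z hz a ha hb
  obtain ⟨M, hM⟩ := hb
  have hchi : ∀ x, ‖chi x‖ ≤ 1 := h4.2.2.2.1
  have hchi0 : chi 0 = 0 := h4.2.2.2.2.1
  have hloc : ∀ i : ι, ∃ (A R : ℂ) (K δ : ℝ), 0 ≤ K ∧ 0 < δ ∧ δ ≤ 1 / 2 ∧
      (∀ s : ℝ, 0 < s → s < δ → ‖a ((s : TT) + z i) - R‖ ≤ K * |s|) ∧
      (∀ s : ℝ, -δ < s → s < 0 → ‖a ((s : TT) + z i) - A‖ ≤ K * |s|) ∧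
      (∀ s : ℝ, s ≠ 0 → |s| < δ → (s : TT) + z i ∉ range z) := by
    intro i
    obtain ⟨δ, h0, h1, h2⟩ := isolated z i
    obtain ⟨R, K1, hK1, hR⟩ := one_side ha (z i) 0 δ (fun s hs =>
      h2 s hs.1.ne' (by rw [abs_of_pos hs.1]; exact hs.2))
    obtain ⟨A, K2, hK2, hA⟩ := one_side ha (z i) (-δ) 0 (fun s hs =>
      h2 s hs.2.ne (by rw [abs_of_neg hs.2]; linarith [hs.1]))
    refine ⟨A, R, K1 + K2, δ, add_nonneg hK1 hK2, h0, h1, ?_, ?_, h2⟩
    · intro s hs0 hs1
      refine (hR s ⟨hs0, hs1⟩).trans ?_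
      have := abs_nonneg s
      nlinarith
    · intro s hs0 hs1
      refine (hA s ⟨hs0, hs1⟩).trans ?_
      have := abs_nonneg s
      nlinarith
  choose A R K δ hK hδ hδ2 hR hA hout using hloc
  have hin : ∀ i, Function.extend z A a (z i) = A i := fun i => hz.extend_apply A a i
  have hex : ∀ x ∉ range z, Function.extend z A a x = a x := fun x hx =>
    Function.extend_apply' A a x (fun ⟨i, hi⟩ => hx ⟨i, hi⟩)
  have hbd : ∀ x, ‖Function.extend z A a x‖ ≤ |M| + ∑ i, ‖A i‖ := by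
    intro x
    by_cases hx : x ∈ range z
    · obtain ⟨i, rfl⟩ := hx
      rw [hin]
      have h1 : ‖A i‖ ≤ ∑ i, ‖A i‖ :=
        Finset.single_le_sum (f := fun i => ‖A i‖) (fun i _ => norm_nonneg _) (Finset.mem_univ i)
      have := abs_nonneg M
      linarith
    · rw [hex x hx]
      have h1 : 0 ≤ ∑ i, ‖A i‖ := Finset.sum_nonneg fun i _ => norm_nonneg _
      have h2 := (hM x).trans (le_abs_self M)
      linarith
  refine ⟨Function.extend z A a, A, fun i => R i - A i, ⟨?_, ⟨_, hbd⟩, ?_⟩, hex⟩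
  · obtain ⟨L, hL⟩ := ha
    refine ⟨L, fun x y hxy h => ?_⟩
    rw [hex _ (h x ⟨le_refl x, hxy⟩), hex _ (h y ⟨hxy, le_refl y⟩)]
    exact hL x y hxy h
  · intro i
    have hB : 0 ≤ |M| + ∑ i, ‖A i‖ + ‖A i‖ + ‖R i - A i‖ := by
      have h1 : 0 ≤ ∑ i, ‖A i‖ := Finset.sum_nonneg fun i _ => norm_nonneg _
      positivity
    refine ⟨K i + (|M| + ∑ i, ‖A i‖ + ‖A i‖ + ‖R i - A i‖) / δ i, fun x => ?_⟩
    obtain ⟨s, hsx, hs1, hs2⟩ := exists_rep x
    rw [← hs1, ← hsx]
    have hs0 := abs_nonneg s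
    have hdiv : 0 ≤ (|M| + ∑ i, ‖A i‖ + ‖A i‖ + ‖R i - A i‖) / δ i := div_nonneg hB (hδ i).le
    have hlow : K i * |s| ≤ (K i + (|M| + ∑ i, ‖A i‖ + ‖A i‖ + ‖R i - A i‖) / δ i) * |s| := by
      nlinarith
    by_cases hsd : |s| < δ i
    · rcases lt_trichotomy s 0 with hneg | hzero | hpos
      · have hsn : -δ i < s := by
          rw [abs_of_neg hneg] at hsd
          linarith
        rw [hex _ (hout i s hneg.ne hsd), chi_neg hneg.le (by linarith [hδ2 i]), mul_zero,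
          sub_zero]
        exact (hA i s hsn hneg).trans hlow
      · subst hzero
        rw [AddCircle.coe_zero, zero_add, hin, hchi0, sub_self, mul_zero, sub_zero, norm_zero,
          abs_zero, mul_zero]
      · have hsn : s < δ i := by
          rw [abs_of_pos hpos] at hsd
          exact hsd
        rw [hex _ (hout i s hpos.ne' hsd), chi_pos hpos (by linarith [hδ2 i]), mul_one]
        have h5 : a ((s : TT) + z i) - A i - (R i - A i) = a ((s : TT) + z i) - R i := by ring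
        rw [h5]
        exact (hR i s hpos hsn).trans hlow
    · rw [not_lt] at hsd
      have h6 : ‖Function.extend z A a ((s : TT) + z i) - A i - (R i - A i) * chi (s : TT)‖ ≤
          |M| + ∑ i, ‖A i‖ + ‖A i‖ + ‖R i - A i‖ := by
        refine (norm_sub_le _ _).trans ?_
        refine add_le_add ((norm_sub_le _ _).trans (add_le_add (hbd _) le_rfl)) ?_
        rw [norm_mul]
        exact mul_le_of_le_one_right (norm_nonneg _) (hchi _)
      refine h6.trans ?_
      have h7 : |M| + ∑ i, ‖A i‖ + ‖A i‖ + ‖R i - A i‖ ≤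
          (|M| + ∑ i, ‖A i‖ + ‖A i‖ + ‖R i - A i‖) / δ i * |s| := by
        rw [div_mul_eq_mul_div, le_div_iff₀ (hδ i)]
        exact mul_le_mul_of_nonneg_left hsd hB
      have h8 : 0 ≤ K i * |s| := mul_nonneg (hK i) hs0
      rw [add_mul]
      linarith

end Pool.Agent.H259.PC
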