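import Pool.Agent.H259.PC.Stmt

/-!
# Leaf F9: division by `uu` (helper154, for helper259)
-/

set_option autoImplicit false

open MeasureTheory Set
open scoped ComplexConjugate InnerProductSpace

namespace Pool.Agent.H259.PC

namespace F9L

theorem rep (y : TT) : ∃ s : ℝ, |s| ≤ 1 / 2 ∧ (s : TT) = y ∧ ‖y‖ = |s| := by
  obtain ⟨t, rfl⟩ := QuotientAddGroup.mk_surjective y
  refine ⟨t - round t, abs_sub_round t, ?_, ?_⟩
  · have h : ((round t : ℝ) : TT) = 0 := by
      rw [AddCircle.coe_eq_zero_iff]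
      exact ⟨round t, by simp⟩
    rw [AddCircle.coe_sub, h, sub_zero]
  · have h := AddCircle.norm_eq (1 : ℝ) (x := t)
    rw [inv_one, one_mul, mul_one] at h
    exact h

theorem norm_one (z : TT) : ‖(fourier 1 z : ℂ)‖ = 1 := by
  rw [fourier_one]
  exact Circle.norm_coe _

theorem lower (x z : TT) : 4 * ‖x - z‖ ≤ ‖(fourier 1 x : ℂ) - fourier 1 z‖ := by
  obtain ⟨s, hs, hsy, hn⟩ := rep (x - z)
  have h1 : (fourier 1 x : ℂ) = fourier 1 z * fourier 1 (s : TT) := by
    have hx : x = z + (s : TT) := by rw [hsy]; abel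
    rw [hx, fourier_one, fourier_one, fourier_one, AddCircle.toCircle_add, Circle.coe_mul]
  have h2 : (fourier 1 (s : TT) : ℂ) = Complex.exp (Complex.I * ((2 * Real.pi * s : ℝ) : ℂ)) := by
    rw [fourier_coe_apply]
    congr 1
    push_cast
    ring
  have h3 : (fourier 1 x : ℂ) - fourier 1 z = fourier 1 z * (fourier 1 (s : TT) - 1) := by
    rw [h1]
    ring
  rw [h3, norm_mul, norm_one, one_mul, h2, Complex.norm_exp_I_mul_ofReal_sub_one, hn]
  have h4 : 2 * Real.pi * s / 2 = Real.pi * s := by ring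
  rw [h4, norm_mul, Real.norm_eq_abs, Real.norm_eq_abs, abs_of_pos (by norm_num : (0 : ℝ) < 2)]
  have hpi := Real.pi_pos
  have h5 : |Real.pi * s| ≤ Real.pi / 2 := by
    rw [abs_mul, abs_of_pos hpi]
    nlinarith
  have h6 := Real.mul_abs_le_abs_sin h5
  rw [abs_mul, abs_of_pos hpi] at h6
  have h7 : 2 / Real.pi * (Real.pi * |s|) = 2 * |s| := by
    field_simp
  rw [h7] at h6
  linarith

theorem li_prod (h1 : S_F1) {ι : Type} (s : Finset ι) (f : ι → TT → ℂ) (hf : ∀ i ∈ s, Li (f i)) :
    Li fun x => ∏ i ∈ s, f i x := by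
  classical
  induction s using Finset.induction_on with
  | empty =>
    simp only [Finset.prod_empty]
    exact h1.1 1
  | insert i s hi ih =>
    have h2 : (fun x => ∏ j ∈ insert i s, f j x) = fun x => f i x * ∏ j ∈ s, f j x := by
      funext x
      rw [Finset.prod_insert hi]
    rw [h2]
    exact h1.2.2.2.1 _ _ (hf i (Finset.mem_insert_self i s))
      (ih fun j hj => hf j (Finset.mem_insert_of_mem hj))

theorem bo_prod {ι : Type} (s : Finset ι) (f : ι → TT → ℂ) (hf : ∀ i ∈ s, Bo (f i)) :
    Bo fun x => ∏ i ∈ s, f i x := by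
  classical
  induction s using Finset.induction_on with
  | empty =>
    simp only [Finset.prod_empty]
    exact ⟨1, fun _ => by simp⟩
  | insert i s hi ih =>
    obtain ⟨M, hM⟩ := hf i (Finset.mem_insert_self i s)
    obtain ⟨N, hN⟩ := ih fun j hj => hf j (Finset.mem_insert_of_mem hj)
    refine ⟨M * N, fun x => ?_⟩
    have h2 : (∏ j ∈ insert i s, f j x) = f i x * ∏ j ∈ s, f j x := Finset.prod_insert hi
    have h3 : ‖∏ j ∈ s, f j x‖ ≤ N := hN x
    show ‖∏ j ∈ insert i s, f j x‖ ≤ M * N
    rw [h2, norm_mul]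
    exact mul_le_mul (hM x) h3 (norm_nonneg _) ((norm_nonneg _).trans (hM x))

end F9L

open F9L in
theorem leaf_F9 (h1 : S_F1) (h4 : S_F4) (h5 : S_F5) : S_F9 := by
  intro ι _ z a α β hS
  have hfin : (range z).Finite := finite_range z
  have hMB : MB a := h5 (range z) a hfin hS.pl hS.bo
  obtain ⟨-, -, -, -, hchi0, -⟩ := h4
  have haz : ∀ i, a (z i) = α i := by
    intro i
    obtain ⟨C, hC⟩ := hS.jump i
    have h := hC 0
    rw [norm_zero, mul_zero, zero_add, hchi0, mul_zero, sub_zero] at h
    exact sub_eq_zero.1 (norm_eq_zero.1 (le_antisymm h (norm_nonneg _)))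
  have huz : ∀ i, uu z (z i) = 0 := fun i =>
    Finset.prod_eq_zero (Finset.mem_univ i) (sub_self _)
  refine ⟨?_, huz, ?_⟩
  · unfold uu
    apply li_prod h1
    intro i _
    have h := h1.2.2.1 _ _ (h1.2.1 1) (h1.1 (-(fourier 1 (z i) : ℂ)))
    have e : (fun x : TT => (fourier 1 x : ℂ) - fourier 1 (z i)) =
        fun x => (fourier 1 x : ℂ) + -(fourier 1 (z i) : ℂ) := by
      funext x
      ring
    rw [e]
    exact h
  · refine ⟨fun x => ∏ i, ((a x - α i) * (a x - (α i + β i)) /
      ((fourier 1 x : ℂ) - fourier 1 (z i))), ⟨?_, ?_⟩, ?_⟩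
    · apply bo_prod
      intro i _
      obtain ⟨M, hM⟩ := hS.bo
      obtain ⟨C, hC⟩ := hS.jump i
      have hM0 : 0 ≤ M := (norm_nonneg _).trans (hM 0)
      refine ⟨|C| * (M + ‖α i‖ + ‖β i‖), fun x => ?_⟩
      rcases eq_or_ne x (z i) with rfl | hx
      · show ‖(a (z i) - α i) * (a (z i) - (α i + β i)) / ((fourier 1 (z i) : ℂ) - fourier 1 (z i))‖ ≤ _
        rw [sub_self (fourier 1 (z i) : ℂ), div_zero, norm_zero]
        positivity
      have hxn : 0 < ‖x - z i‖ := norm_pos_iff.2 (sub_ne_zero.2 hx)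
      have hl := lower x (z i)
      have hpos : 0 < ‖(fourier 1 x : ℂ) - fourier 1 (z i)‖ := by linarith
      show ‖(a x - α i) * (a x - (α i + β i)) / ((fourier 1 x : ℂ) - fourier 1 (z i))‖ ≤ _
      rw [norm_div, div_le_iff₀ hpos, norm_mul]
      have hj := hC (x - z i)
      rw [sub_add_cancel] at hj
      have hA : ‖a x - α i‖ ≤ M + ‖α i‖ + ‖β i‖ := by
        have := norm_sub_le (a x) (α i)
        have := hM x
        have := norm_nonneg (β i)
        linarith
      have hB : ‖a x - (α i + β i)‖ ≤ M + ‖α i‖ + ‖β i‖ := by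
        have := norm_sub_le (a x) (α i + β i)
        have := norm_add_le (α i) (β i)
        have := hM x
        linarith
      have hCC : C * ‖x - z i‖ ≤ |C| * ‖x - z i‖ :=
        mul_le_mul_of_nonneg_right (le_abs_self C) hxn.le
      have hK : 0 ≤ M + ‖α i‖ + ‖β i‖ := by positivity
      have hprod : ‖a x - α i‖ * ‖a x - (α i + β i)‖ ≤
          (|C| * ‖x - z i‖) * (M + ‖α i‖ + ‖β i‖) := by
        by_cases hc : 0 < (fourier 1 (x - z i) : ℂ).im
        · have e : chi (x - z i) = 1 := if_pos hc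
          rw [e, mul_one] at hj
          have e2 : a x - α i - β i = a x - (α i + β i) := by ring
          rw [e2] at hj
          rw [mul_comm ‖a x - α i‖]
          exact mul_le_mul (hj.trans hCC) hA (norm_nonneg _) (by positivity)
        · have e : chi (x - z i) = 0 := if_neg hc
          rw [e, mul_zero, sub_zero] at hj
          exact mul_le_mul (hj.trans hCC) hB (norm_nonneg _) (by positivity)
      have hC0 := abs_nonneg C
      calc ‖a x - α i‖ * ‖a x - (α i + β i)‖ ≤ (|C| * ‖x - z i‖) * (M + ‖α i‖ + ‖β i‖) := hprod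
        _ = |C| * (M + ‖α i‖ + ‖β i‖) * ‖x - z i‖ := by ring
        _ ≤ |C| * (M + ‖α i‖ + ‖β i‖) * ‖(fourier 1 x : ℂ) - fourier 1 (z i)‖ :=
            mul_le_mul_of_nonneg_left (by linarith) (by positivity)
    · have hm : AEMeasurable a hm := hMB.me.aemeasurable
      have hF : Measurable fun x : TT => (fourier 1 x : ℂ) := (fourier 1).continuous.measurable
      apply AEMeasurable.aestronglyMeasurable
      apply Finset.aemeasurable_fun_prod
      intro i _
      exact ((hm.sub_const _).mul (hm.sub_const _)).div (hF.sub_const _).aemeasurable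
    · intro x
      by_cases hx : x ∈ range z
      · obtain ⟨i, rfl⟩ := hx
        rw [huz i, mul_zero]
        apply Finset.prod_eq_zero (Finset.mem_univ i)
        rw [haz i, sub_self, zero_mul]
      · unfold uu
        rw [← Finset.prod_mul_distrib]
        apply Finset.prod_congr rfl
        intro i _
        have hne : (fourier 1 x : ℂ) - fourier 1 (z i) ≠ 0 := by
          have hxn : 0 < ‖x - z i‖ := norm_pos_iff.2 (sub_ne_zero.2 fun h => hx ⟨i, h.symm⟩)
          have hl := lower x (z i)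
          rw [← norm_pos_iff]
          linarith
        rw [div_mul_cancel₀ _ hne]

end Pool.Agent.H259.PC
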