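import Pool.Agent.H259.PC.Good
import Pool.Agent.H259.PC.D3

/-!
# The final argument
-/

set_option autoImplicit false
set_option linter.unusedSectionVars false

open MeasureTheory Set Metric
open scoped ComplexConjugate InnerProductSpace

namespace Pool.Agent.H259.PC

open Pool.Agent.H259.RH Pool.Agent.H259.HA Pool.Agent.H259.RR Pool.Agent.W402.HI
  Pool.Agent.W706.HIR Pool.Agent.K4H63.RC Pool.Agent.K4H63.RD

section
variable {ι : Type} [Fintype ι] [DecidableEq ι]

theorem rep_hankel {z : ι → TT} (hz : Function.Injective z) {σ : ι → ι}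
    (hzσ : ∀ i, z (σ i) = -z i) {a : TT → ℂ} {α β : ι → ℂ} (ha : Sym z a α β) :
    ∃ N : Matrix ι ι LP, BlkL σ N ∧ Rep z (fun _ => 0) N (Pj * (mo a * fl) * Pj) := by
  set N : Matrix ι ι LP := fun i j => if j = σ i then
    LaurentPolynomial.C (β i * fourier (-1) (z i)) else 0 with hN
  refine ⟨N, fun l m h1 h2 => by rw [hN]; simp only; rw [if_neg h2], ?_⟩
  obtain ⟨Q, hQ1, hQ2, π, hπ⟩ := exists_quot (H := LL)
  obtain ⟨hd, hp⟩ := dat π hπ
  unfold Rep
  rw [← hπ, map_sub, map_add, map_OpL, sub_eq_zero]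
  have hc1 := fC1 Q (π Pj) (π fl) (fun a => π (mo a)) (fun s => π (tr s)) hd
  have hc6 := (fC6 Q (π Pj) (π fl) (fun a => π (mo a)) (fun s => π (tr s)) hd ι z hz a α β ha).1
  have hfp : π fl * π Pj = (1 - π Pj) * π fl :=
    (fR1 Q (π Pj) (π fl) (π (mo chi)) hd.pp hd.ff hd.fpf (by rw [← map_mul, chi_sq])
      (by rw [← map_mul, ← map_mul, fchi, map_sub, map_one])).2.2.2
  have hth : tH (π Pj) (π fl) (fun a => π (mo a)) = π Pj * π (mo kap) * (1 - π Pj) * π fl := by
    rw [hc1.2.2.2.2.2.2.2.2.2.1, mul_assoc (π Pj * π (mo kap)), hfp]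
    simp only [mul_assoc]
  have hz0 : π (mo fun _ => 0) = 0 := by
    rw [fO2.2.2.1, map_zero, map_zero]
  rw [map_mul, map_mul, map_mul, map_mul, map_mul, hz0, mul_zero, zero_mul, zero_add]
  have h1 : π Pj * (π (mo a) * π fl) * π Pj = (π Pj * π (mo a) * (1 - π Pj)) * π fl := by
    simp only [mul_assoc]
    rw [hfp]
  rw [h1, hc6, Finset.sum_mul]
  unfold Op
  refine Finset.sum_congr rfl fun i _ => ?_
  rw [Finset.sum_eq_single (σ i)]
  · have h2 : (π.comp Ph) (N i (σ i)) = algebraMap ℂ Q (β i * fourier (-1) (z i)) := by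
      rw [hN]
      simp only [if_true]
      rw [LaurentPolynomial.C_eq_algebraMap, AlgHom.commutes]
    rw [h2, hzσ, hth, smul_mul_assoc]
    have h3 : π (tr (z i)) * π fl = (fourier (-1) (z i) : ℂ) • (π fl * π (tr (-z i))) := hd.rf _
    calc β i • (π (tr (-z i)) * (π Pj * π (mo kap) * (1 - π Pj)) * π (tr (z i)) * π fl)
        = β i • (π (tr (-z i)) * (π Pj * π (mo kap) * (1 - π Pj)) * (π (tr (z i)) * π fl)) := by
          simp only [mul_assoc]
      _ = _ := by
          rw [h3, mul_smul_comm, smul_smul, ← Algebra.commutes, ← Algebra.smul_def]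
          simp only [smul_mul_assoc, mul_assoc]
  · intro j _ hj
    have h2 : N i j = 0 := by
      rw [hN]
      simp only
      rw [if_neg hj]
    rw [h2, map_zero, mul_zero, zero_mul, zero_mul]
  · simp

end

section
variable {H : Type} [NormedAddCommGroup H] [InnerProductSpace ℂ H] [CompleteSpace H]
variable {ι : Type} [Fintype ι] [DecidableEq ι] (b : HilbertBasis ℕ ℂ H)

/-- operators with a symbol -/
def Good (z : ι → TT) (σ : ι → ι) (T : H →L[ℂ] H) : Prop :=
  ∃ (a : TT → ℂ) (α β : ι → ℂ) (N : Matrix ι ι LP), Sym z a α β ∧ BlkL σ N ∧ Rep z a N (emb b T)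

variable {b} {z : ι → TT} {σ : ι → ι}

theorem rep_const (c : ℂ) : Rep z (fun _ => c) 0 (emb b (algebraMap ℂ (H →L[ℂ] H) c)) := by
  unfold Rep
  rw [emb_const, OpL_zero, add_zero, sub_self]
  exact PD.zero

theorem Good.const (c : ℂ) : Good b z σ (algebraMap ℂ (H →L[ℂ] H) c) :=
  ⟨_, _, _, 0, fF6.1 ι z c, fun _ _ _ _ => rfl, rep_const c⟩

theorem Good.of_pd {T : H →L[ℂ] H} (h : PD T) : Good b z σ T := by
  refine ⟨_, _, _, 0, fF6.1 ι z 0, fun _ _ _ _ => rfl, ?_⟩
  unfold Rep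
  rw [fO2.2.2.1, OpL_zero, add_zero, map_zero, mul_zero, zero_mul, sub_zero]
  exact emb_pd b h

theorem Good.add {S T : H →L[ℂ] H} (hS : Good b z σ S) (hT : Good b z σ T) :
    Good b z σ (S + T) := by
  obtain ⟨a, α, β, N, h1, h2, h3⟩ := hS
  obtain ⟨a', α', β', N', h1', h2', h3'⟩ := hT
  refine ⟨_, _, _, N + N', (fF6.2 ι z a a' α β α' β' h1 h1').2, h2.add h2', ?_⟩
  rw [emb_add]
  exact Rep.add h1 h1' h3 h3'

theorem Good.mul (hz : Function.Injective z) (hσ : ∀ i, σ (σ i) = i) {S T : H →L[ℂ] H}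
    (hS : Good b z σ S) (hT : Good b z σ T) : Good b z σ (S * T) := by
  obtain ⟨a, α, β, N, h1, h2, h3⟩ := hS
  obtain ⟨a', α', β', N', h1', h2', h3'⟩ := hT
  have hR := Rep.mul hz h1 h1' h3 h3'
  rw [← emb_mul] at hR
  exact ⟨_, _, _, _, (fF6.2 ι z a a' α β α' β' h1 h1').1,
    (((BlkL.diag σ _).add ((BlkL.diag σ _).mul hσ h2')).add (h2.mul hσ (BlkL.diag σ _))).add
      ((h2.mul hσ h2').smul _), hR⟩

theorem Good.toeplitz {a : TT → ℂ} {α β : ι → ℂ} (ha : Sym z a α β) {T : H →L[ℂ] H}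
    (hT : emb b T = Pj * mo a * Pj) : Good b z σ T := by
  refine ⟨a, α, β, 0, ha, fun _ _ _ _ => rfl, ?_⟩
  unfold Rep
  rw [hT, OpL_zero, add_zero, sub_self]
  exact PD.zero

theorem Good.hankel (hz : Function.Injective z) (hzσ : ∀ i, z (σ i) = -z i) {a : TT → ℂ}
    {α β : ι → ℂ} (ha : Sym z a α β) {T : H →L[ℂ] H}
    (hT : emb b T = Pj * (mo a * fl) * Pj) : Good b z σ T := by
  obtain ⟨N, hN, hR⟩ := rep_hankel hz hzσ ha
  refine ⟨_, _, _, N, fF6.1 ι z 0, hN, ?_⟩
  rw [hT]
  exact hR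

/-- products of shifted copies -/
theorem rep_list (hz : Function.Injective z) {a : TT → ℂ} {α β : ι → ℂ} {N : Matrix ι ι LP}
    (ha : Sym z a α β) {T : H →L[ℂ] H} (hT : Rep z a N (emb b T)) (l : List ℂ) :
    ∃ (a' : TT → ℂ) (α' β' : ι → ℂ) (N' : Matrix ι ι LP), Sym z a' α' β' ∧
      Rep z a' N' (emb b (l.map fun ω => T - algebraMap ℂ (H →L[ℂ] H) ω).prod) ∧
      ∀ x, a' x = (l.map fun ω => a x - ω).prod := by
  induction l with
  | nil =>
    refine ⟨fun _ => 1, _, _, 0, fF6.1 ι z 1, ?_, fun x => by simp⟩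
    have h := rep_const (z := z) (b := b) 1
    rw [map_one] at h
    exact h
  | cons ω l ih =>
    obtain ⟨a', α', β', N', h1, h2, h3⟩ := ih
    have hω := fF6.1 ι z (-ω)
    have h4 := (fF6.2 ι z a _ α β _ _ ha hω).2
    have h5 := Rep.add ha hω hT (rep_const (b := b) (-ω))
    have h6 := Rep.mul hz h4 h1 h5 h2
    rw [← emb_add, ← emb_mul, map_neg, ← sub_eq_add_neg] at h6
    exact ⟨_, _, _, _, (fF6.2 ι z _ _ _ _ _ _ h4 h1).1, h6, fun x => by
      rw [List.map_cons, List.prod_cons, ← h3, sub_eq_add_neg]⟩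

theorem loop_point (c : ℂ) : LoopSet {c} := by
  have h := lip_loop (LipschitzWith.const (α := ℝ) c) (le_refl (0 : ℝ))
  obtain ⟨γ, L, h1, h2, h3, h4⟩ := h
  refine ⟨γ, L, h1, h2, h3, fun x hx => h4 ?_⟩
  rw [Set.mem_singleton_iff] at hx
  exact ⟨0, ⟨le_rfl, le_rfl⟩, hx.symm⟩

/-- products of operators with growth -/
theorem gr_prod {G N : Type} [NormedAddCommGroup G] [NormedSpace ℂ G] [CompleteSpace G]
    [NormedAddCommGroup N] [NormedSpace ℂ N] [CompleteSpace N] {E : Set ℂ} (hEc : IsClosed E)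
    (hEne : E.Nonempty) {A : G →L[ℂ] G} {B : N →L[ℂ] N} (hA : Gr E A) (hB : Gr E B) :
    Gr E (A.prodMap B : G × N →L[ℂ] G × N) := by
  obtain ⟨hA, C, k, hC⟩ := hA
  obtain ⟨hB, C', k', hC'⟩ := hB
  have key : ∀ z, z ∉ E → z ∈ resolventSet ℂ (A.prodMap B : G × N →L[ℂ] G × N) ∧
      ‖resolvent (A.prodMap B : G × N →L[ℂ] G × N) z‖ ≤ ‖resolvent A z‖ + ‖resolvent B z‖ := by
    intro z hz
    obtain ⟨s1, s2⟩ := res_apply (hA z hz)
    obtain ⟨t1, t2⟩ := res_apply (hB z hz)
    set R : G × N →L[ℂ] G × N := (resolvent A z).prodMap (resolvent B z) with hR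
    have h1 : (algebraMap ℂ (G × N →L[ℂ] G × N) z - A.prodMap B) * R = 1 := by
      rw [Algebra.algebraMap_eq_smul_one]
      exact ContinuousLinearMap.ext fun x => Prod.ext (s1 x.1) (t1 x.2)
    have h2 : R * (algebraMap ℂ (G × N →L[ℂ] G × N) z - A.prodMap B) = 1 := by
      rw [Algebra.algebraMap_eq_smul_one]
      exact ContinuousLinearMap.ext fun x => Prod.ext (s2 x.1) (t2 x.2)
    have hu : IsUnit (algebraMap ℂ (G × N →L[ℂ] G × N) z - A.prodMap B) := ⟨⟨_, _, h1, h2⟩, rfl⟩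
    refine ⟨hu, ?_⟩
    have h3 : resolvent (A.prodMap B) z = R := by
      unfold resolvent
      calc Ring.inverse (algebraMap ℂ (G × N →L[ℂ] G × N) z - A.prodMap B) =
            Ring.inverse (algebraMap ℂ (G × N →L[ℂ] G × N) z - A.prodMap B) *
              ((algebraMap ℂ (G × N →L[ℂ] G × N) z - A.prodMap B) * R) := by rw [h1, mul_one]
        _ = R := by rw [← mul_assoc, Ring.inverse_mul_cancel _ hu, one_mul]
    rw [h3]
    refine ContinuousLinearMap.opNorm_le_bound _ (by positivity) fun x => ?_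
    rw [Prod.norm_def]
    have u1 := (resolvent A z).le_opNorm x.1
    have u2 := (resolvent B z).le_opNorm x.2
    have v1 : ‖resolvent A z‖ * ‖x.1‖ ≤ ‖resolvent A z‖ * ‖x‖ := by
      gcongr
      exact norm_fst_le x
    have v2 : ‖resolvent B z‖ * ‖x.2‖ ≤ ‖resolvent B z‖ * ‖x‖ := by
      gcongr
      exact norm_snd_le x
    have w1 : 0 ≤ ‖resolvent A z‖ * ‖x‖ := by positivity
    have w2 : 0 ≤ ‖resolvent B z‖ * ‖x‖ := by positivity
    refine max_le ?_ ?_
    · change ‖resolvent A z x.1‖ ≤ _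
      nlinarith
    · change ‖resolvent B z x.2‖ ≤ _
      nlinarith
  refine ⟨fun z hz => (key z hz).1, |C| + |C'|, k + k', fun z hz hz1 => ?_⟩
  have hd : 0 < infDist z E := (hEc.notMem_iff_infDist_pos hEne).1 hz
  refine (key z hz).2.trans ?_
  set d := infDist z E with hdd
  have h1 : ‖resolvent A z‖ ≤ |C| / d ^ (k + k') := by
    refine (hC z hz hz1).trans ?_
    refine (div_le_div_of_nonneg_right (le_abs_self C) (by positivity)).trans ?_
    exact div_le_div_of_nonneg_left (abs_nonneg _) (by positivity)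
      (pow_le_pow_of_le_one hd.le hz1 (by omega))
  have h2 : ‖resolvent B z‖ ≤ |C'| / d ^ (k + k') := by
    refine (hC' z hz hz1).trans ?_
    refine (div_le_div_of_nonneg_right (le_abs_self C') (by positivity)).trans ?_
    exact div_le_div_of_nonneg_left (abs_nonneg _) (by positivity)
      (pow_le_pow_of_le_one hd.le hz1 (by omega))
  rw [add_div]
  exact add_le_add h1 h2

/-- a row of operators -/
noncomputable def row (A : ι → (LL →L[ℂ] LL)) : GG LL ι →L[ℂ] LL :=
  ∑ j, (A j).comp ((ContinuousLinearMap.proj j).comp (ee LL ι : GG LL ι →L[ℂ] (ι → LL)))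

theorem row_stack (A B : ι → (LL →L[ℂ] LL)) : (row A).comp (stack B) = ∑ j, A j * B j := by
  ext1 x
  have h1 : ((row A).comp (stack B)) x = row A (stack B x) := rfl
  rw [h1]
  unfold row
  rw [_root_.sum_apply, _root_.sum_apply]
  rfl

theorem prod_flat (α β : ι → ℂ) (y : ℂ) :
    (((Finset.univ : Finset ι).toList.flatMap fun i => [α i, α i + β i]).map fun ω => y - ω).prod =
      ∏ i, ((y - α i) * (y - (α i + β i))) := by
  rw [← Finset.prod_map_toList]
  generalize (Finset.univ : Finset ι).toList = l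
  induction l with
  | nil => simp
  | cons i l ih =>
    rw [List.flatMap_cons, List.map_append, List.prod_append, ih, List.map_cons, List.prod_cons]
    congr 1
    simp

/-- **the theorem** -/
theorem Good.final [Nonempty ι] (hz : Function.Injective z) (hσ : ∀ i, σ (σ i) = i)
    {T : H →L[ℂ] H} (hT : Good b z σ T) :
    (IsScalar T ∨ HasHyp T) ∧ (Reductive T → IsStarNormal T) := by
  obtain ⟨a, α, β, N, hs, hN, hR⟩ := hT
  have hma : MB a := fF5 _ a (Set.finite_range z) hs.pl hs.bo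
  set F : Matrix ι ι LP := DD aaL α β + gaL • N with hF
  have hFb : BlkL σ F := (BlkL.diag σ _).add (hN.smul _)
  -- the curve
  obtain ⟨κ, hκ, c, hc1, hc2⟩ := fF10 ι z hz a α β hs
  have l1 : LoopSet (⋃ i ∈ (Finset.univ : Finset κ), c i '' Icc 0 1) := by
    refine loop_union _ _ fun i _ => ?_
    obtain ⟨L, hL⟩ := hc1 i
    exact lip_loop hL zero_le_one
  have l2 : LoopSet (⋃ i ∈ (Finset.univ : Finset ι), ({α i} ∪ {α i + β i})) :=
    loop_union _ _ fun i _ => (loop_point _).union (loop_point _)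
  obtain ⟨γ, L₀, hγ, -, -, hsub⟩ := (l1.union l2).union (leaf_D3 ι σ hσ F hFb)
  set E : Set ℂ := γ '' Set.Icc 0 1 with hE
  have hEc : IsCompact E := isCompact_Icc.image hγ.continuous
  have hEne : E.Nonempty := ⟨γ 0, 0, by simp, rfl⟩
  have haE : ∀ x, a x ∈ E := by
    intro x
    obtain ⟨i, t, ht, hx⟩ := hc2 x
    exact hsub (Or.inl (Or.inl (Set.mem_biUnion (Finset.mem_coe.2 (Finset.mem_univ i))
      ⟨t, ht, hx.symm⟩)))
  -- growth
  have g1 : Gr E (mo a) := by
    refine ⟨fun z hz => (fD1 a hma E hEc.isClosed hEne haE z hz).1, 1, 1, fun z hz _ => ?_⟩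
    rw [pow_one]
    exact (fD1 a hma E hEc.isClosed hEne haE z hz).2
  have g2 : Gr E (mop (F.map Ph)) := by
    refine uni_growth star_Uo F hEc hEne fun t ht r hr => ?_
    exact hsub (Or.inr ⟨t, ht, hr⟩)
  have g3 := gr_prod hEc.isClosed hEne g1 g2
  -- the list
  set l : List ℂ := (Finset.univ : Finset ι).toList.flatMap fun i => [α i, α i + β i] with hl
  have hlne : l ≠ [] := by
    obtain ⟨i⟩ := ‹Nonempty ι›
    have h1 : α i ∈ l := by
      rw [hl, List.mem_flatMap]
      exact ⟨i, by simp, by simp⟩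
    exact List.ne_nil_of_mem h1
  have hlE : ∀ ω ∈ l, ω ∈ E := by
    intro ω hω
    rw [hl, List.mem_flatMap] at hω
    obtain ⟨i, -, hi⟩ := hω
    refine hsub (Or.inl (Or.inr (Set.mem_biUnion (Finset.mem_coe.2 (Finset.mem_univ i)) ?_)))
    rw [List.mem_cons, List.mem_singleton] at hi
    exact hi
  obtain ⟨a', α', β', N', hs', hR', ha'⟩ := rep_list hz hs hR l
  obtain ⟨hu1, hu2, a'', ha''1, ha''2⟩ := fF9 ι z a α β hs
  have hmu : MB (uu z) := fF1.2.2.2.2.2.2.1 _ hu1
  have hau : mo a' = mo a'' * mo (uu z) := by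
    rw [← fO2.1 _ _ ha''1 hmu]
    congr 1
    funext x
    rw [ha', prod_flat, ha''2]
  -- the maps
  set Θ : LL →L[ℂ] LL := tH Pj fl mo with hΘ
  set J : H →L[ℂ] LL × GG LL ι := ((mo (uu z)).comp (Ve b)).prod
    ((stack fun i => Θ * tr (z i)).comp (Ve b)) with hJ
  set L : LL × GG LL ι →L[ℂ] H := (Va b).comp ((mo a'').comp (ContinuousLinearMap.fst ℂ LL (GG LL ι)) +
    (row fun j => ∑ i, tr (-z i) * Ph (N' i j)).comp (ContinuousLinearMap.snd ℂ LL (GG LL ι))) with hL
  refine hyp_main hγ g3 (J := J) (L := L) ?_ hlne hlE ?_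
  · -- the intertwining relation
    obtain ⟨Q, hQ1, hQ2, π, hπ⟩ := exists_quot (H := LL)
    obtain ⟨hd, hp⟩ := dat π hπ
    have hX : π (emb b T) = π Pj * π (mo a) * π Pj +
        Op (π Pj) (π fl) (fun a => π (mo a)) (fun s => π (tr s)) (π.comp Ph) z N := by
      unfold Rep at hR
      rw [← hπ, map_sub, map_add, map_OpL, sub_eq_zero, map_mul, map_mul] at hR
      exact hR
    have hΘπ : π Θ = tH (π Pj) (π fl) (fun a => π (mo a)) := by
      rw [hΘ]
      unfold tH tG
      simp only [map_mul]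
    have hfirst : PD (mo a * mo (uu z) * Pj - mo (uu z) * emb b T) := by
      rw [← hπ, map_sub, map_mul, map_mul, map_mul, hX, sub_eq_zero]
      have h := fC10 Q LP (π Pj) (π fl) (fun a => π (mo a)) (fun s => π (tr s)) (π.comp Ph) aaL gaL
        hd hp ι z hz a α β hs N (uu z) hu1 hu2
      rw [h, mul_assoc]
    have hsecond : ∀ i, PD (∑ j, (F.map Ph) i j * (Θ * tr (z j)) - Θ * tr (z i) * emb b T) := by
      intro i
      rw [← hπ, map_sub, map_sum, map_mul, map_mul, hX, hΘπ, sub_eq_zero]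
      have h := fC9 Q LP (π Pj) (π fl) (fun a => π (mo a)) (fun s => π (tr s)) (π.comp Ph) aaL gaL
        hd hp ι z hz a α β hs N i
      rw [h]
      refine Finset.sum_congr rfl fun j _ => ?_
      rw [map_mul, map_mul, hΘπ]
      rfl
    have e : ((mo a).prodMap (mop (F.map Ph)) : LL × GG LL ι →L[ℂ] LL × GG LL ι).comp J - J.comp T =
        ((mo a * mo (uu z) * Pj - mo (uu z) * emb b T).comp (Ve b)).prod
          ((stack fun i => (∑ j, (F.map Ph) i j * (Θ * tr (z j)) - Θ * tr (z i) * emb b T)).comp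
            (Ve b)) := by
      have hEV : ∀ x, emb b T (Ve b x) = Ve b (T x) := fun x =>
        congrArg (fun A : H →L[ℂ] LL => A x) (emb_Ve b T)
      have hPV : ∀ x, Pj (Ve b x) = Ve b x := fun x =>
        congrArg (fun A : H →L[ℂ] LL => A x) (Pj_Ve b)
      refine ContinuousLinearMap.ext fun x => Prod.ext ?_ ?_
      · change mo a (mo (uu z) (Ve b x)) - mo (uu z) (Ve b (T x)) =
          mo a (mo (uu z) (Pj (Ve b x))) - mo (uu z) (emb b T (Ve b x))
        rw [hEV, hPV]
      · change mop (F.map Ph) ((stack fun i => Θ * tr (z i)) (Ve b x)) -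
          (stack fun i => Θ * tr (z i)) (Ve b (T x)) = (stack fun i =>
            (∑ j, (F.map Ph) i j * (Θ * tr (z j)) - Θ * tr (z i) * emb b T)) (Ve b x)
        ext1 i
        have e1 : (mop (F.map Ph) ((stack fun i => Θ * tr (z i)) (Ve b x)) -
          (stack fun i => Θ * tr (z i)) (Ve b (T x)) : GG LL ι) i =
          mop (F.map Ph) ((stack fun i => Θ * tr (z i)) (Ve b x)) i -
            (Θ * tr (z i)) (Ve b (T x)) := rfl
        rw [e1, mop_apply, stack_apply, _root_.sub_apply, _root_.sum_apply, ← hEV]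
        rfl
    rw [e]
    refine PN.prod ?_ ?_
    · exact PN.comp_right hfirst _
    · exact PN.comp_right (PD.stack hsecond) _
  · -- the left inverse
    unfold Rep at hR'
    rw [hau] at hR'
    set Y := (l.map fun ω => T - algebraMap ℂ (H →L[ℂ] H) ω).prod with hY
    have e1 : L.comp J = (Va b).comp ((mo a'' * mo (uu z) + OpL z N').comp (Ve b)) := by
      have h1 : L.comp J = (Va b).comp ((mo a'' * mo (uu z) +
          (row fun j => ∑ i, tr (-z i) * Ph (N' i j)).comp (stack fun i => Θ * tr (z i))).comp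
            (Ve b)) := rfl
      rw [h1, row_stack]
      congr 3
      unfold OpL Op
      rw [Finset.sum_comm]
      refine Finset.sum_congr rfl fun j _ => ?_
      rw [Finset.sum_mul]
      refine Finset.sum_congr rfl fun i _ => ?_
      simp only [mul_assoc]
      rfl
    have e2 : L.comp J - Y = -((Va b).comp ((emb b Y - (Pj * (mo a'' * mo (uu z)) * Pj +
        OpL z N')).comp (Ve b))) := by
      rw [e1]
      ext1 x
      have hPV : ∀ x, Pj (Ve b x) = Ve b x := fun x =>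
        congrArg (fun A : H →L[ℂ] LL => A x) (Pj_Ve b)
      have hVP : ∀ y, Va b (Pj y) = Va b y := fun y =>
        congrArg (fun A : LL →L[ℂ] H => A y) (Va_Pj b)
      have hEV : ∀ x, emb b Y (Ve b x) = Ve b (Y x) := fun x =>
        congrArg (fun A : H →L[ℂ] LL => A x) (emb_Ve b Y)
      change Va b (mo a'' (mo (uu z) (Ve b x)) + OpL z N' (Ve b x)) - Y x =
        -(Va b (emb b Y (Ve b x) - (Pj (mo a'' (mo (uu z) (Pj (Ve b x)))) + OpL z N' (Ve b x))))
      rw [hEV, map_sub, map_add, map_add, hVP, hPV, Va_Ve', neg_sub]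
    rw [e2]
    exact PN.neg (PN.comp_left (PN.comp_right hR' _) _)

end

end Pool.Agent.H259.PC
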