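import Pool.Agent.H259.PC.Q

/-!
# Operators with a symbol
-/

set_option autoImplicit false
set_option linter.unusedSectionVars false

open MeasureTheory Set
open scoped ComplexConjugate InnerProductSpace

namespace Pool.Agent.H259.PC

open Pool.Agent.H259.RH

section
variable {ι : Type} [Fintype ι] [DecidableEq ι]

/-- the operator with the local symbol `N` -/
noncomputable def OpL (z : ι → TT) (N : Matrix ι ι LP) : LL →L[ℂ] LL := Op Pj fl mo tr Ph z N

theorem map_OpL {Q : Type} [Ring Q] [Algebra ℂ Q] (π : (LL →L[ℂ] LL) →ₐ[ℂ] Q) (z : ι → TT)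
    (N : Matrix ι ι LP) : π (OpL z N) =
      Op (π Pj) (π fl) (fun a => π (mo a)) (fun s => π (tr s)) (π.comp Ph) z N := by
  unfold OpL Op tH tG
  rw [map_sum]
  refine Finset.sum_congr rfl fun i _ => ?_
  rw [map_sum]
  refine Finset.sum_congr rfl fun j _ => ?_
  simp only [map_mul]
  rfl

theorem OpL_add (z : ι → TT) (N M : Matrix ι ι LP) : OpL z (N + M) = OpL z N + OpL z M := by
  unfold OpL Op
  simp only [Matrix.add_apply, map_add, mul_add, add_mul, Finset.sum_add_distrib]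

theorem OpL_zero (z : ι → TT) : OpL z 0 = 0 := by
  unfold OpL Op
  simp

/-- `X` has the symbol `a`, `N` -/
def Rep (z : ι → TT) (a : TT → ℂ) (N : Matrix ι ι LP) (X : LL →L[ℂ] LL) : Prop :=
  PD (X - (Pj * mo a * Pj + OpL z N))

theorem Rep.mul {z : ι → TT} (hz : Function.Injective z) {a b : TT → ℂ} {α β α' β' : ι → ℂ}
    (ha : Sym z a α β) (hb : Sym z b α' β') {N M : Matrix ι ι LP} {X Y : LL →L[ℂ] LL}
    (hX : Rep z a N X) (hY : Rep z b M Y) : Rep z (fun x => a x * b x)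
      ((Matrix.diagonal fun i => (β i * β' i) • gaL) + DD aaL α β * M + N * DD aaL α' β' +
            gaL • (N * M)) (X * Y) := by
  obtain ⟨Q, hQ1, hQ2, π, hπ⟩ := exists_quot (H := LL)
  obtain ⟨hd, hp⟩ := dat π hπ
  unfold Rep at hX hY ⊢
  rw [← hπ, map_sub, map_add, map_OpL, sub_eq_zero] at hX hY ⊢
  rw [map_mul, hX, hY]
  have h := fC8 Q LP (π Pj) (π fl) (fun a => π (mo a)) (fun s => π (tr s)) (π.comp Ph) aaL gaL
    hd hp ι z hz a b α β α' β' ha hb N M
  simp only [map_mul] at h ⊢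
  exact h

theorem Rep.add {z : ι → TT} {a b : TT → ℂ} {α β α' β' : ι → ℂ}
    (ha : Sym z a α β) (hb : Sym z b α' β') {N M : Matrix ι ι LP} {X Y : LL →L[ℂ] LL}
    (hX : Rep z a N X) (hY : Rep z b M Y) : Rep z (fun x => a x + b x) (N + M) (X + Y) := by
  have hma : MB a := fF5 _ a (Set.finite_range z) ha.pl ha.bo
  have hmb : MB b := fF5 _ b (Set.finite_range z) hb.pl hb.bo
  unfold Rep at hX hY ⊢
  rw [OpL_add, fO2.2.1 a b hma hmb]
  have e : X + Y - (Pj * (mo a + mo b) * Pj + (OpL z N + OpL z M)) =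
      (X - (Pj * mo a * Pj + OpL z N)) + (Y - (Pj * mo b * Pj + OpL z M)) := by
    noncomm_ring
  rw [e]
  exact hX.add hY

/-- two by two blocks -/
def BlkL (σ : ι → ι) (F : Matrix ι ι LP) : Prop := ∀ l m, m ≠ l → m ≠ σ l → F l m = 0

theorem BlkL.mul {σ : ι → ι} (hσ : ∀ l, σ (σ l) = l) {F G : Matrix ι ι LP} (hF : BlkL σ F)
    (hG : BlkL σ G) : BlkL σ (F * G) := by
  intro l m h1 h2
  rw [Matrix.mul_apply]
  refine Finset.sum_eq_zero fun j _ => ?_
  by_cases hj1 : j = l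
  · subst hj1
    rw [hG j m h1 h2, mul_zero]
  · by_cases hj2 : j = σ l
    · subst hj2
      rw [hG (σ l) m h2 (by rw [hσ]; exact h1), mul_zero]
    · rw [hF l j hj1 hj2, zero_mul]

theorem BlkL.diag (σ : ι → ι) (d : ι → LP) : BlkL σ (Matrix.diagonal d) :=
  fun _ _ h1 _ => Matrix.diagonal_apply_ne _ (Ne.symm h1)

theorem BlkL.add {σ : ι → ι} {F G : Matrix ι ι LP} (hF : BlkL σ F) (hG : BlkL σ G) :
    BlkL σ (F + G) := by
  intro l m h1 h2
  rw [Matrix.add_apply, hF l m h1 h2, hG l m h1 h2, add_zero]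

theorem BlkL.smul {σ : ι → ι} (c : LP) {F : Matrix ι ι LP} (hF : BlkL σ F) : BlkL σ (c • F) := by
  intro l m h1 h2
  rw [Matrix.smul_apply, hF l m h1 h2, smul_zero]

end

section
variable {H : Type} [NormedAddCommGroup H] [InnerProductSpace ℂ H] [CompleteSpace H]

/-- the embedding of `H` as the Hardy space -/
noncomputable def Ve (b : HilbertBasis ℕ ℂ H) : H →L[ℂ] LL :=
  (exists_isom b (v := fun n : ℕ => eb (n : ℤ))
    (eb.orthonormal.comp _ Nat.cast_injective)).choose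

variable (b : HilbertBasis ℕ ℂ H)

theorem Ve_norm (x : H) : ‖Ve b x‖ = ‖x‖ :=
  (exists_isom b (v := fun n : ℕ => eb (n : ℤ))
    (eb.orthonormal.comp _ Nat.cast_injective)).choose_spec.1 x

theorem Ve_b (i : ℕ) : Ve b (b i) = en (i : ℤ) := by
  have h := (exists_isom b (v := fun n : ℕ => eb (n : ℤ))
    (eb.orthonormal.comp _ Nat.cast_injective)).choose_spec.2 i
  exact h.trans (eb_apply _)

/-- the adjoint -/
noncomputable def Va : LL →L[ℂ] H := ContinuousLinearMap.adjoint (Ve b)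

theorem Va_Ve : (Va b).comp (Ve b) = 1 := by
  refine (Ve b).norm_map_iff_adjoint_comp_self.1 (Ve_norm b)

theorem Va_Ve' (x : H) : Va b (Ve b x) = x := congrArg (fun A : H →L[ℂ] H => A x) (Va_Ve b)

theorem inner_en (m n : ℤ) : ⟪en m, en n⟫_ℂ = if m = n then 1 else 0 := by
  rw [← eb_apply, ← eb_apply]
  exact orthonormal_iff_ite.1 eb.orthonormal m n

theorem Va_en (n : ℤ) : Va b (en n) = if 0 ≤ n then b n.toNat else 0 := by
  refine ext_inner b fun i => ?_
  unfold Va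
  rw [ContinuousLinearMap.adjoint_inner_right, Ve_b, inner_en]
  split_ifs with h1 h2 h2
  · rw [← h1]
    simp only [Int.toNat_natCast]
    have h := orthonormal_iff_ite.1 b.orthonormal i i
    rw [h, if_pos rfl]
  · omega
  · have h := orthonormal_iff_ite.1 b.orthonormal i n.toNat
    rw [h, if_neg]
    omega
  · rw [inner_zero_right]

theorem Ve_Va : (Ve b).comp (Va b) = Pj := by
  refine ext_basis eb fun n => ?_
  rw [eb_apply, fO5.1 n]
  change Ve b (Va b (en n)) = _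
  rw [Va_en]
  split_ifs with h
  · rw [Ve_b, Int.toNat_of_nonneg h]
  · rw [map_zero]

/-- `H` embedded -/
noncomputable def emb (T : H →L[ℂ] H) : LL →L[ℂ] LL := (Ve b).comp (T.comp (Va b))

theorem emb_mul (S T : H →L[ℂ] H) : emb b (S * T) = emb b S * emb b T := by
  ext1 x
  change Ve b (S (T (Va b x))) = Ve b (S (Va b (Ve b (T (Va b x)))))
  rw [Va_Ve']

theorem emb_add (S T : H →L[ℂ] H) : emb b (S + T) = emb b S + emb b T := by
  ext1 x
  exact map_add (Ve b) _ _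

theorem emb_const (c : ℂ) : emb b (algebraMap ℂ (H →L[ℂ] H) c) = Pj * mo (fun _ => c) * Pj := by
  rw [fO2.2.2.1, Algebra.algebraMap_eq_smul_one, Algebra.algebraMap_eq_smul_one, mul_smul_comm,
    mul_one, smul_mul_assoc, fO5.2.1, ← Ve_Va b]
  ext1 x
  change Ve b (c • Va b x) = c • Ve b (Va b x)
  rw [map_smul]

theorem emb_pd {T : H →L[ℂ] H} (h : PD T) : PD (emb b T) := (h.comp_right _).comp_left _

theorem Pj_Ve : Pj.comp (Ve b) = Ve b := by
  rw [← Ve_Va b]
  ext1 x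
  change Ve b (Va b (Ve b x)) = Ve b x
  rw [Va_Ve']

theorem Va_Pj : (Va b).comp Pj = Va b := by
  rw [← Ve_Va b]
  ext1 x
  change Va b (Ve b (Va b x)) = Va b x
  rw [Va_Ve']

theorem emb_Ve (T : H →L[ℂ] H) : (emb b T).comp (Ve b) = (Ve b).comp T := by
  ext1 x
  change Ve b (T (Va b (Ve b x))) = Ve b (T x)
  rw [Va_Ve']

theorem emb_entry (T : H →L[ℂ] H) (i j : ℕ) :
    ⟪en (i : ℤ), emb b T (en (j : ℤ))⟫_ℂ = ⟪b i, T (b j)⟫_ℂ := by
  have h1 : Va b (en (j : ℤ)) = b j := by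
    rw [Va_en, if_pos (Int.natCast_nonneg j), Int.toNat_natCast]
  change ⟪en (i : ℤ), Ve b (T (Va b (en (j : ℤ))))⟫_ℂ = _
  rw [h1, ← ContinuousLinearMap.adjoint_inner_left]
  change ⟪Va b (en (i : ℤ)), _⟫_ℂ = _
  rw [Va_en, if_pos (Int.natCast_nonneg i), Int.toNat_natCast]

/-- an operator is determined by its corner -/
theorem corner {X : LL →L[ℂ] LL} {T : H →L[ℂ] H}
    (h : ∀ i j : ℕ, ⟪b i, T (b j)⟫_ℂ = ⟪en (i : ℤ), X (en (j : ℤ))⟫_ℂ) :
    emb b T = Pj * X * Pj := by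
  refine ext_basis eb fun n => ext_inner eb fun m => ?_
  rw [eb_apply, eb_apply]
  have e1 : ⟪en m, (Pj * X * Pj) (en n)⟫_ℂ = ⟪Pj (en m), X (Pj (en n))⟫_ℂ := by
    rw [← ContinuousLinearMap.adjoint_inner_right, fO5.2.2.1]
    rfl
  rw [e1, fO5.1, fO5.1]
  by_cases hm : 0 ≤ m
  · by_cases hn : 0 ≤ n
    · obtain ⟨i, rfl⟩ := Int.eq_ofNat_of_zero_le hm
      obtain ⟨j, rfl⟩ := Int.eq_ofNat_of_zero_le hn
      rw [if_pos hm, if_pos hn, ← h]
      exact emb_entry b T i j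
    · rw [if_neg hn, map_zero, inner_zero_right]
      have h1 : emb b T (en n) = 0 := by
        change Ve b (T (Va b (en n))) = 0
        rw [Va_en, if_neg hn, map_zero, map_zero]
      rw [h1, inner_zero_right]
  · rw [if_neg hm, inner_zero_left]
    change ⟪en m, Ve b (T (Va b (en n)))⟫_ℂ = 0
    rw [← ContinuousLinearMap.adjoint_inner_left]
    change ⟪Va b (en m), _⟫_ℂ = 0
    rw [Va_en, if_neg hm, inner_zero_left]

theorem toeplitz {a : TT → ℂ} (ha : MB a) {T : H →L[ℂ] H}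
    (h : ∀ i j : ℕ, ⟪b i, T (b j)⟫_ℂ = fourierCoeff a ((i : ℤ) - j)) :
    emb b T = Pj * mo a * Pj := by
  refine corner b fun i j => ?_
  rw [h, fO7 a ha]

theorem hankel {a : TT → ℂ} (ha : MB a) {T : H →L[ℂ] H}
    (h : ∀ i j : ℕ, ⟪b i, T (b j)⟫_ℂ = fourierCoeff a ((i : ℤ) + j + 1)) :
    emb b T = Pj * (mo a * fl) * Pj := by
  refine corner b fun i j => ?_
  change _ = ⟪en (i : ℤ), mo a (fl (en (j : ℤ)))⟫_ℂ
  rw [h, fO4.2.2.2.1, fO7 a ha]
  congr 1
  ring

end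

end Pool.Agent.H259.PC
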