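import Pool.Agent.H259.HA.Fin

/-!
# Laurent polynomials in a unit
-/

set_option autoImplicit false
set_option linter.unusedSectionVars false

open Polynomial

namespace Pool.Agent.H259.PC

/-- Laurent polynomials -/
abbrev LP : Type := LaurentPolynomial ℂ

section
variable {A : Type} [Ring A] [Algebra ℂ A]

/-- evaluation at a unit -/
noncomputable def evL (u : Aˣ) : LP →ₐ[ℂ] A :=
  AddMonoidAlgebra.lift ℂ A ℤ ((Units.coeHom A).comp (zpowersHom Aˣ u))

theorem evL_T (u : Aˣ) (n : ℤ) : evL u (LaurentPolynomial.T n) = ((u ^ n : Aˣ) : A) := by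
  unfold evL LaurentPolynomial.T
  rw [AddMonoidAlgebra.lift_single, one_smul]
  rfl

theorem evL_C (u : Aˣ) (c : ℂ) : evL u (LaurentPolynomial.C c) = algebraMap ℂ A c := by
  rw [LaurentPolynomial.C_eq_algebraMap, AlgHom.commutes]

theorem evL_smulT (u : Aˣ) (c : ℂ) (n : ℤ) :
    evL u (LaurentPolynomial.C c * LaurentPolynomial.T n) = c • ((u ^ n : Aˣ) : A) := by
  rw [map_mul, evL_C, evL_T, Algebra.smul_def]

theorem comm_evL {y : A} {u : Aˣ} (h : y * (u : A) = u * y) (x : LP) : y * evL u x = evL u x * y := by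
  have h1 : Commute y (u : A) := h
  induction x using LaurentPolynomial.induction_on' with
  | add p q hp hq => rw [map_add, mul_add, add_mul, hp, hq]
  | C_mul_T n a =>
    rw [evL_smulT, mul_smul_comm, smul_mul_assoc]
    congr 1
    exact (h1.units_zpow_right n)

theorem evL_poly (u : Aˣ) (p : ℂ[X]) : evL u (toLaurent p) = aeval (u : A) p := by
  induction p using Polynomial.induction_on' with
  | add p q hp hq => rw [map_add, map_add, hp, hq, map_add]
  | monomial n a =>
    rw [← C_mul_X_pow_eq_monomial, Polynomial.toLaurent_C_mul_X_pow, evL_smulT, map_mul, aeval_C,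
      map_pow, aeval_X, Algebra.smul_def, zpow_natCast, Units.val_pow_eq_pow_val]

end

/-- the Toeplitz element -/
noncomputable def aaL : LP :=
  LaurentPolynomial.C (1 / 4) * (2 - LaurentPolynomial.T 1 - LaurentPolynomial.T (-1))

/-- the Hankel element -/
noncomputable def gaL : LP :=
  LaurentPolynomial.C (1 / 4) * (LaurentPolynomial.T 1 - LaurentPolynomial.T (-1))

theorem aa_ga : aaL * aaL = aaL + gaL * gaL := by
  have h1 : (LaurentPolynomial.T 1 : LP) * LaurentPolynomial.T (-1) = 1 := by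
    rw [← LaurentPolynomial.T_add]; simp
  have h2 : (LaurentPolynomial.C (1 / 4) : LP) * 4 = 1 := by
    rw [show (4 : LP) = LaurentPolynomial.C 4 from (map_ofNat _ 4).symm, ← map_mul]
    norm_num
  unfold aaL gaL
  set t : LP := LaurentPolynomial.T 1
  set s : LP := LaurentPolynomial.T (-1)
  set q : LP := LaurentPolynomial.C (1 / 4)
  linear_combination (q * (2 - t - s)) * h2 + (4 * q * q) * h1

theorem aa_U {A : Type} [Ring A] [Algebra ℂ A] {u : Aˣ} {a g : A} (h1 : (u : A) = 1 - 2 • a + 2 • g)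
    (h2 : ((u⁻¹ : Aˣ) : A) = 1 - 2 • a - 2 • g) : evL u aaL = a ∧ evL u gaL = g := by
  have h3 : evL u (2 : LP) = 2 := map_ofNat _ 2
  unfold aaL gaL
  rw [map_mul, map_mul, evL_C, map_sub, map_sub, map_sub, evL_T, evL_T, zpow_one, zpow_neg_one, h3,
    h1, h2]
  have e1 : (2 : A) - (1 - 2 • a + 2 • g) - (1 - 2 • a - 2 • g) = (4 : ℂ) • a := by
    rw [show (4 : ℂ) • a = 4 • a by rw [← Nat.cast_smul_eq_nsmul ℂ]; norm_num]
    have : (2 : A) = 1 + 1 := by norm_num
    rw [this]
    abel
  have e2 : (1 - 2 • a + 2 • g) - (1 - 2 • a - 2 • g) = (4 : ℂ) • g := by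
    rw [show (4 : ℂ) • g = 4 • g by rw [← Nat.cast_smul_eq_nsmul ℂ]; norm_num]
    abel
  rw [e1, e2, ← Algebra.smul_def, ← Algebra.smul_def, smul_smul, smul_smul]
  norm_num

/-- commuting with the generators -/
theorem comm_ag {A : Type} [Ring A] [Algebra ℂ A] {u : Aˣ} {a g : A}
    (h1 : (u : A) = 1 - 2 • a + 2 • g) {y : A} (ha : y * a = a * y) (hg : y * g = g * y) (x : LP) :
    y * evL u x = evL u x * y := by
  refine comm_evL ?_ x
  rw [h1]
  have e1 : Commute y a := ha
  have e2 : Commute y g := hg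
  exact ((Commute.one_right y).sub_right (e1.smul_right 2)).add_right (e2.smul_right 2)

end Pool.Agent.H259.PC
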