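import Pool.Agent.H259.PC.Fin

/-!
# The algebra generated by Toeplitz and Hankel operators
-/

set_option autoImplicit false
set_option linter.unusedSectionVars false

open MeasureTheory Set
open scoped ComplexConjugate InnerProductSpace

namespace Pool.Agent.H259.PC

open Pool.Agent.H259.RH Pool.Agent.W402.HI Pool.Agent.W706.HIR Pool.Agent.K4H63.RC
  Pool.Agent.K4H63.RD

variable {H : Type} [NormedAddCommGroup H] [InnerProductSpace ℂ H] [CompleteSpace H]

theorem PL.mono {F G : Set TT} (h : F ⊆ G) {a : TT → ℂ} (ha : PL F a) : PL G a := by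
  obtain ⟨L, hL⟩ := ha
  exact ⟨L, fun x y hxy hz => hL x y hxy fun z hz' hF => hz z hz' (h hF)⟩

/-- the generators -/
def Gen (b : HilbertBasis ℕ ℂ H) (F : Finset TT) (T : H →L[ℂ] H) : Prop :=
  PD T ∨ ∃ a : TT → ℂ, PL (F : Set TT) a ∧ Bo a ∧
    ((∀ i j : ℕ, ⟪b i, T (b j)⟫_ℂ = fourierCoeff a ((i : ℤ) - j)) ∨
      (∀ i j : ℕ, ⟪b i, T (b j)⟫_ℂ = fourierCoeff a ((i : ℤ) + j + 1)))

theorem finite_null (F : Set TT) (hF : F.Finite) : ∀ᵐ x ∂hm, x ∉ F := by
  have := F4L.null
  exact measure_eq_zero_iff_ae_notMem.1 (hF.measure_zero hm)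

theorem Gen.good {b : HilbertBasis ℕ ℂ H} {F : Finset TT} {T : H →L[ℂ] H} (h : Gen b F T)
    {G : Finset TT} (hFG : F ⊆ G) (hG : ∀ x ∈ G, -x ∈ G) :
    Good b (fun x : G => (x : TT)) (fun x : G => (⟨-(x : TT), hG x x.2⟩ : G)) T := by
  rcases h with h | ⟨a, ha1, ha2, h⟩
  · exact Good.of_pd h
  · have hinj : Function.Injective (fun x : G => (x : TT)) := Subtype.val_injective
    have hr : range (fun x : G => (x : TT)) = (G : Set TT) := by
      ext x
      constructor
      · rintro ⟨y, rfl⟩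
        exact y.2
      · intro hx
        exact ⟨⟨x, hx⟩, rfl⟩
    have hPL : PL (range (fun x : G => (x : TT))) a := by
      rw [hr]
      exact ha1.mono (by exact_mod_cast hFG)
    obtain ⟨a', α, β, hs, he⟩ := fF8 G (fun x : G => (x : TT)) hinj a hPL ha2
    have hae : a =ᵐ[hm] a' := by
      filter_upwards [finite_null _ (Set.finite_range fun x : G => (x : TT))] with x hx
      exact (he x hx).symm
    have hma : MB a' := fF5 _ a' (Set.finite_range _) hs.pl hs.bo
    have hfc : ∀ n, fourierCoeff a n = fourierCoeff a' n := fun n =>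
      congrFun (fourierCoeff_congr_ae hae) n
    rcases h with h | h
    · refine Good.toeplitz hs (toeplitz b hma fun i j => ?_)
      rw [h, hfc]
    · refine Good.hankel hinj (fun i => rfl) hs (hankel b hma fun i j => ?_)
      rw [h, hfc]

/-- **the algebra** -/
theorem algebra_main {b : HilbertBasis ℕ ℂ H} {𝒢 : Set (H →L[ℂ] H)}
    (h𝒢 : ∀ T ∈ 𝒢, ∃ F : Finset TT, Gen b F T) {T : H →L[ℂ] H} (hT : T ∈ Algebra.adjoin ℂ 𝒢) :
    (IsScalar T ∨ HasHyp T) ∧ (Reductive T → IsStarNormal T) := by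
  classical
  have key : ∃ F : Finset TT, ∀ G : Finset TT, F ⊆ G → ∀ hG : (∀ x ∈ G, -x ∈ G),
      Good b (fun x : G => (x : TT)) (fun x : G => (⟨-(x : TT), hG x x.2⟩ : G)) T := by
    induction hT using Algebra.adjoin_induction with
    | mem x hx =>
      obtain ⟨F, hF⟩ := h𝒢 x hx
      exact ⟨F, fun G hFG hG => hF.good hFG hG⟩
    | algebraMap r => exact ⟨∅, fun G _ hG => Good.const r⟩
    | add x y _ _ ihx ihy =>
      obtain ⟨F, hF⟩ := ihx
      obtain ⟨F', hF'⟩ := ihy
      exact ⟨F ∪ F', fun G hFG hG => (hF G (Finset.subset_union_left.trans hFG) hG).add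
        (hF' G (Finset.subset_union_right.trans hFG) hG)⟩
    | mul x y _ _ ihx ihy =>
      obtain ⟨F, hF⟩ := ihx
      obtain ⟨F', hF'⟩ := ihy
      exact ⟨F ∪ F', fun G hFG hG => (hF G (Finset.subset_union_left.trans hFG) hG).mul
        Subtype.val_injective (fun i => Subtype.ext (neg_neg _))
        (hF' G (Finset.subset_union_right.trans hFG) hG)⟩
  obtain ⟨F, hF⟩ := key
  set G : Finset TT := insert 0 (F ∪ F.image (fun x => -x)) with hG
  have hFG : F ⊆ G := fun x hx => by
    rw [hG]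
    exact Finset.mem_insert_of_mem (Finset.mem_union_left _ hx)
  have hneg : ∀ x ∈ G, -x ∈ G := by
    intro x hx
    rw [hG, Finset.mem_insert, Finset.mem_union, Finset.mem_image] at hx ⊢
    rcases hx with rfl | hx | ⟨y, hy, rfl⟩
    · left; simp
    · right; right; exact ⟨x, hx, rfl⟩
    · right; left; simpa using hy
  have hne : Nonempty G := ⟨⟨0, by rw [hG]; exact Finset.mem_insert_self _ _⟩⟩
  exact (hF G hFG hneg).final Subtype.val_injective (fun i => Subtype.ext (neg_neg _))

end Pool.Agent.H259.PC
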