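import Pool.Agent.H259.PC.Stmt

set_option autoImplicit false
set_option linter.all false

open MeasureTheory Set
open scoped ComplexConjugate InnerProductSpace

namespace Pool.Agent.H259.PC

namespace O1L

/-- the defining property -/
def Is (a : TT → ℂ) (M : LL →L[ℂ] LL) : Prop :=
  ∀ g : LL, (M g : TT → ℂ) =ᵐ[hm] fun x => a x * g x

theorem Is.unique {a : TT → ℂ} {M M' : LL →L[ℂ] LL} (h : Is a M) (h' : Is a M') : M = M' := by
  ext1 g
  exact Lp.ext ((h g).trans (h' g).symm)

theorem Is.mo_eq {a : TT → ℂ} {M : LL →L[ℂ] LL} (h : Is a M) : mo a = M := by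
  have hex : ∃ M : LL →L[ℂ] LL, ∀ g : LL, (M g : TT → ℂ) =ᵐ[hm] fun x => a x * g x := ⟨M, h⟩
  have e : mo a = hex.choose := by
    unfold mo
    rw [dif_pos hex]
  rw [e]
  exact Is.unique (a := a) hex.choose_spec h

theorem memLp_mul {a : TT → ℂ} (ha : MB a) (g : LL) : MemLp (fun x => a x * g x) 2 hm := by
  obtain ⟨M, hM⟩ := ha.bo
  refine MemLp.of_le_mul (c := M) (Lp.memLp g) (ha.me.mul (Lp.memLp g).1)
    (Filter.Eventually.of_forall fun x => ?_)
  rw [norm_mul]
  exact mul_le_mul_of_nonneg_right (hM x) (norm_nonneg _)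

theorem exists_Is {a : TT → ℂ} (ha : MB a) : ∃ M : LL →L[ℂ] LL, Is a M := by
  obtain ⟨M, hM⟩ := ha.bo
  have hspec : ∀ g : LL, ((memLp_mul ha g).toLp _ : TT → ℂ) =ᵐ[hm] fun x => a x * g x :=
    fun g => (memLp_mul ha g).coeFn_toLp
  let L : LL →ₗ[ℂ] LL :=
    { toFun := fun g => (memLp_mul ha g).toLp _
      map_add' := by
        intro g g'
        apply Lp.ext
        filter_upwards [hspec (g + g'), hspec g, hspec g', Lp.coeFn_add g g',
          Lp.coeFn_add ((memLp_mul ha g).toLp _) ((memLp_mul ha g').toLp _)] with x h1 h2 h3 h4 h5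
        rw [h1, h5, Pi.add_apply, h2, h3, h4, Pi.add_apply]
        ring
      map_smul' := by
        intro c g
        apply Lp.ext
        filter_upwards [hspec (c • g), hspec g, Lp.coeFn_smul c g,
          Lp.coeFn_smul c ((memLp_mul ha g).toLp _)] with x h1 h2 h4 h5
        rw [RingHom.id_apply, h1, h5, Pi.smul_apply, h2, h4, Pi.smul_apply, smul_eq_mul,
          smul_eq_mul]
        ring }
  refine ⟨L.mkContinuous M fun g => ?_, fun g => hspec g⟩
  refine Lp.norm_le_mul_norm_of_ae_le_mul ?_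
  filter_upwards [hspec g] with x h1
  show ‖((memLp_mul ha g).toLp _ : TT → ℂ) x‖ ≤ M * ‖g x‖
  rw [h1, norm_mul]
  exact mul_le_mul_of_nonneg_right (hM x) (norm_nonneg _)

theorem mo_spec {a : TT → ℂ} (ha : MB a) : Is a (mo a) := by
  obtain ⟨M, hM⟩ := exists_Is ha
  rw [hM.mo_eq]
  exact hM

theorem mb_mul {a b : TT → ℂ} (ha : MB a) (hb : MB b) : MB fun x => a x * b x := by
  obtain ⟨M, hM⟩ := ha.bo
  obtain ⟨M', hM'⟩ := hb.bo
  refine ⟨⟨M * M', fun x => ?_⟩, ha.me.mul hb.me⟩
  rw [norm_mul]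
  exact mul_le_mul (hM x) (hM' x) (norm_nonneg _) ((norm_nonneg _).trans (hM x))

theorem mb_add {a b : TT → ℂ} (ha : MB a) (hb : MB b) : MB fun x => a x + b x := by
  obtain ⟨M, hM⟩ := ha.bo
  obtain ⟨M', hM'⟩ := hb.bo
  exact ⟨⟨M + M', fun x => (norm_add_le _ _).trans (add_le_add (hM x) (hM' x))⟩, ha.me.add hb.me⟩

theorem mb_conj {a : TT → ℂ} (ha : MB a) : MB fun x => conj (a x) := by
  obtain ⟨M, hM⟩ := ha.bo
  refine ⟨⟨M, fun x => ?_⟩, Complex.continuous_conj.comp_aestronglyMeasurable ha.me⟩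
  rw [RCLike.norm_conj]
  exact hM x

end O1L

open O1L

theorem leaf_O1 : S_O1 := by
  intro a ha
  refine ⟨mo_spec ha, fun M hM0 hM => ?_⟩
  refine ContinuousLinearMap.opNorm_le_bound _ hM0 fun g => ?_
  refine Lp.norm_le_mul_norm_of_ae_le_mul ?_
  filter_upwards [mo_spec ha g] with x h1
  rw [h1, norm_mul]
  exact mul_le_mul_of_nonneg_right (hM x) (norm_nonneg _)

theorem leaf_O2 : S_O2 := by
  refine ⟨fun a b ha hb => ?_, fun a b ha hb => ?_, fun c => ?_, fun a b hab => ?_, fun a ha => ?_⟩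
  · apply Is.mo_eq
    intro g
    filter_upwards [mo_spec ha (mo b g), mo_spec hb g] with x h1 h2
    show (mo a (mo b g) : TT → ℂ) x = a x * b x * g x
    rw [h1, h2]
    ring
  · apply Is.mo_eq
    intro g
    filter_upwards [mo_spec ha g, mo_spec hb g, Lp.coeFn_add (mo a g) (mo b g)] with x h1 h2 h3
    rw [ContinuousLinearMap.add_apply, h3, Pi.add_apply, h1, h2]
    ring
  · apply Is.mo_eq
    intro g
    filter_upwards [Lp.coeFn_smul c g] with x h1
    rw [Algebra.algebraMap_eq_smul_one]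
    show ((c • g : LL) : TT → ℂ) x = c * g x
    rw [h1, Pi.smul_apply, smul_eq_mul]
  · by_cases h : ∃ M : LL →L[ℂ] LL, Is a M
    · obtain ⟨M, hM⟩ := h
      have hM' : Is b M := by
        intro g
        filter_upwards [hM g, hab] with x h1 h2
        rw [h1, h2]
      rw [hM.mo_eq, hM'.mo_eq]
    · have h' : ¬ ∃ M : LL →L[ℂ] LL, Is b M := by
        rintro ⟨M, hM⟩
        apply h
        refine ⟨M, fun g => ?_⟩
        filter_upwards [hM g, hab] with x h1 h2
        rw [h1, h2]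
      have e1 : mo a = 0 := by
        unfold mo
        exact dif_neg h
      have e2 : mo b = 0 := by
        unfold mo
        exact dif_neg h'
      rw [e1, e2]
  · symm
    rw [ContinuousLinearMap.eq_adjoint_iff]
    intro f g
    rw [MeasureTheory.L2.inner_def, MeasureTheory.L2.inner_def]
    refine integral_congr_ae ?_
    filter_upwards [mo_spec ha g, mo_spec (mb_conj ha) f] with x h1 h2
    rw [h1, h2, RCLike.inner_apply, RCLike.inner_apply, map_mul, Complex.conj_conj]
    ring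

end Pool.Agent.H259.PC
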