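import Pool.Agent.H259.PC.Stmt

/-! O3 and O4: translations and the flip (helper415). -/

set_option autoImplicit false

open MeasureTheory Set
open scoped ComplexConjugate InnerProductSpace

namespace Pool.Agent.H259.PC

namespace O3L

theorem comp_add (s : TT) {u v : TT → ℂ} (h : u =ᵐ[hm] v) :
    (fun x => u (x + s)) =ᵐ[hm] fun x => v (x + s) :=
  (measurePreserving_add_right hm s).quasiMeasurePreserving.ae_eq_comp h

theorem comp_neg {u v : TT → ℂ} (h : u =ᵐ[hm] v) :
    (fun x => u (-x)) =ᵐ[hm] fun x => v (-x) :=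
  (Measure.measurePreserving_neg hm).quasiMeasurePreserving.ae_eq_comp h

theorem tr_ae (s : TT) (g : LL) : (tr s g : TT → ℂ) =ᵐ[hm] fun x => g (x + s) :=
  Lp.coeFn_compMeasurePreserving g (measurePreserving_add_right hm s)

theorem ng_ae (g : LL) : ((Lp.compMeasurePreservingₗᵢ ℂ (fun x : TT => -x)
    (Measure.measurePreserving_neg hm)).toContinuousLinearMap g : TT → ℂ) =ᵐ[hm]
      fun x => g (-x) :=
  Lp.coeFn_compMeasurePreserving g (Measure.measurePreserving_neg hm)

theorem mb_add (s : TT) {a : TT → ℂ} (h : MB a) : MB fun x => a (x + s) := by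
  obtain ⟨M, hM⟩ := h.bo
  exact ⟨⟨M, fun x => hM _⟩, h.me.comp_quasiMeasurePreserving
    (measurePreserving_add_right hm s).quasiMeasurePreserving⟩

theorem mb_neg {a : TT → ℂ} (h : MB a) : MB fun x => a (-x) := by
  obtain ⟨M, hM⟩ := h.bo
  exact ⟨⟨M, fun x => hM _⟩, h.me.comp_quasiMeasurePreserving
    (Measure.measurePreserving_neg hm).quasiMeasurePreserving⟩

theorem norm_fourier (n : ℤ) (x : TT) : ‖(fourier n x : ℂ)‖ = 1 := by
  rw [fourier_apply]
  exact Circle.norm_coe _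

theorem mb_fourier (n : ℤ) : MB fun x => (fourier n x : ℂ) :=
  ⟨⟨1, fun x => (norm_fourier n x).le⟩, (fourier n).continuous.aestronglyMeasurable⟩

theorem fl_ae (h1 : S_O1) (g : LL) :
    (fl g : TT → ℂ) =ᵐ[hm] fun x => (fourier (-1) x : ℂ) * g (-x) := by
  refine ((h1 _ (mb_fourier (-1))).1 _).trans ?_
  filter_upwards [ng_ae g] with x hx
  exact congrArg (fun t : ℂ => (fourier (-1) x : ℂ) * t) hx

theorem en_ae (n : ℤ) : (en n : TT → ℂ) =ᵐ[hm] fun x => (fourier n x : ℂ) :=
  coeFn_fourierLp 2 n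

theorem f_add (n : ℤ) (x y : TT) : (fourier n (x + y) : ℂ) = fourier n x * fourier n y := by
  rw [fourier_apply, fourier_apply, fourier_apply, smul_add, AddCircle.toCircle_add,
    Circle.coe_mul]

theorem f_add' (m n : ℤ) (x : TT) : (fourier (m + n) x : ℂ) = fourier m x * fourier n x :=
  fourier_add

theorem f_neg (n : ℤ) (x : TT) : (fourier n (-x) : ℂ) = fourier (-n) x := by
  rw [fourier_apply, fourier_apply, smul_neg, neg_smul]

theorem f_mul_neg (x : TT) : (fourier (-1) x : ℂ) * fourier (-1) (-x) = 1 := by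
  rw [f_neg, ← f_add', neg_neg]
  simp

theorem fl_fl (h1 : S_O1) : fl * fl = 1 := by
  refine ContinuousLinearMap.ext fun g => Lp.ext ?_
  show (fl (fl g) : TT → ℂ) =ᵐ[hm] g
  refine (fl_ae h1 (fl g)).trans ?_
  filter_upwards [comp_neg (fl_ae h1 g)] with x hx
  rw [hx, neg_neg, ← mul_assoc, f_mul_neg, one_mul]

theorem fl_norm (h1 : S_O1) (g : LL) : ‖fl g‖ ≤ ‖g‖ := by
  have h2 : ‖mo fun x => (fourier (-1) x : ℂ)‖ ≤ 1 :=
    (h1 _ (mb_fourier (-1))).2 1 zero_le_one fun x => (norm_fourier (-1) x).le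
  refine (ContinuousLinearMap.le_of_opNorm_le _ h2 _).trans ?_
  rw [one_mul]
  exact ((Lp.compMeasurePreservingₗᵢ ℂ (fun x : TT => -x)
    (Measure.measurePreserving_neg hm)).norm_map g).le

end O3L

open O3L

theorem leaf_O3 (h1 : S_O1) (_h2 : S_O2) : S_O3 := by
  refine ⟨fun s a ha => ?_, fun s t => ?_, ?_, fun s n => ?_⟩
  · refine ContinuousLinearMap.ext fun g => Lp.ext ?_
    show (tr s (mo a g) : TT → ℂ) =ᵐ[hm] (mo (fun x => a (x + s)) (tr s g) : TT → ℂ)
    refine ((tr_ae s (mo a g)).trans (comp_add s ((h1 a ha).1 g))).trans ?_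
    refine Filter.EventuallyEq.symm (((h1 _ (mb_add s ha)).1 (tr s g)).trans ?_)
    filter_upwards [tr_ae s g] with x hx
    rw [hx]
  · refine ContinuousLinearMap.ext fun g => Lp.ext ?_
    show (tr s (tr t g) : TT → ℂ) =ᵐ[hm] (tr (s + t) g : TT → ℂ)
    refine ((tr_ae s (tr t g)).trans (comp_add s (tr_ae t g))).trans ?_
    refine Filter.EventuallyEq.symm ((tr_ae (s + t) g).trans ?_)
    filter_upwards with x
    rw [add_assoc]
  · refine ContinuousLinearMap.ext fun g => Lp.ext ?_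
    show (tr 0 g : TT → ℂ) =ᵐ[hm] (g : TT → ℂ)
    refine (tr_ae 0 g).trans ?_
    filter_upwards with x
    rw [add_zero]
  · refine Lp.ext ?_
    refine ((tr_ae s (en n)).trans (comp_add s (en_ae n))).trans ?_
    refine Filter.EventuallyEq.symm ((Lp.coeFn_smul _ _).trans ?_)
    filter_upwards [en_ae n] with x hx
    rw [Pi.smul_apply, hx, smul_eq_mul, f_add, mul_comm]

theorem leaf_O4 (h1 : S_O1) (_h2 : S_O2) : S_O4 := by
  have hff := fl_fl h1
  refine ⟨hff, ?_, fun a ha => ?_, fun n => ?_, fun s => ?_⟩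
  · have hiso : ∀ g : LL, ‖fl g‖ = ‖g‖ := by
      intro g
      refine le_antisymm (fl_norm h1 g) ?_
      have h3 : fl (fl g) = g := by
        have := congrArg (fun T : LL →L[ℂ] LL => T g) hff
        exact this
      calc ‖g‖ = ‖fl (fl g)‖ := by rw [h3]
        _ ≤ ‖fl g‖ := fl_norm h1 _
    have h4 : ContinuousLinearMap.adjoint fl * fl = 1 :=
      (ContinuousLinearMap.norm_map_iff_adjoint_comp_self fl).1 hiso
    calc ContinuousLinearMap.adjoint fl = ContinuousLinearMap.adjoint fl * (fl * fl) := by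
          rw [hff, mul_one]
      _ = fl := by rw [← mul_assoc, h4, one_mul]
  · refine ContinuousLinearMap.ext fun g => Lp.ext ?_
    show (fl (mo a (fl g)) : TT → ℂ) =ᵐ[hm] (mo (fun x => a (-x)) g : TT → ℂ)
    refine (fl_ae h1 _).trans (Filter.EventuallyEq.symm (((h1 _ (mb_neg ha)).1 g).trans ?_))
    filter_upwards [comp_neg ((h1 a ha).1 (fl g)), comp_neg (fl_ae h1 g)] with x hx hx2
    rw [hx, hx2, neg_neg]
    linear_combination (-a (-x) * g x) * f_mul_neg x
  · refine Lp.ext ?_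
    refine (fl_ae h1 _).trans ?_
    filter_upwards [comp_neg (en_ae n), en_ae (-1 - n)] with x hx hx2
    rw [hx, hx2, f_neg, ← f_add']
    rfl
  · refine ContinuousLinearMap.ext fun g => Lp.ext ?_
    show (tr s (fl g) : TT → ℂ) =ᵐ[hm] ((fourier (-1) s : ℂ) • fl (tr (-s) g) : LL)
    refine ((tr_ae s (fl g)).trans (comp_add s (fl_ae h1 g))).trans ?_
    refine Filter.EventuallyEq.symm ((Lp.coeFn_smul _ _).trans ?_)
    filter_upwards [fl_ae h1 (tr (-s) g), comp_neg (tr_ae (-s) g)] with x hx hx2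
    rw [Pi.smul_apply, hx, hx2, smul_eq_mul, f_add, neg_add]
    ring

end Pool.Agent.H259.PC
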