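import Pool.Agent.H259.PC.Stmt

set_option autoImplicit false

open MeasureTheory Set
open scoped ComplexConjugate InnerProductSpace

namespace Pool.Agent.H259.PC

namespace O5L

/-- operators which agree on the exponentials are equal -/
theorem ext_en {A B : LL →L[ℂ] LL} (h : ∀ n : ℤ, A (en n) = B (en n)) : A = B := by
  have hd : Dense ((Submodule.span ℂ (range (en : ℤ → LL)) : Submodule ℂ LL) : Set LL) := by
    rw [Submodule.dense_iff_topologicalClosure_eq_top]
    exact span_fourierLp_closure_eq_top (by simp)
  refine ContinuousLinearMap.ext_on hd ?_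
  rintro _ ⟨n, rfl⟩
  exact h n

theorem orth : Orthonormal ℂ (en : ℤ → LL) := orthonormal_fourier

/-- the projection exists -/
theorem exists_P : ∃ P : LL →L[ℂ] LL, (∀ n : ℤ, P (en n) = if 0 ≤ n then en n else 0) ∧
    ContinuousLinearMap.adjoint P = P := by
  obtain ⟨K, hK⟩ : ∃ K : Submodule ℂ LL, K = (Submodule.span ℂ (en '' {n : ℤ | 0 ≤ n})).topologicalClosure :=
    ⟨_, rfl⟩
  have : CompleteSpace K := by
    rw [hK]
    exact (Submodule.isClosed_topologicalClosure _).completeSpace_coe
  refine ⟨K.starProjection, ?_, ?_⟩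
  · intro n
    split_ifs with h
    · rw [Submodule.starProjection_eq_self_iff, hK]
      exact Submodule.le_topologicalClosure _ (Submodule.subset_span ⟨n, h, rfl⟩)
    · rw [Submodule.starProjection_apply_eq_zero_iff, hK, Submodule.orthogonal_closure]
      rw [Submodule.mem_orthogonal]
      intro u hu
      induction hu using Submodule.span_induction with
      | mem x hx =>
        obtain ⟨m, hm, rfl⟩ := hx
        have hmn : m ≠ n := by
          rintro rfl
          exact h hm
        exact orth.2 hmn
      | zero => exact inner_zero_left _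
      | add x y _ _ hx hy => rw [inner_add_left, hx, hy, add_zero]
      | smul c x _ hx => rw [inner_smul_left, hx, mul_zero]
  · exact (isSelfAdjoint_starProjection K).adjoint_eq

end O5L

open O5L in
theorem leaf_O5 (h3 : S_O3) (h4 : S_O4) : S_O5 := by
  obtain ⟨P, hP, hPa⟩ := exists_P
  have hj : ∀ n : ℤ, Pj (en n) = if 0 ≤ n then en n else 0 := by
    have h : ∃ P : LL →L[ℂ] LL, ∀ n : ℤ, P (en n) = if 0 ≤ n then en n else 0 := ⟨P, hP⟩
    unfold Pj
    rw [dif_pos h]
    exact h.choose_spec
  have hPj : Pj = P := ext_en (fun n => by rw [hj, hP])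
  obtain ⟨_, _, _, htr⟩ := h3
  obtain ⟨_, _, _, hfl, _⟩ := h4
  refine ⟨hj, ?_, ?_, ?_, ?_⟩
  · apply ext_en
    intro n
    rw [mul_apply_eq_comp, hj]
    split_ifs with h
    · rw [hj, if_pos h]
    · exact map_zero _
  · rw [hPj, hPa]
  · apply ext_en
    intro n
    rw [mul_apply_eq_comp, mul_apply_eq_comp, hfl, hj, sub_apply,
      one_apply_eq_self, hj]
    by_cases h : 0 ≤ n
    · rw [if_neg (by omega), if_pos h, map_zero, sub_self]
    · rw [if_pos (by omega), if_neg h, hfl, sub_zero]
      congr 1
      ring
  · intro s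
    apply ext_en
    intro n
    rw [mul_apply_eq_comp, mul_apply_eq_comp, hj, htr, map_smul, hj]
    split_ifs with h
    · exact htr s n
    · rw [map_zero, smul_zero]

end Pool.Agent.H259.PC
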