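import Pool.Agent.H259.PC.Stmt

/-!
# Leaf O6: the commutator of the Riesz projection with a Lipschitz function is Hilbert-Schmidt (helper263)
-/

set_option autoImplicit false

open MeasureTheory Set
open scoped ComplexConjugate InnerProductSpace

namespace Pool.Agent.H259.PC

namespace O6L

theorem en_ortho : Orthonormal ℂ en := orthonormal_fourier

theorem en_norm (n : ℤ) : ‖en n‖ = 1 := en_ortho.1 n

/-- Parseval -/
theorem parseval (x : LL) : HasSum (fun k : ℤ => ‖⟪en k, x⟫_ℂ‖ ^ 2) (‖x‖ ^ 2) := by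
  have h := (fourierBasis (T := (1 : ℝ))).hasSum_inner_mul_inner x x
  rw [coe_fourierBasis] at h
  have h1 : ∀ k : ℤ, ⟪x, en k⟫_ℂ * ⟪en k, x⟫_ℂ = ((‖⟪en k, x⟫_ℂ‖ ^ 2 : ℝ) : ℂ) := by
    intro k
    rw [← inner_conj_symm, Complex.conj_mul']
    push_cast
    rfl
  have h2 : ⟪x, x⟫_ℂ = ((‖x‖ ^ 2 : ℝ) : ℂ) := by
    rw [inner_self_eq_norm_sq_to_K]
    push_cast
    rfl
  rw [h2] at h
  have h3 : HasSum (fun k : ℤ => ((‖⟪en k, x⟫_ℂ‖ ^ 2 : ℝ) : ℂ)) ((‖x‖ ^ 2 : ℝ) : ℂ) := by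
    refine h.congr_fun ?_
    intro k
    exact (h1 k).symm
  exact Complex.hasSum_ofReal.1 h3

theorem four_low {m : ℤ} {s : ℝ} (h : |(m : ℝ) * s| ≤ 1 / 2) :
    4 * |(m : ℝ) * s| ≤ ‖(fourier m (s : TT) : ℂ) - 1‖ := by
  rw [fourier_coe_apply]
  have e : (2 * Real.pi * Complex.I * m * s / (1 : ℝ) : ℂ) =
      Complex.I * ((2 * Real.pi * (m * s) : ℝ) : ℂ) := by
    push_cast
    ring
  rw [e, Complex.norm_exp_I_mul_ofReal_sub_one]
  have e2 : 2 * Real.pi * (m * s) / 2 = Real.pi * (m * s) := by ring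
  have e3 : ‖2 * Real.sin (Real.pi * (m * s))‖ = 2 * |Real.sin (Real.pi * (m * s))| := by
    rw [norm_mul, Real.norm_eq_abs, Real.norm_eq_abs, abs_two]
  rw [e2, e3]
  have hpi := Real.pi_pos
  have h1 : |Real.sin (Real.pi * (m * s))| = |Real.sin (Real.pi * |(m : ℝ) * s|)| := by
    rcases abs_choice ((m : ℝ) * s) with h2 | h2
    · rw [h2]
    · rw [h2, mul_neg, Real.sin_neg, abs_neg]
  rw [h1]
  have h3 := Real.mul_le_sin (x := Real.pi * |(m : ℝ) * s|) (by positivity) (by nlinarith)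
  have h4 : 2 / Real.pi * (Real.pi * |(m : ℝ) * s|) = 2 * |(m : ℝ) * s| := by field_simp
  rw [h4] at h3
  have h5 := le_abs_self (Real.sin (Real.pi * |(m : ℝ) * s|))
  linarith

theorem tr_inner (s : TT) (x y : LL) : ⟪tr s x, tr s y⟫_ℂ = ⟪x, y⟫_ℂ :=
  (Lp.compMeasurePreservingₗᵢ ℂ (fun x : TT => x + s)
    (measurePreserving_add_right hm s)).inner_map_map x y

/-- the Sobolev bound, finite sums -/
theorem sob (f1 : S_F1) (h1 : S_O1) (h2 : S_O2) (h3 : S_O3) (h7 : S_O7) {c : TT → ℂ} {K : ℝ}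
    (hc : ∀ (x : TT) (s : ℝ), ‖c (x + (s : TT)) - c x‖ ≤ K * |s|) (F : Finset ℤ) :
    ∑ m ∈ F, (m : ℝ) ^ 2 * ‖fourierCoeff c m‖ ^ 2 ≤ K ^ 2 / 16 := by
  obtain ⟨f1a, f1b, f1c, f1d, f1e, f1f, f1g, f1h⟩ := f1
  have hLi : Li c := ⟨K, hc⟩
  have hK : 0 ≤ K := by
    have := (norm_nonneg _).trans (hc 0 1)
    simpa using this
  obtain ⟨N, hN1, hN⟩ : ∃ N : ℝ, 1 ≤ N ∧ ∀ m ∈ F, |(m : ℝ)| ≤ N := by
    refine ⟨1 + ∑ m ∈ F, |(m : ℝ)|, ?_, fun m hm => ?_⟩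
    · have : 0 ≤ ∑ m ∈ F, |(m : ℝ)| := Finset.sum_nonneg fun _ _ => abs_nonneg _
      linarith
    · have : |(m : ℝ)| ≤ ∑ m ∈ F, |(m : ℝ)| :=
        Finset.single_le_sum (f := fun m : ℤ => |(m : ℝ)|) (fun _ _ => abs_nonneg _) hm
      linarith
  obtain ⟨s, hs⟩ : ∃ s : ℝ, s = 1 / (2 * N) := ⟨_, rfl⟩
  have hs0 : 0 < s := by rw [hs]; positivity
  -- the function `c (· + s) - c`
  have hcs : Li fun x => c (x + (s : TT)) := f1f c _ hLi
  have hneg : Li fun _ : TT => (-1 : ℂ) := f1a (-1)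
  have hnc : Li fun x => (-1 : ℂ) * c x := f1d _ _ hneg hLi
  have hd : Li fun x => c (x + (s : TT)) + (-1 : ℂ) * c x := f1c _ _ hcs hnc
  have hop : mo (fun x => c (x + (s : TT)) + (-1 : ℂ) * c x) =
      mo (fun x => c (x + (s : TT))) - mo c := by
    rw [h2.2.1 _ _ (f1g _ hcs) (f1g _ hnc), h2.1 _ _ (f1g _ hneg) (f1g _ hLi), h2.2.2.1]
    rw [map_neg, map_one, neg_one_mul, sub_eq_add_neg]
  have hnorm : ‖mo (fun x => c (x + (s : TT)) + (-1 : ℂ) * c x)‖ ≤ K * s := by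
    refine (h1 _ (f1g _ hd)).2 (K * s) (by positivity) fun x => ?_
    have := hc x s
    rw [abs_of_pos hs0] at this
    have e : c (x + (s : TT)) + (-1 : ℂ) * c x = c (x + (s : TT)) - c x := by ring
    rw [e]
    exact this
  -- the vector
  obtain ⟨g, hg⟩ : ∃ g : LL, g = mo c (en 0) := ⟨_, rfl⟩
  have htrg : tr (s : TT) g = mo (fun x => c (x + (s : TT))) (en 0) := by
    have e1 : tr (s : TT) (mo c (en 0)) = mo (fun x => c (x + (s : TT))) (tr (s : TT) (en 0)) :=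
      congrArg (fun T : LL →L[ℂ] LL => T (en 0)) (h3.1 (s : TT) c (f1g _ hLi))
    have e2 := h3.2.2.2 (s : TT) 0
    rw [fourier_zero, one_smul] at e2
    rw [hg]
    rw [e2] at e1
    exact e1
  have hh : tr (s : TT) g - g = mo (fun x => c (x + (s : TT)) + (-1 : ℂ) * c x) (en 0) := by
    rw [hop, htrg, hg]
    rfl
  have hhn : ‖tr (s : TT) g - g‖ ≤ K * s := by
    rw [hh]
    refine (ContinuousLinearMap.le_opNorm _ _).trans ?_
    rw [en_norm, mul_one]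
    exact hnorm
  have hcoef : ∀ m : ℤ, ‖⟪en m, tr (s : TT) g - g⟫_ℂ‖ =
      ‖(fourier m (s : TT) : ℂ) - 1‖ * ‖fourierCoeff c m‖ := by
    intro m
    have e1 : ⟪en m, g⟫_ℂ = fourierCoeff c m := by
      rw [hg, h7 c (f1g _ hLi), sub_zero]
    have e2 : ⟪en m, tr (s : TT) g⟫_ℂ = (fourier m (s : TT) : ℂ) * fourierCoeff c m := by
      have e3 := tr_inner (s : TT) (en m) g
      rw [h3.2.2.2 (s : TT) m, inner_smul_left, e1] at e3
      rw [← e3, ← mul_assoc, Complex.mul_conj']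
      have e4 : ‖(fourier m (s : TT) : ℂ)‖ = 1 := by
        rw [fourier_apply]
        exact Circle.norm_coe _
      rw [e4]
      simp
    rw [inner_sub_right, e2, e1, ← norm_mul]
    congr 1
    ring
  have hbes := en_ortho.sum_inner_products_le (tr (s : TT) g - g) (s := F)
  have hlow : ∀ m ∈ F, 16 * s ^ 2 * ((m : ℝ) ^ 2 * ‖fourierCoeff c m‖ ^ 2) ≤
      ‖⟪en m, tr (s : TT) g - g⟫_ℂ‖ ^ 2 := by
    intro m hm
    have hms : |(m : ℝ) * s| ≤ 1 / 2 := by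
      rw [abs_mul, abs_of_pos hs0, hs]
      have := hN m hm
      rw [mul_one_div, div_le_div_iff₀ (by positivity) (by norm_num)]
      linarith
    have h5 := four_low hms
    rw [hcoef]
    have h6 : (4 * |(m : ℝ) * s|) ^ 2 ≤ ‖(fourier m (s : TT) : ℂ) - 1‖ ^ 2 :=
      pow_le_pow_left₀ (by positivity) h5 2
    have h7 : (4 * |(m : ℝ) * s|) ^ 2 = 16 * s ^ 2 * (m : ℝ) ^ 2 := by
      rw [mul_pow, sq_abs]
      ring
    rw [h7] at h6
    calc 16 * s ^ 2 * ((m : ℝ) ^ 2 * ‖fourierCoeff c m‖ ^ 2) =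
          16 * s ^ 2 * (m : ℝ) ^ 2 * ‖fourierCoeff c m‖ ^ 2 := by ring
      _ ≤ ‖(fourier m (s : TT) : ℂ) - 1‖ ^ 2 * ‖fourierCoeff c m‖ ^ 2 :=
          mul_le_mul_of_nonneg_right h6 (by positivity)
      _ = (‖(fourier m (s : TT) : ℂ) - 1‖ * ‖fourierCoeff c m‖) ^ 2 := by ring
  have h8 : 16 * s ^ 2 * ∑ m ∈ F, (m : ℝ) ^ 2 * ‖fourierCoeff c m‖ ^ 2 ≤ (K * s) ^ 2 := by
    rw [Finset.mul_sum]
    refine (Finset.sum_le_sum hlow).trans (hbes.trans ?_)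
    exact pow_le_pow_left₀ (norm_nonneg _) hhn 2
  have h9 : 0 < 16 * s ^ 2 := by positivity
  have h10 : (K * s) ^ 2 = 16 * s ^ 2 * (K ^ 2 / 16) := by ring
  rw [h10] at h8
  exact le_of_mul_le_mul_left h8 h9

open Classical in
/-- the matrix of the commutator -/
theorem entry (h5 : S_O5) (h7 : S_O7) {c : TT → ℂ} (hc : MB c) (k n : ℤ) :
    ⟪en k, (mo c * Pj - Pj * mo c) (en n)⟫_ℂ =
      ((if 0 ≤ n then 1 else 0) - (if 0 ≤ k then 1 else 0)) * fourierCoeff c (k - n) := by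
  obtain ⟨h51, -, h53, -, -⟩ := h5
  have e1 : (mo c * Pj - Pj * mo c) (en n) = mo c (Pj (en n)) - Pj (mo c (en n)) := rfl
  have e2 : ⟪en k, Pj (mo c (en n))⟫_ℂ = ⟪Pj (en k), mo c (en n)⟫_ℂ := by
    rw [← ContinuousLinearMap.adjoint_inner_left, h53]
  rw [e1, inner_sub_right, e2, h51, h51]
  by_cases hn : 0 ≤ n
  · by_cases hk : 0 ≤ k
    · rw [if_pos hn, if_pos hk, if_pos hn, if_pos hk, h7 c hc]
      ring
    · rw [if_pos hn, if_neg hk, if_pos hn, if_neg hk, h7 c hc, inner_zero_left]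
      ring
  · by_cases hk : 0 ≤ k
    · rw [if_neg hn, if_pos hk, if_neg hn, if_pos hk, h7 c hc, map_zero, inner_zero_right]
      ring
    · rw [if_neg hn, if_neg hk, if_neg hn, if_neg hk, map_zero, inner_zero_right, inner_zero_left]
      ring

/-- the weight -/
noncomputable def wt (k n : ℤ) : ℝ := if (0 ≤ n ∧ k < 0) ∨ (n < 0 ∧ 0 ≤ k) then 1 else 0

theorem wt_nonneg (k n : ℤ) : 0 ≤ wt k n := by
  unfold wt
  split_ifs <;> norm_num

theorem wt_le (k n : ℤ) : wt k n ≤ 1 := by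
  unfold wt
  split_ifs <;> norm_num

theorem wt_zero (m n : ℤ) (h : n ∉ Finset.Icc (-|m|) |m|) : wt (n + m) n = 0 := by
  unfold wt
  rw [if_neg]
  intro h1
  apply h
  rw [Finset.mem_Icc]
  have h2 := le_abs_self m
  have h3 := neg_abs_le m
  omega

theorem wt_diag (n : ℤ) : wt (n + 0) n = 0 := by
  unfold wt
  rw [if_neg]
  omega

theorem entry_sq (h5 : S_O5) (h7 : S_O7) {c : TT → ℂ} (hc : MB c) (k n : ℤ) :
    ‖⟪en k, (mo c * Pj - Pj * mo c) (en n)⟫_ℂ‖ ^ 2 = wt k n * ‖fourierCoeff c (k - n)‖ ^ 2 := by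
  rw [entry h5 h7 hc, norm_mul, mul_pow]
  congr 1
  unfold wt
  by_cases hn : 0 ≤ n
  · by_cases hk : 0 ≤ k
    · rw [if_pos hn, if_pos hk, if_neg (by omega)]
      simp
    · rw [if_pos hn, if_neg hk, if_pos (by omega)]
      simp
  · by_cases hk : 0 ≤ k
    · rw [if_neg hn, if_pos hk, if_pos (by omega)]
      simp
    · rw [if_neg hn, if_neg hk, if_neg (by omega)]
      simp

theorem sum_fix (x : ℝ) (m : ℤ) :
    HasSum (fun n : ℤ => wt (n + m) n * x) (∑ n ∈ Finset.Icc (-|m|) |m|, wt (n + m) n * x) := by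
  apply hasSum_sum_of_ne_finset_zero
  intro n hn
  rw [wt_zero m n hn, zero_mul]

theorem sum_le (x : ℝ) (hx : 0 ≤ x) (m : ℤ) :
    ∑ n ∈ Finset.Icc (-|m|) |m|, wt (n + m) n * x ≤ 3 * ((m : ℝ) ^ 2 * x) := by
  by_cases hm : m = 0
  · subst hm
    have h0 : ∀ n ∈ Finset.Icc (-|(0 : ℤ)|) |(0 : ℤ)|, wt (n + 0) n * x = 0 := by
      intro n _
      rw [wt_diag, zero_mul]
    rw [Finset.sum_eq_zero h0]
    positivity
  · have h1 : 1 ≤ |m| := Int.one_le_abs hm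
    have h2 : ∑ n ∈ Finset.Icc (-|m|) |m|, wt (n + m) n * x ≤ ∑ n ∈ Finset.Icc (-|m|) |m|, x := by
      apply Finset.sum_le_sum
      intro n _
      have := wt_le (n + m) n
      nlinarith
    refine h2.trans ?_
    rw [Finset.sum_const, Int.card_Icc, nsmul_eq_mul]
    have h3 : (((|m| + 1 - -|m|).toNat : ℕ) : ℝ) ≤ 3 * (m : ℝ) ^ 2 := by
      have h4 : (((|m| + 1 - -|m|).toNat : ℕ) : ℤ) = 2 * |m| + 1 := by omega
      have h5 : 2 * |m| + 1 ≤ 3 * m ^ 2 := by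
        have : m ^ 2 = |m| ^ 2 := (sq_abs m).symm
        rw [this]
        nlinarith
      have h6 : (((|m| + 1 - -|m|).toNat : ℕ) : ℤ) ≤ 3 * m ^ 2 := by rw [h4]; exact h5
      exact_mod_cast h6
    nlinarith

end O6L

open O6L in
theorem leaf_O6 (f1 : S_F1) (h1 : S_O1) (h2 : S_O2) (h3 : S_O3) (h5 : S_O5) (h7 : S_O7) :
    S_O6 := by
  intro c hLi
  obtain ⟨K, hc⟩ := hLi
  have hLi : Li c := ⟨K, hc⟩
  have hMB : MB c := f1.2.2.2.2.2.2.1 c hLi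
  -- the Sobolev bound
  have hsob : Summable fun m : ℤ => 3 * ((m : ℝ) ^ 2 * ‖fourierCoeff c m‖ ^ 2) := by
    apply Summable.mul_left
    exact summable_of_sum_le (fun m => by positivity) (sob f1 h1 h2 h3 h7 hc)
  -- the double sum
  have hnn : ∀ p : ℤ × ℤ, 0 ≤ wt (p.2 + p.1) p.2 * ‖fourierCoeff c p.1‖ ^ 2 := fun p =>
    mul_nonneg (wt_nonneg _ _) (sq_nonneg _)
  have hd : Summable fun p : ℤ × ℤ => wt (p.2 + p.1) p.2 * ‖fourierCoeff c p.1‖ ^ 2 := by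
    rw [summable_prod_of_nonneg hnn]
    refine ⟨fun m => (sum_fix (‖fourierCoeff c m‖ ^ 2) m).summable, ?_⟩
    refine Summable.of_nonneg_of_le (fun m => tsum_nonneg fun n => hnn (m, n)) (fun m => ?_) hsob
    show ∑' n : ℤ, wt (n + m) n * ‖fourierCoeff c m‖ ^ 2 ≤ _
    rw [(sum_fix (‖fourierCoeff c m‖ ^ 2) m).tsum_eq]
    exact sum_le _ (sq_nonneg _) m
  let e : ℤ × ℤ ≃ ℤ × ℤ :=
    { toFun := fun p => (p.2 - p.1, p.1)
      invFun := fun p => (p.2, p.1 + p.2)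
      left_inv := fun p => by ext <;> simp
      right_inv := fun p => by ext <;> simp }
  have hd2 := e.summable_iff.2 hd
  have hd3 : Summable fun p : ℤ × ℤ => wt p.2 p.1 * ‖fourierCoeff c (p.2 - p.1)‖ ^ 2 := by
    refine hd2.congr fun p => ?_
    show wt (p.1 + (p.2 - p.1)) p.1 * ‖fourierCoeff c (p.2 - p.1)‖ ^ 2 = _
    rw [add_sub_cancel]
  have hd4 := hd3.prod
  refine hd4.congr fun n => ?_
  have h8 := parseval ((mo c * Pj - Pj * mo c) (en n))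
  rw [← h8.tsum_eq]
  refine tsum_congr fun k => ?_
  exact (entry_sq h5 h7 hMB k n).symm

end Pool.Agent.H259.PC
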