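import Pool.Agent.H259.PC.Stmt

/-!
# Matrix entries and resolvents of multiplication operators (helper264, for helper259)
-/

set_option autoImplicit false

open MeasureTheory Set
open scoped ComplexConjugate InnerProductSpace

namespace Pool.Agent.H259.PC

namespace O7L

theorem mb_const (c : ℂ) : MB fun _ : TT => c :=
  ⟨⟨‖c‖, fun _ => le_rfl⟩, aestronglyMeasurable_const⟩

end O7L

theorem leaf_O7 (h1 : S_O1) : S_O7 := by
  intro a ha i j
  have hm1 := (h1 a ha).1 (en j)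
  rw [L2.inner_def, fourierCoeff]
  refine integral_congr_ae ?_
  have e1 : (en i : TT → ℂ) =ᵐ[hm] fourier i := coeFn_fourierLp 2 i
  have e2 : (en j : TT → ℂ) =ᵐ[hm] fourier j := coeFn_fourierLp 2 j
  filter_upwards [hm1, e1, e2] with x hx1 hx2 hx3
  rw [hx1, hx2, hx3, RCLike.inner_apply, ← fourier_neg, smul_eq_mul]
  have h3 : -(i - j) = -i + j := by ring
  rw [h3, fourier_add]
  ring

theorem leaf_D1 (h1 : S_O1) (h2 : S_O2) : S_D1 := by
  intro a ha E hE hne haE z hz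
  obtain ⟨hmul, hadd, hconst, -, -⟩ := h2
  have hpos : 0 < Metric.infDist z E := (hE.notMem_iff_infDist_pos hne).1 hz
  have hle : ∀ x, Metric.infDist z E ≤ ‖z - a x‖ := by
    intro x
    rw [← dist_eq_norm]
    exact Metric.infDist_le_dist_of_mem (haE x)
  have hne0 : ∀ x, z - a x ≠ 0 := fun x => norm_pos_iff.1 (hpos.trans_le (hle x))
  have hbd : ∀ x, ‖(z - a x)⁻¹‖ ≤ 1 / Metric.infDist z E := by
    intro x
    rw [norm_inv, ← one_div]
    exact one_div_le_one_div_of_le hpos (hle x)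
  have hb : MB fun x => (z - a x)⁻¹ := by
    refine ⟨⟨_, hbd⟩, ?_⟩
    have h3 : AEMeasurable (fun x => z - a x) hm := ha.me.aemeasurable.const_sub z
    exact h3.inv.aestronglyMeasurable
  have hma : MB fun x => (-1 : ℂ) * a x := by
    obtain ⟨M, hM⟩ := ha.bo
    refine ⟨⟨M, fun x => ?_⟩, ha.me.const_mul (-1)⟩
    show ‖(-1 : ℂ) * a x‖ ≤ M
    rw [neg_one_mul, norm_neg]
    exact hM x
  have hza : MB fun x => z + (-1 : ℂ) * a x := by
    obtain ⟨M, hM⟩ := ha.bo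
    refine ⟨⟨‖z‖ + M, fun x => ?_⟩, aestronglyMeasurable_const.add hma.me⟩
    refine (norm_add_le _ _).trans (add_le_add le_rfl ?_)
    rw [neg_one_mul, norm_neg]
    exact hM x
  have h4 : mo (fun x => z + (-1 : ℂ) * a x) = algebraMap ℂ (LL →L[ℂ] LL) z - mo a := by
    rw [hadd _ _ (O7L.mb_const z) hma, hmul _ _ (O7L.mb_const (-1)) ha, hconst, hconst, map_neg,
      map_one, neg_one_mul, sub_eq_add_neg]
  have h5 : mo (fun x => (z - a x)⁻¹) * (algebraMap ℂ (LL →L[ℂ] LL) z - mo a) = 1 := by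
    rw [← h4, ← hmul _ _ hb hza]
    have h6 : (fun x => (z - a x)⁻¹ * (z + (-1 : ℂ) * a x)) = fun _ => (1 : ℂ) := by
      funext x
      rw [neg_one_mul, ← sub_eq_add_neg]
      exact inv_mul_cancel₀ (hne0 x)
    rw [h6, hconst, map_one]
  have h7 : (algebraMap ℂ (LL →L[ℂ] LL) z - mo a) * mo (fun x => (z - a x)⁻¹) = 1 := by
    rw [← h4, ← hmul _ _ hza hb]
    have h6 : (fun x => (z + (-1 : ℂ) * a x) * (z - a x)⁻¹) = fun _ => (1 : ℂ) := by
      funext x
      rw [neg_one_mul, ← sub_eq_add_neg]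
      exact mul_inv_cancel₀ (hne0 x)
    rw [h6, hconst, map_one]
  let u : (LL →L[ℂ] LL)ˣ := ⟨algebraMap ℂ (LL →L[ℂ] LL) z - mo a, mo (fun x => (z - a x)⁻¹), h7, h5⟩
  have hu : IsUnit (algebraMap ℂ (LL →L[ℂ] LL) z - mo a) := ⟨u, rfl⟩
  refine ⟨hu, ?_⟩
  have h8 : resolvent (mo a) z = mo (fun x => (z - a x)⁻¹) := by
    rw [resolvent]
    exact Ring.inverse_unit u
  rw [h8]
  exact (h1 _ hb).2 _ (by positivity) hbd

end Pool.Agent.H259.PC
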