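import Pool.Agent.H259.RH.PD

/-!
# Polynomially decaying approximation numbers, normed spaces
-/

set_option autoImplicit false

namespace Pool.Agent.H259.PC

section
variable {H G K : Type} [NormedAddCommGroup H] [NormedSpace ℂ H]
  [NormedAddCommGroup G] [NormedSpace ℂ G] [NormedAddCommGroup K] [NormedSpace ℂ K]

/-- the approximation numbers decay at least like a negative power -/
def PN (D : H →L[ℂ] G) : Prop :=
  ∃ C ε : ℝ, 0 < ε ∧ ∀ m : ℕ, 1 ≤ m → ∃ F : H →L[ℂ] G,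
      FiniteDimensional ℂ (LinearMap.range (F : H →ₗ[ℂ] G)) ∧
      Module.finrank ℂ (LinearMap.range (F : H →ₗ[ℂ] G)) ≤ m ∧ ‖D - F‖ ≤ C / (m : ℝ) ^ ε

/-- rank at most `m` -/
def Rn (m : ℕ) (F : H →L[ℂ] G) : Prop :=
  FiniteDimensional ℂ (LinearMap.range (F : H →ₗ[ℂ] G)) ∧
      Module.finrank ℂ (LinearMap.range (F : H →ₗ[ℂ] G)) ≤ m

lemma Rn.mono {m n : ℕ} {F : H →L[ℂ] G} (h : Rn m F) (hmn : m ≤ n) : Rn n F := ⟨h.1, h.2.trans hmn⟩

lemma Rn.zero (m : ℕ) : Rn m (0 : H →L[ℂ] G) := by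
  have h0 : LinearMap.range ((0 : H →L[ℂ] G) : H →ₗ[ℂ] G) = ⊥ := LinearMap.range_zero
  refine ⟨?_, ?_⟩
  · rw [h0]; infer_instance
  · rw [h0]; simp

lemma Rn.add {m n : ℕ} {F F' : H →L[ℂ] G} (h : Rn m F) (h' : Rn n F') : Rn (m + n) (F + F') := by
  have hle : LinearMap.range ((F + F' : H →L[ℂ] G) : H →ₗ[ℂ] G) ≤
      LinearMap.range (F : H →ₗ[ℂ] G) ⊔ LinearMap.range (F' : H →ₗ[ℂ] G) := by
    rintro _ ⟨x, rfl⟩
    exact Submodule.add_mem_sup ⟨x, rfl⟩ ⟨x, rfl⟩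
  have := h.1
  have := h'.1
  have hf : FiniteDimensional ℂ ↥(LinearMap.range (F : H →ₗ[ℂ] G) ⊔ LinearMap.range (F' : H →ₗ[ℂ] G)) :=
    inferInstance
  refine ⟨Submodule.finiteDimensional_of_le hle, ?_⟩
  refine (Submodule.finrank_mono hle).trans ?_
  refine (Submodule.finrank_add_le_finrank_add_finrank _ _).trans ?_
  exact add_le_add h.2 h'.2

lemma Rn.comp_left {m : ℕ} {F : H →L[ℂ] G} (h : Rn m F) (A : G →L[ℂ] K) : Rn m (A.comp F) := by
  have he : LinearMap.range ((A.comp F : H →L[ℂ] K) : H →ₗ[ℂ] K) =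
      (LinearMap.range (F : H →ₗ[ℂ] G)).map (A : G →ₗ[ℂ] K) := by
    ext x
    constructor
    · rintro ⟨y, rfl⟩
      exact ⟨F y, ⟨y, rfl⟩, rfl⟩
    · rintro ⟨_, ⟨y, rfl⟩, rfl⟩
      exact ⟨y, rfl⟩
  have := h.1
  unfold Rn
  rw [he]
  exact ⟨inferInstance, (Submodule.finrank_map_le _ _).trans h.2⟩

lemma Rn.comp_right {m : ℕ} {F : H →L[ℂ] G} (h : Rn m F) (A : K →L[ℂ] H) : Rn m (F.comp A) := by
  have hle : LinearMap.range ((F.comp A : K →L[ℂ] G) : K →ₗ[ℂ] G) ≤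
      LinearMap.range (F : H →ₗ[ℂ] G) := by
    rintro _ ⟨x, rfl⟩
    exact ⟨A x, rfl⟩
  have := h.1
  exact ⟨Submodule.finiteDimensional_of_le hle, (Submodule.finrank_mono hle).trans h.2⟩

lemma PN.of_rk {m : ℕ} {D : H →L[ℂ] G} (h : Rn m D) : PN D := by
  refine ⟨‖D‖ * m, 1, one_pos, fun n hn => ?_⟩
  have hn0 : (0 : ℝ) < n := by exact_mod_cast hn
  by_cases hmn : m ≤ n
  · refine ⟨D, h.1, h.2.trans hmn, ?_⟩
    rw [sub_self, norm_zero]
    positivity
  · refine ⟨0, (Rn.zero n).1, (Rn.zero n).2, ?_⟩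
    rw [sub_zero, Real.rpow_one, le_div_iff₀ hn0]
    have : (n : ℝ) ≤ m := by exact_mod_cast (not_le.1 hmn).le
    gcongr

lemma PN.zero : PN (0 : H →L[ℂ] G) := PN.of_rk (Rn.zero 0)

lemma PN.comp_left {D : H →L[ℂ] G} (h : PN D) (A : G →L[ℂ] K) : PN (A.comp D) := by
  obtain ⟨C, ε, hε, h⟩ := h
  refine ⟨‖A‖ * C, ε, hε, fun m hm => ?_⟩
  obtain ⟨F, hF1, hF2, hF3⟩ := h m hm
  have hr := Rn.comp_left (⟨hF1, hF2⟩ : Rn m F) A
  refine ⟨A.comp F, hr.1, hr.2, ?_⟩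
  rw [← ContinuousLinearMap.comp_sub, mul_div_assoc]
  exact (ContinuousLinearMap.opNorm_comp_le _ _).trans (mul_le_mul_of_nonneg_left hF3 (norm_nonneg _))

lemma PN.comp_right {D : H →L[ℂ] G} (h : PN D) (A : K →L[ℂ] H) : PN (D.comp A) := by
  obtain ⟨C, ε, hε, h⟩ := h
  refine ⟨C * ‖A‖, ε, hε, fun m hm => ?_⟩
  obtain ⟨F, hF1, hF2, hF3⟩ := h m hm
  have hr := Rn.comp_right (⟨hF1, hF2⟩ : Rn m F) A
  refine ⟨F.comp A, hr.1, hr.2, ?_⟩
  rw [← ContinuousLinearMap.sub_comp, mul_div_right_comm]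
  exact (ContinuousLinearMap.opNorm_comp_le _ _).trans (mul_le_mul_of_nonneg_right hF3 (norm_nonneg _))

lemma PN.smul {D : H →L[ℂ] G} (h : PN D) (c : ℂ) : PN (c • D) := by
  have : c • D = (c • ContinuousLinearMap.id ℂ G).comp D := by
    ext x; simp
  rw [this]
  exact h.comp_left _

lemma PN.neg {D : H →L[ℂ] G} (h : PN D) : PN (-D) := by
  have := h.smul (-1)
  simpa using this

lemma PN.add {D D' : H →L[ℂ] G} (h : PN D) (h' : PN D') : PN (D + D') := by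
  obtain ⟨C, ε, hε, h⟩ := h
  obtain ⟨C', ε', hε', h'⟩ := h'
  set δ := min ε ε' with hδ
  have hδ0 : 0 < δ := lt_min hε hε'
  set M := (|C| + |C'|) * 3 ^ δ with hM
  have hM0 : 0 ≤ M := by positivity
  refine ⟨max ‖D + D'‖ M, δ, hδ0, fun m hm => ?_⟩
  have hm0 : (0 : ℝ) < m := by exact_mod_cast hm
  rcases Nat.lt_or_ge m 2 with hm2 | hm2
  · have : m = 1 := by omega
    subst this
    refine ⟨0, (Rn.zero 1).1, (Rn.zero 1).2, ?_⟩
    simp
  · set k := m / 2 with hk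
    have hk1 : 1 ≤ k := by omega
    have hkm : k + k ≤ m := by omega
    have h3k : m ≤ 3 * k := by omega
    have hk0 : (0 : ℝ) < k := by exact_mod_cast hk1
    have hk1' : (1 : ℝ) ≤ k := by exact_mod_cast hk1
    obtain ⟨F, hF1, hF2, hF3⟩ := h k hk1
    obtain ⟨F', hF1', hF2', hF3'⟩ := h' k hk1
    have hr := (Rn.add (⟨hF1, hF2⟩ : Rn k F) (⟨hF1', hF2'⟩ : Rn k F')).mono hkm
    refine ⟨F + F', hr.1, hr.2, ?_⟩
    have e1 : D + D' - (F + F') = (D - F) + (D' - F') := by abel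
    have b1 : C / (k : ℝ) ^ ε ≤ |C| / (k : ℝ) ^ δ := by
      refine (div_le_div_of_nonneg_right (le_abs_self C) (by positivity)).trans ?_
      exact div_le_div_of_nonneg_left (abs_nonneg C) (by positivity)
        (Real.rpow_le_rpow_of_exponent_le hk1' (min_le_left _ _))
    have b2 : C' / (k : ℝ) ^ ε' ≤ |C'| / (k : ℝ) ^ δ := by
      refine (div_le_div_of_nonneg_right (le_abs_self C') (by positivity)).trans ?_
      exact div_le_div_of_nonneg_left (abs_nonneg C') (by positivity)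
        (Real.rpow_le_rpow_of_exponent_le hk1' (min_le_right _ _))
    have b3 : (m : ℝ) ^ δ ≤ 3 ^ δ * (k : ℝ) ^ δ := by
      rw [← Real.mul_rpow (by norm_num) hk0.le]
      refine Real.rpow_le_rpow hm0.le ?_ hδ0.le
      exact_mod_cast h3k
    calc ‖D + D' - (F + F')‖ ≤ ‖D - F‖ + ‖D' - F'‖ := by rw [e1]; exact norm_add_le _ _
      _ ≤ |C| / (k : ℝ) ^ δ + |C'| / (k : ℝ) ^ δ := add_le_add (hF3.trans b1) (hF3'.trans b2)
      _ = (|C| + |C'|) / (k : ℝ) ^ δ := by ring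
      _ ≤ M / (m : ℝ) ^ δ := by
          rw [div_le_div_iff₀ (by positivity) (by positivity), hM]
          have : 0 ≤ |C| + |C'| := by positivity
          calc (|C| + |C'|) * (m : ℝ) ^ δ ≤ (|C| + |C'|) * (3 ^ δ * (k : ℝ) ^ δ) := by gcongr
            _ = _ := by ring
      _ ≤ max ‖D + D'‖ M / (m : ℝ) ^ δ := by
          gcongr
          exact le_max_right _ _

lemma PN.sub {D D' : H →L[ℂ] G} (h : PN D) (h' : PN D') : PN (D - D') := by
  rw [sub_eq_add_neg]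
  exact h.add h'.neg

lemma PN.sum {ι : Type} (s : Finset ι) (D : ι → H →L[ℂ] G) (h : ∀ i ∈ s, PN (D i)) :
    PN (∑ i ∈ s, D i) := by
  classical
  induction s using Finset.induction_on with
  | empty => simpa using PN.zero
  | insert a s ha ih =>
    rw [Finset.sum_insert ha]
    exact (h a (Finset.mem_insert_self _ _)).add (ih fun i hi => h i (Finset.mem_insert_of_mem hi))


lemma PN.prod {D : H →L[ℂ] G} {D' : H →L[ℂ] K} (h : PN D) (h' : PN D') : PN (D.prod D') := by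
  have e : D.prod D' = (ContinuousLinearMap.inl ℂ G K).comp D +
      (ContinuousLinearMap.inr ℂ G K).comp D' := by
    refine ContinuousLinearMap.ext fun x => Prod.ext ?_ ?_
    · change D x = D x + 0
      rw [add_zero]
    · change D' x = 0 + D' x
      rw [zero_add]
  rw [e]
  exact (h.comp_left _).add (h'.comp_left _)

end

lemma PN.of_pd {H G : Type} [NormedAddCommGroup H] [InnerProductSpace ℂ H]
    [NormedAddCommGroup G] [InnerProductSpace ℂ G] {D : H →L[ℂ] G} (h : RH.PD D) : PN D := h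

lemma PN.to_pd {H G : Type} [NormedAddCommGroup H] [InnerProductSpace ℂ H]
    [NormedAddCommGroup G] [InnerProductSpace ℂ G] {D : H →L[ℂ] G} (h : PN D) : RH.PD D := h

end Pool.Agent.H259.PC
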