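import Pool.Agent.H259.PC.PN
import Pool.Agent.H259.RR.Fred

/-!
# Removing a polynomial from a left inverse
-/

set_option autoImplicit false
set_option linter.unusedSectionVars false

open Metric Set Polynomial
open scoped NNReal

namespace Pool.Agent.H259.PC

open Pool.Agent.H259.RR Pool.Agent.W402.HI Pool.Agent.W706.HIR Pool.Agent.K4H63.RC
  Pool.Agent.K4H63.RD

/-- polynomial growth of the resolvent -/
def Gr {G : Type} [NormedAddCommGroup G] [NormedSpace ℂ G] (E : Set ℂ) (S : G →L[ℂ] G) : Prop :=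
  (∀ z, z ∉ E → z ∈ resolventSet ℂ S) ∧
    ∃ (C : ℝ) (k : ℕ), ∀ z, z ∉ E → infDist z E ≤ 1 → ‖resolvent S z‖ ≤ C / infDist z E ^ k

section

variable {G : Type} [NormedAddCommGroup G] [NormedSpace ℂ G] [CompleteSpace G]
variable {H : Type} [NormedAddCommGroup H] [NormedSpace ℂ H] [CompleteSpace H]

/-- the triangular operator -/
noncomputable def stp (S : G →L[ℂ] G) (ω : ℂ) (L : G →L[ℂ] H) : G × H →L[ℂ] G × H :=
  (S.comp (ContinuousLinearMap.fst ℂ G H)).prod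
    (ω • ContinuousLinearMap.snd ℂ G H + L.comp (ContinuousLinearMap.fst ℂ G H))

theorem stp_res {S : G →L[ℂ] G} {ω z : ℂ} (L : G →L[ℂ] H) (hz : z ∈ resolventSet ℂ S) (hzc : z ≠ ω) :
    z ∈ resolventSet ℂ (stp S ω L) ∧
      ‖resolvent (stp S ω L) z‖ ≤ ‖resolvent S z‖ + ‖z - ω‖⁻¹ * (1 + ‖L‖ * ‖resolvent S z‖) := by
  have h0 : z - ω ≠ 0 := sub_ne_zero.2 hzc
  obtain ⟨s1, s2⟩ := res_apply hz
  set R : G × H →L[ℂ] G × H := ((resolvent S z).comp (ContinuousLinearMap.fst ℂ G H)).prod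
    ((z - ω)⁻¹ • (ContinuousLinearMap.snd ℂ G H + (L.comp (resolvent S z)).comp
      (ContinuousLinearMap.fst ℂ G H))) with hR
  have h1 : (algebraMap ℂ (G × H →L[ℂ] G × H) z - stp S ω L) * R = 1 := by
    rw [Algebra.algebraMap_eq_smul_one]
    refine ContinuousLinearMap.ext fun x => Prod.ext ?_ ?_
    · exact s1 x.1
    · change z • ((z - ω)⁻¹ • (x.2 + L (resolvent S z x.1))) -
        (ω • ((z - ω)⁻¹ • (x.2 + L (resolvent S z x.1))) + L (resolvent S z x.1)) = x.2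
      rw [sub_add_eq_sub_sub, ← sub_smul, smul_smul, mul_inv_cancel₀ h0, one_smul,
        add_sub_cancel_right]
  have h2 : R * (algebraMap ℂ (G × H →L[ℂ] G × H) z - stp S ω L) = 1 := by
    rw [Algebra.algebraMap_eq_smul_one]
    refine ContinuousLinearMap.ext fun x => Prod.ext ?_ ?_
    · exact s2 x.1
    · change (z - ω)⁻¹ • ((z • x.2 - (ω • x.2 + L x.1)) + L (resolvent S z (z • x.1 - S x.1))) = x.2
      rw [s2, sub_add_eq_sub_sub, sub_add_cancel, ← sub_smul, smul_smul, inv_mul_cancel₀ h0,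
        one_smul]
  have hu : IsUnit (algebraMap ℂ (G × H →L[ℂ] G × H) z - stp S ω L) := ⟨⟨_, _, h1, h2⟩, rfl⟩
  refine ⟨hu, ?_⟩
  have h3 : resolvent (stp S ω L) z = R := by
    unfold resolvent
    calc Ring.inverse (algebraMap ℂ (G × H →L[ℂ] G × H) z - stp S ω L) =
          Ring.inverse (algebraMap ℂ (G × H →L[ℂ] G × H) z - stp S ω L) *
            ((algebraMap ℂ (G × H →L[ℂ] G × H) z - stp S ω L) * R) := by rw [h1, mul_one]
      _ = R := by rw [← mul_assoc, Ring.inverse_mul_cancel _ hu, one_mul]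
  rw [h3]
  refine ContinuousLinearMap.opNorm_le_bound _ (by positivity) fun x => ?_
  rw [Prod.norm_def]
  have h4 := (resolvent S z).le_opNorm x.1
  have h5 := norm_fst_le x
  have h5' := norm_snd_le x
  have h7 : ‖resolvent S z x.1‖ ≤ ‖resolvent S z‖ * ‖x‖ := h4.trans (by gcongr)
  refine max_le ?_ ?_
  · change ‖resolvent S z x.1‖ ≤ _
    have h6 : 0 ≤ (‖z - ω‖⁻¹ * (1 + ‖L‖ * ‖resolvent S z‖)) * ‖x‖ := by positivity
    nlinarith
  · change ‖(z - ω)⁻¹ • (x.2 + L (resolvent S z x.1))‖ ≤ _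
    rw [norm_smul, norm_inv]
    have h8 : ‖x.2 + L (resolvent S z x.1)‖ ≤ (1 + ‖L‖ * ‖resolvent S z‖) * ‖x‖ := by
      calc ‖x.2 + L (resolvent S z x.1)‖ ≤ ‖x.2‖ + ‖L (resolvent S z x.1)‖ := norm_add_le _ _
        _ ≤ ‖x‖ + ‖L‖ * (‖resolvent S z‖ * ‖x‖) := by
            gcongr
            exact (L.le_opNorm _).trans (by gcongr)
        _ = _ := by ring
    have h9 : 0 ≤ ‖resolvent S z‖ * ‖x‖ := by positivity
    calc ‖z - ω‖⁻¹ * ‖x.2 + L (resolvent S z x.1)‖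
        ≤ ‖z - ω‖⁻¹ * ((1 + ‖L‖ * ‖resolvent S z‖) * ‖x‖) := by gcongr
      _ ≤ _ := by nlinarith

theorem stp_gr {E : Set ℂ} (hEc : IsClosed E) {ω : ℂ} (hω : ω ∈ E) {S : G →L[ℂ] G} (hS : Gr E S)
    (L : G →L[ℂ] H) : Gr E (stp S ω L) := by
  obtain ⟨hS, C, k, hC⟩ := hS
  refine ⟨fun z hz => (stp_res L (hS z hz) (fun h => hz (h ▸ hω))).1, ?_⟩
  refine ⟨|C| + (1 + ‖L‖ * |C|), k + 1, fun z hz hz1 => ?_⟩
  have hd : 0 < infDist z E := (hEc.notMem_iff_infDist_pos ⟨_, hω⟩).1 hz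
  refine (stp_res L (hS z hz) (fun h => hz (h ▸ hω))).2.trans ?_
  set d := infDist z E with hdd
  have h1 : ‖resolvent S z‖ ≤ |C| / d ^ k := by
    refine (hC z hz hz1).trans ?_
    gcongr
    exact le_abs_self C
  have hdk : d ^ (k + 1) ≤ d ^ k := pow_le_pow_of_le_one hd.le hz1 (by omega)
  have hdk1 : d ^ k ≤ 1 := pow_le_one₀ hd.le hz1
  have h2 : ‖z - ω‖⁻¹ ≤ d⁻¹ := by
    have h3 : d ≤ ‖z - ω‖ := by
      rw [← dist_eq_norm]
      exact infDist_le_dist_of_mem hω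
    exact inv_anti₀ hd h3
  have h4 : 1 + ‖L‖ * ‖resolvent S z‖ ≤ (1 + ‖L‖ * |C|) / d ^ k := by
    rw [add_div]
    have h5 : 1 ≤ 1 / d ^ k := by
      rw [le_div_iff₀ (by positivity), one_mul]
      exact hdk1
    have h6 : ‖L‖ * ‖resolvent S z‖ ≤ ‖L‖ * |C| / d ^ k := by
      calc ‖L‖ * ‖resolvent S z‖ ≤ ‖L‖ * (|C| / d ^ k) := by gcongr
        _ = _ := by ring
    linarith
  calc ‖resolvent S z‖ + ‖z - ω‖⁻¹ * (1 + ‖L‖ * ‖resolvent S z‖)
      ≤ |C| / d ^ (k + 1) + d⁻¹ * ((1 + ‖L‖ * |C|) / d ^ k) := by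
        gcongr
        exact h1.trans (by gcongr)
    _ = _ := by
        rw [pow_succ]
        field_simp

end

section

variable {G : Type} [NormedAddCommGroup G] [NormedSpace ℂ G] [CompleteSpace G]
variable {H : Type} [NormedAddCommGroup H] [NormedSpace ℂ H] [CompleteSpace H]

/-- one step -/
theorem step {E : Set ℂ} (hEc : IsClosed E) {ω : ℂ} (hω : ω ∈ E) {S : G →L[ℂ] G} (hS : Gr E S)
    {T R : H →L[ℂ] H} (hR : R * T = T * R) {J : H →L[ℂ] G} {L : G →L[ℂ] H}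
    (h1 : PN (S.comp J - J.comp T))
    (h2 : PN (L.comp J - (T - algebraMap ℂ (H →L[ℂ] H) ω) * R)) :
    Gr E (stp S ω L) ∧ PN ((stp S ω L).comp (J.prod R) - (J.prod R).comp T) ∧
      (ContinuousLinearMap.snd ℂ G H).comp (J.prod R) = R := by
  refine ⟨stp_gr hEc hω hS L, ?_, rfl⟩
  have e : (stp S ω L).comp (J.prod R) - (J.prod R).comp T =
      (S.comp J - J.comp T).prod (L.comp J - (T - algebraMap ℂ (H →L[ℂ] H) ω) * R) := by
    refine ContinuousLinearMap.ext fun x => Prod.ext rfl ?_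
    have h3 : R (T x) = T (R x) := congrArg (fun A : H →L[ℂ] H => A x) hR
    rw [Algebra.algebraMap_eq_smul_one]
    change (ω • R x + L (J x)) - R (T x) = L (J x) - (T (R x) - ω • R x)
    rw [h3]
    abel
  rw [e]
  exact h1.prod h2

/-- removing all roots -/
theorem iter {E : Set ℂ} (hEc : IsClosed E) {T : H →L[ℂ] H} (l : List ℂ) (hl : ∀ ω ∈ l, ω ∈ E) :
    ∀ (ω : ℂ), ω ∈ E → ∀ (G : Type) [NormedAddCommGroup G] [NormedSpace ℂ G] [CompleteSpace G]
      (S : G →L[ℂ] G) (J : H →L[ℂ] G) (L : G →L[ℂ] H), Gr E S → PN (S.comp J - J.comp T) →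
      PN (L.comp J - (T - algebraMap ℂ (H →L[ℂ] H) ω) *
        (l.map fun ω => T - algebraMap ℂ (H →L[ℂ] H) ω).prod) →
      ∃ (G' : Type) (_ : NormedAddCommGroup G') (_ : NormedSpace ℂ G') (_ : CompleteSpace G')
        (S' : G' →L[ℂ] G') (J' : H →L[ℂ] G') (L' : G' →L[ℂ] H), Gr E S' ∧
        PN (S'.comp J' - J'.comp T) ∧ ∀ v, L' (J' v) = v := by
  induction l with
  | nil =>
    intro ω hω G _ _ _ S J L hS h1 h2
    rw [List.map_nil, List.prod_nil] at h2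
    obtain ⟨s1, s2, s3⟩ := step hEc hω hS (R := 1) (by rw [one_mul, mul_one]) h1 h2
    exact ⟨G × H, inferInstance, inferInstance, inferInstance, stp S ω L, J.prod 1,
      ContinuousLinearMap.snd ℂ G H, s1, s2, fun v => congrArg (fun A : H →L[ℂ] H => A v) s3⟩
  | cons ω' l ih =>
    intro ω hω G _ _ _ S J L hS h1 h2
    set R : H →L[ℂ] H := ((ω' :: l).map fun ω => T - algebraMap ℂ (H →L[ℂ] H) ω).prod with hR
    have hc : R * T = T * R := by
      have : Commute R T := by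
        rw [hR]
        refine (Commute.list_prod_right _ T fun x hx => ?_).symm
        rw [List.mem_map] at hx
        obtain ⟨a, -, rfl⟩ := hx
        exact (Commute.refl T).sub_right (Algebra.commutes a T).symm
      exact this
    obtain ⟨s1, s2, s3⟩ := step hEc hω hS (R := R) hc h1 h2
    refine ih (fun ω hω => hl ω (List.mem_cons_of_mem _ hω)) ω' (hl ω' List.mem_cons_self)
      (G × H) (stp S ω L) (J.prod R) (ContinuousLinearMap.snd ℂ G H) s1 s2 ?_
    rw [s3, hR, List.map_cons, List.prod_cons, sub_self]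
    exact PN.zero

end

section

variable {G : Type} [NormedAddCommGroup G] [NormedSpace ℂ G] [CompleteSpace G]
variable {H : Type} [NormedAddCommGroup H] [InnerProductSpace ℂ H] [CompleteSpace H]

/-- hyperinvariant subspaces -/
theorem hyp_main {γ : ℝ → ℂ} {L₀ : NNReal} (hγ : LipschitzWith L₀ γ) {S : G →L[ℂ] G}
    (hS : Gr (γ '' Icc 0 1) S) {T : H →L[ℂ] H} {J : H →L[ℂ] G} {L : G →L[ℂ] H}
    (h1 : PN (S.comp J - J.comp T)) {l : List ℂ} (hne : l ≠ []) (hl : ∀ ω ∈ l, ω ∈ γ '' Icc (0 : ℝ) 1)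
    (h2 : PN (L.comp J - (l.map fun ω => T - algebraMap ℂ (H →L[ℂ] H) ω).prod)) :
    (IsScalar T ∨ HasHyp T) ∧ (Reductive T → IsStarNormal T) := by
  have hEc : IsClosed (γ '' Icc (0 : ℝ) 1) := (isCompact_Icc.image hγ.continuous).isClosed
  obtain ⟨ω, l, rfl⟩ := List.exists_cons_of_ne_nil hne
  rw [List.map_cons, List.prod_cons] at h2
  obtain ⟨G', _, _, _, S', J', L', hS', hJ', hL'⟩ := iter hEc l
    (fun ω hω => hl ω (List.mem_cons_of_mem _ hω)) ω (hl ω List.mem_cons_self) G S J L hS h1 h2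
  refine ⟨?_, fun hred => ?_⟩
  · exact hyp_growth S' _ γ L₀ hγ hS'.1 hS'.2 (pert_decay' (L := L') hJ') hL' (pert' hL')
  · refine final (q := X) hγ hS'.1 hS'.2 hred (by rw [natDegree_X]; exact one_pos) hL' ?_
    rw [aeval_X]
    exact hJ'

end

end Pool.Agent.H259.PC
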