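import Pool.Agent.H259.PC.Lau
import Pool.Agent.H259.PC.Step
import Pool.Agent.H259.RR.NN

/-!
# Matrices of Laurent polynomials in a unitary operator
-/

set_option autoImplicit false
set_option linter.unusedSectionVars false

open Polynomial Metric

namespace Pool.Agent.H259.PC

open Pool.Agent.H259.RH Pool.Agent.H259.HA Pool.Agent.H259.RR

section
variable {H : Type} [NormedAddCommGroup H] [InnerProductSpace ℂ H] [CompleteSpace H]

theorem isUnit_evL [Nontrivial H] {u : (H →L[ℂ] H)ˣ}
    (hu : star (u : H →L[ℂ] H) = ((u⁻¹ : (H →L[ℂ] H)ˣ) : H →L[ℂ] H)) {δ : LP}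
    (hδ : ∀ t : ℂˣ, ‖(t : ℂ)‖ = 1 → evL t δ ≠ 0) : IsUnit (evL u δ) := by
  obtain ⟨n, p, hp⟩ := LaurentPolynomial.exists_T_pow δ
  have huU : (u : H →L[ℂ] H) ∈ unitary (H →L[ℂ] H) := by
    rw [Unitary.mem_iff, hu, Units.inv_mul, Units.mul_inv]
    exact ⟨rfl, rfl⟩
  have h1 : IsUnit (aeval (u : H →L[ℂ] H) p) := by
    by_contra hcon
    have h2 : (0 : ℂ) ∈ spectrum ℂ (aeval (u : H →L[ℂ] H) p) := by
      rw [spectrum.mem_iff, map_zero, zero_sub, IsUnit.neg_iff]
      exact hcon
    rw [spectrum.map_polynomial_aeval_of_nonempty _ p (spectrum.nonempty _)] at h2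
    obtain ⟨r, hr, hr0⟩ := h2
    have h3 : ‖r‖ = 1 := by
      have h4 := spectrum.subset_circle_of_unitary huU hr
      rwa [mem_sphere_zero_iff_norm] at h4
    have hr1 : r ≠ 0 := by
      intro h
      rw [h, norm_zero] at h3
      exact zero_ne_one h3
    have h4 := congrArg (evL (Units.mk0 r hr1)) hp
    rw [evL_poly, map_mul, evL_T] at h4
    have h5 : aeval (r : ℂ) p = 0 := by
      rw [coe_aeval_eq_eval]
      exact hr0
    rw [Units.val_mk0, h5] at h4
    rcases mul_eq_zero.1 h4.symm with h6 | h6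
    · exact hδ _ (by rw [Units.val_mk0]; exact h3) h6
    · exact (Units.ne_zero _) h6
  rw [← evL_poly, hp, map_mul, evL_T] at h1
  exact (Units.isUnit_mul_units _ _).1 h1

theorem comm_star {u : (H →L[ℂ] H)ˣ}
    (hu : star (u : H →L[ℂ] H) = ((u⁻¹ : (H →L[ℂ] H)ˣ) : H →L[ℂ] H)) (x y : LP) :
    Commute (evL u x) (star (evL u y)) := by
  refine Commute.symm ?_
  have h1 : Commute (evL u y) (u : H →L[ℂ] H) := (comm_evL rfl y).symm
  have h2 : Commute (evL u y) ((u⁻¹ : (H →L[ℂ] H)ˣ) : H →L[ℂ] H) := h1.units_inv_right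
  have h3 : Commute (star (evL u y)) (u : H →L[ℂ] H) := by
    have h4 := h2.star_star
    rw [← hu, star_star] at h4
    exact h4
  exact comm_evL h3 x

variable {ι : Type} [Fintype ι] [DecidableEq ι]

/-- **growth** -/
theorem uni_growth [Nontrivial H] {u : (H →L[ℂ] H)ˣ}
    (hu : star (u : H →L[ℂ] H) = ((u⁻¹ : (H →L[ℂ] H)ˣ) : H →L[ℂ] H)) (F : Matrix ι ι LP)
    {E : Set ℂ} (hE : IsCompact E) (hEne : E.Nonempty)
    (hr : ∀ t : ℂˣ, ‖(t : ℂ)‖ = 1 → ∀ r, (F.map (evL t)).charpoly.IsRoot r → r ∈ E) :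
    Gr E (mop (F.map (evL u))) := by
  have hs : ∀ z, z ∉ E → z ∈ resolventSet ℂ (mop (F.map (evL u))) := by
    intro z hz
    set δ : LP := (Matrix.scalar ι (LaurentPolynomial.C z) - F).det with hδ
    have h1 : ∀ t : ℂˣ, ‖(t : ℂ)‖ = 1 → evL t δ ≠ 0 := by
      intro t ht h0
      refine hz (hr t ht z ?_)
      have h2 : evL t δ = (F.map (evL t)).charpoly.eval z := by
        rw [Matrix.eval_charpoly]
        have h3 := RingHom.map_det (evL t : LP →+* ℂ) (Matrix.scalar ι (LaurentPolynomial.C z) - F)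
        have h4 : (evL t : LP →+* ℂ).mapMatrix (Matrix.scalar ι (LaurentPolynomial.C z) - F) =
            Matrix.scalar ι z - F.map (evL t) := by
          ext i j
          rw [RingHom.mapMatrix_apply, Matrix.map_apply, Matrix.sub_apply, Matrix.sub_apply,
            Matrix.map_apply, map_sub]
          congr 1
          by_cases hij : i = j
          · subst hij
            rw [Matrix.scalar_apply, Matrix.scalar_apply, Matrix.diagonal_apply_eq,
              Matrix.diagonal_apply_eq]
            exact evL_C t z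
          · rw [Matrix.scalar_apply, Matrix.scalar_apply, Matrix.diagonal_apply_ne _ hij,
              Matrix.diagonal_apply_ne _ hij, map_zero]
        rw [h4] at h3
        exact h3
      rw [h2] at h0
      exact h0
    have h5 := isUnit_evL hu h1
    set Θ : Matrix ι ι LP →ₐ[ℂ] (GG H ι →L[ℂ] GG H ι) :=
      (mopHom (H := H) (ι := ι)).comp (evL u).mapMatrix with hΘ
    have hΘF : Θ F = mop (F.map (evL u)) := rfl
    set M := Matrix.scalar ι (LaurentPolynomial.C z) - F with hM
    have e0 : algebraMap ℂ (GG H ι →L[ℂ] GG H ι) z - mop (F.map (evL u)) = Θ M := by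
      have h6 : (Matrix.scalar ι (LaurentPolynomial.C z) : Matrix ι ι LP) =
          algebraMap ℂ (Matrix ι ι LP) z := by
        rw [Matrix.algebraMap_eq_diagonal]
        rfl
      rw [hM, h6, map_sub, AlgHom.commutes, hΘF]
    have e1 : Θ (M.det • (1 : Matrix ι ι LP)) = dg fun _ => evL u M.det := by
      have h7 : Θ (M.det • (1 : Matrix ι ι LP)) =
          mop ((M.det • (1 : Matrix ι ι LP)).map (evL u)) := rfl
      rw [h7, ← mop_diag, ← Matrix.diagonal_one, ← Matrix.diagonal_smul]
      congr 1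
      rw [Matrix.diagonal_map (map_zero _)]
      congr 1
      funext i
      simp
    have hunit : IsUnit (dg fun _ : ι => evL u M.det) := by
      obtain ⟨v, hv⟩ := h5
      have h8 : IsUnit (dgHom (H := H) (ι := ι) fun _ => evL u M.det) := by
        refine IsUnit.map _ ?_
        rw [Pi.isUnit_iff]
        intro _
        exact ⟨v, hv⟩
      exact h8
    have c1 : Θ M * Θ M.adjugate = dg fun _ => evL u M.det := by
      rw [← map_mul, Matrix.mul_adjugate, e1]
    have c2 : Θ M.adjugate * Θ M = dg fun _ => evL u M.det := by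
      rw [← map_mul, Matrix.adjugate_mul, e1]
    have hcom : Commute (Θ M) (Θ M.adjugate) := by
      change Θ M * Θ M.adjugate = Θ M.adjugate * Θ M
      rw [c1, c2]
    rw [spectrum.mem_resolventSet_iff, e0]
    refine (hcom.isUnit_mul_iff.1 ?_).1
    rw [c1]
    exact hunit
  refine ⟨hs, ?_⟩
  refine growth_nn _ (fun i j k l => ?_) (fun i j k l => ?_) hE hEne ?_
  · change evL u (F i j) * evL u (F k l) = evL u (F k l) * evL u (F i j)
    rw [← map_mul, ← map_mul, mul_comm]
  · exact comm_star hu _ _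
  · intro z hz
    by_contra hcon
    exact hz (hs z hcon)

end

end Pool.Agent.H259.PC
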