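import Pool.Agent.H259.RH.Main
import Pool.Agent.H259.PC.Uni
import Pool.Agent.H259.PC.F1
import Pool.Agent.H259.PC.F23
import Pool.Agent.H259.PC.F4
import Pool.Agent.H259.PC.F5
import Pool.Agent.H259.PC.F6
import Pool.Agent.H259.PC.F7
import Pool.Agent.H259.PC.F8
import Pool.Agent.H259.PC.F9
import Pool.Agent.H259.PC.F10
import Pool.Agent.H259.PC.F11
import Pool.Agent.H259.PC.O1
import Pool.Agent.H259.PC.O3
import Pool.Agent.H259.PC.O5
import Pool.Agent.H259.PC.O6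
import Pool.Agent.H259.PC.O7
import Pool.Agent.H259.PC.C1
import Pool.Agent.H259.PC.C2
import Pool.Agent.H259.PC.C3
import Pool.Agent.H259.PC.C4
import Pool.Agent.H259.PC.C6
import Pool.Agent.H259.PC.C7
import Pool.Agent.H259.PC.C8
import Pool.Agent.H259.PC.C9

/-!
# The quotient and the unitary operator
-/

set_option autoImplicit false
set_option linter.unusedSectionVars false

open MeasureTheory Set
open scoped ComplexConjugate InnerProductSpace

namespace Pool.Agent.H259.PC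

open Pool.Agent.H259.RH

theorem fF1 : S_F1 := leaf_F1
theorem fF2 : S_F2 := leaf_F2
theorem fF3 : S_F3 := leaf_F3
theorem fF4 : S_F4 := leaf_F4 fF1 fF2
theorem fF5 : S_F5 := leaf_F5
theorem fF6 : S_F6 := leaf_F6 fF4
theorem fF7 : S_F7 := leaf_F7 fF1 fF3 fF4
theorem fF8 : S_F8 := leaf_F8 fF4
theorem fF9 : S_F9 := leaf_F9 fF1 fF4 fF5
theorem fF10 : S_F10 := leaf_F10 fF1 fF4 fF7
theorem fF11 : S_F11 := leaf_F11
theorem fR1 : S_R1 := leaf_R1
theorem fFun : Fun := ⟨fF1, fF2, fF3, fF4, fF5, fF6, fF7, fF9, fF11, fR1⟩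
theorem fO1 : S_O1 := leaf_O1
theorem fO2 : S_O2 := leaf_O2
theorem fO3 : S_O3 := leaf_O3 fO1 fO2
theorem fO4 : S_O4 := leaf_O4 fO1 fO2
theorem fO5 : S_O5 := leaf_O5 fO3 fO4
theorem fO7 : S_O7 := leaf_O7 fO1
theorem fO6 : S_O6 := leaf_O6 fF1 fO1 fO2 fO3 fO5 fO7
theorem fD1 : S_D1 := leaf_D1 fO1 fO2
theorem fC1 : S_C1 := leaf_C1 fFun
theorem fC2 : S_C2 := leaf_C2 fFun
theorem fC3 : S_C3 := leaf_C3 fFun fC1 fC2
theorem fC4 : S_C4 := leaf_C4 fFun fC1
theorem fC5 : S_C5 := leaf_C5 fFun fC1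
theorem fC6 : S_C6 := leaf_C6 fFun
theorem fC7 : S_C7 := leaf_C7 fFun fC1 fC2 fC4 fC6
theorem fC8 : S_C8 := leaf_C8 fFun fC1 fC3 fC4 fC5 fC7
theorem fC9 : S_C9 := leaf_C9 fFun fC1 fC3 fC4 fC5
theorem fC10 : S_C10 := leaf_C10 fFun fC1 fC5

theorem mb_chi : MB chi := by
  obtain ⟨h1, -, -, h4, -⟩ := fF4
  refine fF5 _ chi ?_ h1 ⟨1, h4⟩
  exact (Set.finite_singleton _).insert _

theorem mb_ww : MB ww := by
  obtain ⟨-, -, -, -, -, h6, -⟩ := fF4
  exact fF1.2.2.2.2.2.2.1 _ h6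

theorem conj_chi (x : TT) : conj (chi x) = chi x := by
  unfold chi
  split_ifs <;> simp

/-- the basis of exponentials -/
noncomputable def eb : HilbertBasis ℤ ℂ LL := fourierBasis

theorem eb_apply (n : ℤ) : eb n = en n := by
  unfold eb en
  rw [coe_fourierBasis]

instance : Nontrivial LL := by
  refine ⟨⟨eb 0, eb 1, fun h => ?_⟩⟩
  have := eb.orthonormal.linearIndependent.injective h
  omega

/-- the Toeplitz operator of the half circle -/
noncomputable def Ao : LL →L[ℂ] LL := tA Pj mo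
/-- the Hankel operator of the half circle -/
noncomputable def Go : LL →L[ℂ] LL := tG Pj fl mo

theorem fchi : fl * mo chi * fl = 1 - mo chi := by
  obtain ⟨-, h2, -⟩ := fF4
  rw [fO4.2.2.1 _ mb_chi, fO2.2.2.2.1 _ (fun x => 1 + (-1) * chi x) (by
    filter_upwards [h2] with x hx
    rw [hx]; ring)]
  have hm1 : MB fun x => (-1 : ℂ) * chi x := by
    obtain ⟨⟨M, hM⟩, hme⟩ := mb_chi
    refine ⟨⟨M, fun x => ?_⟩, hme.const_mul (-1)⟩
    rw [norm_mul, norm_neg, norm_one, one_mul]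
    exact hM x
  have hc : ∀ c : ℂ, MB fun _ : TT => c := fun c => fF1.2.2.2.2.2.2.1 _ (fF1.1 c)
  rw [fO2.2.1 (fun _ => (1 : ℂ)) _ (hc 1) hm1, fO2.1 (fun _ => (-1 : ℂ)) chi (hc _) mb_chi,
    fO2.2.2.1, fO2.2.2.1, map_one, map_neg, map_one]
  noncomm_ring

theorem chi_sq : mo chi * mo chi = mo chi := by
  obtain ⟨-, -, h3, -⟩ := fF4
  rw [← fO2.1 _ _ mb_chi mb_chi]
  congr 1
  funext x
  exact h3 x

theorem AG : Ao * Go = Go * Ao ∧ Go * Go = Ao * Ao - Ao ∧ Pj * fl * Pj = 0 := by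
  have h := fR1 (LL →L[ℂ] LL) Pj fl (mo chi) fO5.2.1 fO4.1 fO5.2.2.2.1 chi_sq fchi
  exact ⟨h.1, h.2.1, h.2.2.1⟩

theorem star_mo (a : TT → ℂ) (h : MB a) (hc : ∀ x, conj (a x) = a x) : star (mo a) = mo a := by
  rw [ContinuousLinearMap.star_eq_adjoint, fO2.2.2.2.2 a h]
  congr 1
  funext x
  exact hc x

theorem star_Pj : star Pj = Pj := by
  rw [ContinuousLinearMap.star_eq_adjoint]
  exact fO5.2.2.1

theorem star_fl : star fl = fl := by
  rw [ContinuousLinearMap.star_eq_adjoint]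
  exact fO4.2.1

theorem star_Ao : star Ao = Ao := by
  unfold Ao tA
  rw [star_mul, star_mul, star_Pj, star_mo _ mb_chi conj_chi, mul_assoc]

theorem star_Go : star Go = -Go := by
  have h1 : fl * mo chi = (1 - mo chi) * fl := by
    rw [← fchi, mul_assoc, fO4.1, mul_one]
  unfold Go tG
  rw [star_mul, star_mul, star_mul, star_Pj, star_fl, star_mo _ mb_chi conj_chi]
  have h2 := AG.2.2
  calc Pj * (fl * (mo chi * Pj)) = Pj * (fl * mo chi) * Pj := by noncomm_ring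
    _ = Pj * fl * Pj - Pj * mo chi * fl * Pj := by rw [h1]; noncomm_ring
    _ = _ := by rw [h2, zero_sub]

/-- the unitary operator -/
noncomputable def Uo : (LL →L[ℂ] LL)ˣ where
  val := 1 - 2 • Ao + 2 • Go
  inv := 1 - 2 • Ao - 2 • Go
  val_inv := by
    obtain ⟨h1, h2, -⟩ := AG
    have e : (1 - 2 • Ao + 2 • Go) * (1 - 2 • Ao - 2 • Go) = 1 - 4 • Ao + 4 • (Ao * Ao) -
        4 • (Go * Go) + 4 • (Ao * Go - Go * Ao) := by noncomm_ring
    rw [e, h1, h2]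
    noncomm_ring
  inv_val := by
    obtain ⟨h1, h2, -⟩ := AG
    have e : (1 - 2 • Ao - 2 • Go) * (1 - 2 • Ao + 2 • Go) = 1 - 4 • Ao + 4 • (Ao * Ao) -
        4 • (Go * Go) + 4 • (Go * Ao - Ao * Go) := by noncomm_ring
    rw [e, h1, h2]
    noncomm_ring

theorem Uo_val : (Uo : LL →L[ℂ] LL) = 1 - 2 • Ao + 2 • Go := rfl
theorem Uo_inv : ((Uo⁻¹ : (LL →L[ℂ] LL)ˣ) : LL →L[ℂ] LL) = 1 - 2 • Ao - 2 • Go := rfl

theorem star_Uo : star (Uo : LL →L[ℂ] LL) = ((Uo⁻¹ : (LL →L[ℂ] LL)ˣ) : LL →L[ℂ] LL) := by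
  rw [Uo_val, Uo_inv, star_add, star_sub, star_one, star_nsmul, star_nsmul, star_Ao, star_Go,
    smul_neg, ← sub_eq_add_neg]

/-- the homomorphism -/
noncomputable def Ph : LP →ₐ[ℂ] (LL →L[ℂ] LL) := evL Uo

theorem Ph_aa : Ph aaL = Ao := (aa_U Uo_val Uo_inv).1
theorem Ph_ga : Ph gaL = Go := (aa_U Uo_val Uo_inv).2

/-- the data in the quotient -/
theorem dat {Q : Type} [Ring Q] [Algebra ℂ Q] (π : (LL →L[ℂ] LL) →ₐ[ℂ] Q)
    (hπ : ∀ x, π x = 0 ↔ PD x) :
    Dat (π Pj) (π fl) (fun a => π (mo a)) (fun s => π (tr s)) ∧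
    Phi (π Pj) (π fl) (fun a => π (mo a)) (π.comp Ph) aaL gaL := by
  refine ⟨⟨?_, ?_, ?_, ?_, ?_, ?_, ?_, ?_, ?_, ?_, ?_, ?_, ?_, ?_⟩, ⟨?_, ?_, ?_, ?_⟩⟩
  · rw [← map_mul, fO5.2.1]
  · rw [← map_mul, fO4.1, map_one]
  · rw [← map_mul, ← map_mul, fO5.2.2.2.1, map_sub, map_one]
  · intro a b ha hb
    rw [← map_mul, ← fO2.1 a b ha hb]
  · intro a b ha hb
    rw [← map_add, ← fO2.2.1 a b ha hb]
  · intro c
    rw [fO2.2.2.1, AlgHom.commutes]
  · intro a b hab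
    rw [fO2.2.2.2.1 a b hab]
  · intro a ha
    rw [← map_mul, ← map_mul, fO4.2.2.1 a ha]
  · intro s a ha
    rw [← map_mul, ← map_mul, fO3.1 s a ha]
  · intro s t
    rw [← map_mul, fO3.2.1]
  · rw [fO3.2.2.1, map_one]
  · intro s
    rw [← map_mul, ← map_mul, fO5.2.2.2.2]
  · intro s
    rw [← map_mul, ← map_mul, ← map_smul, fO4.2.2.2.2]
  · intro c hc
    rw [← map_mul, ← map_mul, ← sub_eq_zero, ← map_sub, hπ]
    refine PD.of_hs eb _ ?_
    have h1 := fO6 c hc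
    refine h1.congr fun n => ?_
    rw [eb_apply]
  · change π (Ph aaL) = _
    rw [Ph_aa]
    unfold Ao tA
    rw [map_mul, map_mul]
  · change π (Ph gaL) = _
    rw [Ph_ga]
    unfold Go tG
    rw [map_mul, map_mul, map_mul]
  · exact aa_ga
  · intro y h1 h2 x
    have e1 : tA (π Pj) (fun a => π (mo a)) = π Ao := by
      unfold Ao tA
      rw [map_mul, map_mul]
    have e2 : tG (π Pj) (π fl) (fun a => π (mo a)) = π Go := by
      unfold Go tG
      rw [map_mul, map_mul, map_mul]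
    rw [e1] at h1
    rw [e2] at h2
    change y * π (evL Uo x) = π (evL Uo x) * y
    set v : Qˣ := Units.map (π : (LL →L[ℂ] LL) →* Q) Uo with hv
    have hvx : ∀ x, π (evL Uo x) = evL v x := by
      intro x
      induction x using LaurentPolynomial.induction_on' with
      | add p q hp hq => rw [map_add, map_add, hp, hq, map_add]
      | C_mul_T n a =>
        rw [evL_smulT, evL_smulT, map_smul, hv, ← map_zpow]
        rfl
    rw [hvx]
    refine comm_ag (a := π Ao) (g := π Go) ?_ h1 h2 x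
    change π (Uo : LL →L[ℂ] LL) = _
    rw [Uo_val, map_add, map_sub, map_one, map_nsmul, map_nsmul]

end Pool.Agent.H259.PC
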