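import Mathlib

/-!
# Toeplitz and Hankel operators with piecewise Lipschitz symbols: definitions and leaves

Everything is about the circle `TT = ℝ / ℤ` (additive), `fourier n x = exp (2 π i n x)`.
The leaves `S_XXX` are propositions; the doc comments contain the proofs. A leaf may be proved under the
hypothesis of other leaves (`theorem leaf_X (h1 : S_F1) (h2 : S_F4) : S_X`).
-/

set_option autoImplicit false

open MeasureTheory Set
open scoped ComplexConjugate InnerProductSpace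

namespace Pool.Agent.H259.PC

/-- the circle `ℝ / ℤ` -/
abbrev TT : Type := AddCircle (1 : ℝ)

/-- normalised Haar measure -/
noncomputable abbrev hm : Measure TT := AddCircle.haarAddCircle

/-! ### functions -/

/-- Lipschitz functions on the circle -/
def Li (c : TT → ℂ) : Prop := ∃ K : ℝ, ∀ (x : TT) (s : ℝ), ‖c (x + (s : TT)) - c x‖ ≤ K * |s|

/-- bounded functions -/
def Bo (a : TT → ℂ) : Prop := ∃ M : ℝ, ∀ x, ‖a x‖ ≤ M

/-- functions which are Lipschitz on the arcs which do not meet `F` -/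
def PL (F : Set TT) (a : TT → ℂ) : Prop :=
  ∃ L : ℝ, ∀ x y : ℝ, x ≤ y → (∀ z ∈ Icc x y, (z : TT) ∉ F) →
    ‖a (x : TT) - a (y : TT)‖ ≤ L * (y - x)

/-- bounded and measurable functions -/
structure MB (a : TT → ℂ) : Prop where
  bo : Bo a
  me : AEStronglyMeasurable a hm

/-- the indicator function of the open upper half circle -/
noncomputable def chi (x : TT) : ℂ := if 0 < (fourier 1 x : ℂ).im then 1 else 0

/-- the weight, `ww 0 = 1`, `ww (1/2) = 0` -/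
noncomputable def ww (x : TT) : ℂ := (2 + fourier 1 x + fourier (-1) x) / 4

/-- the function with one jump, at `0`, of height `1` -/
noncomputable def kap (x : TT) : ℂ := ww x * chi x

/-- the function with the zeros `z i` -/
noncomputable def uu {ι : Type} [Fintype ι] (z : ι → TT) (x : TT) : ℂ :=
  ∏ i, ((fourier 1 x : ℂ) - fourier 1 (z i))

/-- symbols: Lipschitz off the points `z i`, near `z i` like `α i + β i * chi (x - z i)` -/
structure Sym {ι : Type} (z : ι → TT) (a : TT → ℂ) (α β : ι → ℂ) : Prop where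
  pl : PL (range z) a
  bo : Bo a
  jump : ∀ i, ∃ C : ℝ, ∀ x : TT, ‖a (x + z i) - α i - β i * chi x‖ ≤ C * ‖x‖

/-- F1. Closure properties. Lipschitz functions are bounded (`‖c x‖ ≤ ‖c 0‖ + K`, since every `x` is
`0 + s`, `|s| ≤ 1`), continuous, hence measurable. Last part: write `x` as the class of a real number. -/
def S_F1 : Prop :=
  (∀ c : ℂ, Li fun _ => c) ∧ (∀ n : ℤ, Li fun x => fourier n x) ∧
  (∀ a b, Li a → Li b → Li fun x => a x + b x) ∧ (∀ a b, Li a → Li b → Li fun x => a x * b x) ∧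
  (∀ a, Li a → Li fun x => a (-x)) ∧ (∀ a s, Li a → Li fun x => a (x + s)) ∧
  (∀ a, Li a → MB a) ∧ (∀ a, PL ∅ a → Li a)

/-- F2. Jumps are killed by a Lipschitz function which vanishes there. Let `‖a‖ ≤ M`, let `c` have the Lipschitz
constant `K` (`c` is bounded) and `a` the constant `L` on arcs off `F ∪ G`. Let `x ≤ y` and let `[x, y]` not meet
`F`. If it does not meet `G` then the product estimate gives the bound. If `z ∈ [x, y]` is in `G` then
`‖c x‖ = ‖c x - c z‖ ≤ K (z - x)`, `‖c y‖ ≤ K (y - z)`, so that the difference is `≤ M K (y - x)`. -/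
def S_F2 : Prop :=
  ∀ (F G : Set TT) (a c : TT → ℂ), PL (F ∪ G) a → Bo a → Li c → (∀ x ∈ G, c x = 0) →
    PL F fun x => c x * a x

/-- F3. No jumps. Take the maximum `C'` of the constants `L` and `C σ` (finite set). Let `x ≤ y` be real. If `[x, y]` does
not meet `F` use `PL`, otherwise take `z ∈ [x, y]` in `F` with value `α`,
`‖b x - b y‖ ≤ ‖b x - α‖ + ‖b y - α‖ ≤ C' |x - z| + C' |y - z| = C' (y - x)`, by `‖(t : TT)‖ ≤ |t|`. -/
def S_F3 : Prop :=
  ∀ (F : Set TT) (b : TT → ℂ), F.Finite → PL F b →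
    (∀ σ ∈ F, ∃ (α : ℂ) (C : ℝ), ∀ x, ‖b (x + σ) - α‖ ≤ C * ‖x‖) → Li b

/-- F4. `chi` is constant on intervals which do not meet `0, 1/2` (the imaginary part of `fourier 1`, which
is `sin (2 π x)`, does not vanish there, intermediate value theorem). `kap` is Lipschitz off `0` by the
argument of F2 (`ww (1/2) = 0`). `‖ww x - 1‖ ≤ C ‖x‖`, as `ww` is Lipschitz, `ww 0 = 1`, and
`x` has a real representative `s` with `|s| = ‖x‖`. `chi 0 = 0`. -/
def S_F4 : Prop :=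
  PL {0, ((1 / 2 : ℝ) : TT)} chi ∧ (∀ᵐ x ∂hm, chi (-x) = 1 - chi x) ∧ (∀ x, chi x * chi x = chi x) ∧
  (∀ x, ‖chi x‖ ≤ 1) ∧ chi 0 = 0 ∧
  Li ww ∧ ww 0 = 1 ∧ ww ((1 / 2 : ℝ) : TT) = 0 ∧ (∀ x, ww (-x) = ww x) ∧
  PL {0} kap ∧ Bo kap ∧ (∃ C : ℝ, ∀ x, ‖kap x - chi x‖ ≤ C * ‖x‖)

/-- F5. Measurability: `a` is continuous on the open set `Fᶜ`, and `F` is finite (measure zero). -/
def S_F5 : Prop := ∀ (F : Set TT) (a : TT → ℂ), F.Finite → PL F a → Bo a → MB a

/-- F6. Symbols form an algebra (direct estimates, `chi * chi = chi`). -/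
def S_F6 : Prop :=
  (∀ (ι : Type) (z : ι → TT) (c : ℂ), Sym z (fun _ => c) (fun _ => c) (fun _ => 0)) ∧
  ∀ (ι : Type) (z : ι → TT) (a b : TT → ℂ) (α β α' β' : ι → ℂ), Sym z a α β → Sym z b α' β' →
    Sym z (fun x => a x * b x) (fun i => α i * α' i)
      (fun i => α i * β' i + β i * α' i + β i * β' i) ∧
    Sym z (fun x => a x + b x) (fun i => α i + α' i) (fun i => β i + β' i)

/-- F7. The jumps are given by `kap`. Apply F3 with `F = range z`. `kap (· - z i)` is `PL {z i}`. At `z j` the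
function `x ↦ b (x + z j)` is
`a (x + z j) - β j * kap x - ∑_{i ≠ j} β i * kap (x + (z j - z i))`, the first two terms are within `C ‖x‖` of `α j`
(F4), and `‖kap (x + ζ) - kap ζ‖ ≤ C ‖x‖` for `ζ ≠ 0` (for `‖x‖ < ‖ζ‖` by `PL {0} kap`, otherwise by
boundedness). -/
def S_F7 : Prop :=
  ∀ (ι : Type) [Fintype ι] [DecidableEq ι] (z : ι → TT), Function.Injective z →
    ∀ (a : TT → ℂ) (α β : ι → ℂ), Sym z a α β → Li fun x => a x - ∑ i, β i * kap (x - z i)

/-- F8. Normalisation at the jumps. Let `z i` be the class of `t`. For small `δ ≤ 1/2` the intervals `(t - δ, t)`,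
`(t, t + δ)` do not meet `range z`, `a` is Lipschitz there and extends to Lipschitz functions
(`LipschitzOnWith.extend_finite_dimension` or Cauchy criterion); let `α i` be the left limit, `α i + β i` the right
limit, and `a' (z i) := α i`, `a' = a` elsewhere. Check `jump`: `x` is the class of `s`, `|s| = ‖x‖ ≤ 1/2`; for
`|s| ≥ δ` use boundedness; `chi = 1` for `0 < s < 1/2`, `chi = 0` for `-1/2 ≤ s ≤ 0`. -/
def S_F8 : Prop :=
  ∀ (ι : Type) [Fintype ι] (z : ι → TT), Function.Injective z → ∀ a : TT → ℂ, PL (range z) a → Bo a →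
    ∃ (a' : TT → ℂ) (α β : ι → ℂ), Sym z a' α β ∧ ∀ x ∉ range z, a' x = a x

/-- F9. For every `i` the product `(a x - α i) (a x - (α i + β i))` is bounded by `C ‖x - z i‖`
(`chi` is `0` or `1`), and `4 ‖x - z i‖ ≤ ‖fourier 1 x - fourier 1 (z i)‖`. Take for `a'` the product of the quotients
(`0` at `z i`; there the numerator vanishes). Measurable: use F5 for `a`. -/
def S_F9 : Prop :=
  ∀ (ι : Type) [Fintype ι] (z : ι → TT) (a : TT → ℂ) (α β : ι → ℂ), Sym z a α β →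
    Li (uu z) ∧ (∀ i, uu z (z i) = 0) ∧
    ∃ a' : TT → ℂ, MB a' ∧ ∀ x, ∏ i, ((a x - α i) * (a x - (α i + β i))) = a' x * uu z x

/-- F10. The values of `a` lie on finitely many Lipschitz curves. By F7 there is a Lipschitz function
`c₀` with `a x = c₀ x + ∑ i, β i * ww (x - z i) * chi (x - z i)`, and `chi` is `0` or `1`: for `S ⊆ ι` take
`c_S t = c₀ t + ∑ i ∈ S, β i * ww (t - z i)`, `t ∈ [0, 1]`. -/
def S_F10 : Prop :=
  ∀ (ι : Type) [Fintype ι] [DecidableEq ι] (z : ι → TT), Function.Injective z →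
    ∀ (a : TT → ℂ) (α β : ι → ℂ), Sym z a α β →
    ∃ (κ : Type) (_ : Fintype κ) (c : κ → ℝ → ℂ), (∀ i, ∃ L : NNReal, LipschitzWith L (c i)) ∧
      ∀ x, ∃ i, ∃ t ∈ Icc (0 : ℝ) 1, a x = c i t

/-- F11. `4 ‖x‖ ≤ ‖1 - fourier 1 x‖`, `ww x = |1 + fourier 1 x|² / 4`,
`1 - fourier 2 x = (1 - fourier 1 x) (1 + fourier 1 x)`, so `c'' = c ww / (1 - fourier 2)` is bounded
(`0` at the zeros of the denominator). -/
def S_F11 : Prop :=
  ∀ c : TT → ℂ, MB c → ∀ C : ℝ, (∀ x, ‖c x‖ ≤ C * ‖x‖) →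
    ∃ c'' : TT → ℂ, MB c'' ∧ ∀ x, c x * ww x = c'' x * (1 - fourier 2 x)

/-! ### operators -/

/-- the space `L²` -/
abbrev LL : Type := Lp ℂ 2 hm

/-- the exponentials -/
noncomputable def en (n : ℤ) : LL := fourierLp 2 n

open Classical in
/-- multiplication by `a` -/
noncomputable def mo (a : TT → ℂ) : LL →L[ℂ] LL :=
  if h : ∃ M : LL →L[ℂ] LL, ∀ g : LL, (M g : TT → ℂ) =ᵐ[hm] fun x => a x * g x then h.choose else 0

/-- translation, `g (· + s)` -/
noncomputable def tr (s : TT) : LL →L[ℂ] LL :=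
  (Lp.compMeasurePreservingₗᵢ ℂ (fun x : TT => x + s)
    (measurePreserving_add_right hm s)).toContinuousLinearMap

/-- the flip, `fourier (-1) x * g (-x)` -/
noncomputable def fl : LL →L[ℂ] LL :=
  (mo fun x => fourier (-1) x).comp (Lp.compMeasurePreservingₗᵢ ℂ (fun x : TT => -x)
    (Measure.measurePreserving_neg hm)).toContinuousLinearMap

open Classical in
/-- the projection onto the span of `en n`, `0 ≤ n` -/
noncomputable def Pj : LL →L[ℂ] LL :=
  if h : ∃ P : LL →L[ℂ] LL, ∀ n : ℤ, P (en n) = if 0 ≤ n then en n else 0 then h.choose else 0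

/-- O1. Multiplication operators, `‖a g‖ ≤ M ‖g‖` (`MemLp`, `LinearMap.mkContinuous`,
`Lp.norm_le_mul_norm_of_ae_le_mul`). -/
def S_O1 : Prop :=
  ∀ a : TT → ℂ, MB a → (∀ g : LL, (mo a g : TT → ℂ) =ᵐ[hm] fun x => a x * g x) ∧
    ∀ M : ℝ, 0 ≤ M → (∀ x, ‖a x‖ ≤ M) → ‖mo a‖ ≤ M

/-- O2. Algebra (from O1, `Lp.ext`, and `MeasureTheory.L2.inner_def` for the adjoint). -/
def S_O2 : Prop :=
  (∀ a b, MB a → MB b → mo (fun x => a x * b x) = mo a * mo b) ∧
  (∀ a b, MB a → MB b → mo (fun x => a x + b x) = mo a + mo b) ∧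
  (∀ c : ℂ, mo (fun _ => c) = algebraMap ℂ (LL →L[ℂ] LL) c) ∧
  (∀ a b : TT → ℂ, a =ᵐ[hm] b → mo a = mo b) ∧
  (∀ a, MB a → ContinuousLinearMap.adjoint (mo a) = mo fun x => conj (a x))

/-- O3. Translations (a.e. identities; `Lp.coeFn_compMeasurePreserving`). -/
def S_O3 : Prop :=
  (∀ s a, MB a → tr s * mo a = mo (fun x => a (x + s)) * tr s) ∧
  (∀ s t, tr s * tr t = tr (s + t)) ∧ tr 0 = 1 ∧
  (∀ (s : TT) (n : ℤ), tr s (en n) = (fourier n s : ℂ) • en n)

/-- O4. The flip. -/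
def S_O4 : Prop :=
  fl * fl = 1 ∧ ContinuousLinearMap.adjoint fl = fl ∧
  (∀ a, MB a → fl * mo a * fl = mo fun x => a (-x)) ∧ (∀ n : ℤ, fl (en n) = en (-1 - n)) ∧
  (∀ s : TT, tr s * fl = (fourier (-1) s : ℂ) • (fl * tr (-s)))

/-- O5. The projection (check everything on the basis `fourierBasis`, or on inner products with it). -/
def S_O5 : Prop :=
  (∀ n : ℤ, Pj (en n) = if 0 ≤ n then en n else 0) ∧ Pj * Pj = Pj ∧
  ContinuousLinearMap.adjoint Pj = Pj ∧ fl * Pj * fl = 1 - Pj ∧ ∀ s, tr s * Pj = Pj * tr s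

/-- O6. The commutator is a Hilbert-Schmidt operator. The matrix entry `(k, n)` of the commutator is
`± ĉ (k - n)` if exactly one of `k`, `n` is `≥ 0`, and zero otherwise, so the sum is `∑ |m| |ĉ m|²`
(for fixed `m = k - n` there are `|m|` such `n`). It is finite: `∑_m |fourier m s - 1|² |ĉ m|² =
‖tr s c - c‖² ≤ K² s²` (Parseval, `c` in `L²`), and `|fourier m s - 1| ≥ 4 |m s|` for `|m s| ≤ 1/2`, so that
`∑_{|m| ≤ N} m² |ĉ m|² ≤ K² / 16` (take `s = 1 / (2 N)`). -/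
def S_O6 : Prop :=
  ∀ c : TT → ℂ, Li c → Summable fun n : ℤ => ‖(mo c * Pj - Pj * mo c) (en n)‖ ^ 2

/-- O7. Matrix entries. -/
def S_O7 : Prop :=
  ∀ a : TT → ℂ, MB a → ∀ i j : ℤ, ⟪en i, mo a (en j)⟫_ℂ = fourierCoeff a (i - j)

/-- D1. The resolvent of `mo a` is `mo (z - a)⁻¹`, and `|z - a x|⁻¹ ≤ 1 / infDist z E`. -/
def S_D1 : Prop :=
  ∀ a : TT → ℂ, MB a → ∀ E : Set ℂ, IsClosed E → E.Nonempty → (∀ x, a x ∈ E) →
    ∀ z, z ∉ E → z ∈ resolventSet ℂ (mo a) ∧ ‖resolvent (mo a) z‖ ≤ 1 / Metric.infDist z E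

/-! ### algebra -/

section
variable {Q : Type} [Ring Q]

/-- R1. Pure ring identities: `f p = (1 - p) f`, `f c = (1 - c) f`, so
`Γ A = p c f p c p = p c (1 - p) (1 - c) f p = - p c p (1-c) f p = ... `, with `p f p = p (1-p) f = 0`. -/
def S_R1 : Prop :=
  ∀ (Q : Type) [Ring Q] (p f c : Q), p * p = p → f * f = 1 → f * p * f = 1 - p → c * c = c →
    f * c * f = 1 - c →
    (p * c * p) * (p * c * f * p) = (p * c * f * p) * (p * c * p) ∧
    (p * c * f * p) * (p * c * f * p) = (p * c * p) * (p * c * p) - p * c * p ∧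
    p * f * p = 0 ∧ f * p = (1 - p) * f

variable [Algebra ℂ Q]

/-- the relations in the quotient algebra -/
structure Dat (p f : Q) (m : (TT → ℂ) → Q) (r : TT → Q) : Prop where
  pp : p * p = p
  ff : f * f = 1
  fpf : f * p * f = 1 - p
  mmul : ∀ a b, MB a → MB b → m (fun x => a x * b x) = m a * m b
  madd : ∀ a b, MB a → MB b → m (fun x => a x + b x) = m a + m b
  mconst : ∀ c : ℂ, m (fun _ => c) = algebraMap ℂ Q c
  mae : ∀ a b : TT → ℂ, a =ᵐ[hm] b → m a = m b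
  mf : ∀ a, MB a → f * m a * f = m fun x => a (-x)
  mr : ∀ s a, MB a → r s * m a = m (fun x => a (x + s)) * r s
  radd : ∀ s t, r s * r t = r (s + t)
  rzero : r 0 = 1
  rp : ∀ s, r s * p = p * r s
  rf : ∀ s : TT, r s * f = (fourier (-1) s : ℂ) • (f * r (-s))
  mp : ∀ c, Li c → m c * p = p * m c

/-- the Toeplitz part -/
noncomputable def tA (p : Q) (m : (TT → ℂ) → Q) : Q := p * m chi * p

/-- the Hankel part -/
noncomputable def tG (p f : Q) (m : (TT → ℂ) → Q) : Q := p * m chi * f * p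

/-- the localised Hankel part -/
noncomputable def tH (p f : Q) (m : (TT → ℂ) → Q) : Q := tG p f m * m ww

end

/-- the function facts, as one hypothesis for the algebraic leaves -/
structure Fun : Prop where
  f1 : S_F1
  f2 : S_F2
  f3 : S_F3
  f4 : S_F4
  f5 : S_F5
  f6 : S_F6
  f7 : S_F7
  f9 : S_F9
  f11 : S_F11
  r1 : S_R1

/-- C1. Basic relations. `m ww` commutes with `p` (Lipschitz), with `m chi`, and with `f` (`ww` is even,
`f (m ww) f = m ww`). -/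
def S_C1 : Prop :=
  ∀ (Q : Type) [Ring Q] [Algebra ℂ Q] (p f : Q) (m : (TT → ℂ) → Q) (r : TT → Q), Dat p f m r →
    tA p m * tG p f m = tG p f m * tA p m ∧
    tG p f m * tG p f m = tA p m * tA p m - tA p m ∧
    p * tG p f m = tG p f m ∧ tG p f m * p = tG p f m ∧
    p * tA p m = tA p m ∧ tA p m * p = tA p m ∧
    m ww * tG p f m = tG p f m * m ww ∧ m ww * tA p m = tA p m * m ww ∧
    m ww * p = p * m ww ∧ tH p f m = p * m kap * f * p ∧
    p * tH p f m = tH p f m ∧ tH p f m * p = tH p f m ∧ tG p f m * tH p f m = tH p f m * tG p f m ∧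
    tA p m * tH p f m = tH p f m * tA p m

/-- C2. Different jumps. Let `s₁ x = (fourier 1 x - fourier 1 σ) / (fourier 1 τ - fourier 1 σ)`, `s₂ = 1 - s₁`; both
are Lipschitz, `s₁ σ = 0`, `s₂ τ = 0`. By F2 and F1 `s₁ a` is Lipschitz, `s₂ b` is Lipschitz, so that
`p m(s₁ a) (1 - p) = 0` and `(1 - p) m(s₂ b) p = 0`. And
`p m(a) (1-p) m(b) p = p m(a) (1-p) (m(s₁) + m(s₂)) m(b) p`, `m(s₁)`, `m(s₂)` commute with `p`. -/
def S_C2 : Prop :=
  ∀ (Q : Type) [Ring Q] [Algebra ℂ Q] (p f : Q) (m : (TT → ℂ) → Q) (r : TT → Q), Dat p f m r →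
    ∀ (σ τ : TT) (a b : TT → ℂ), σ ≠ τ → PL {σ} a → Bo a → PL {τ} b → Bo b →
      p * m a * (1 - p) * (m b * p) = 0

/-- C3. Different points. `tH r(ζ) tH = p m(kap) f p r(ζ) p m(kap) f p`; with `f p = (1-p) f`,
`r(ζ) m(kap) = m(kap (· + ζ)) r(ζ)`, `r(ζ) f = c f r(-ζ)` this is
`c p m(kap) (1-p) f m(kap (· + ζ)) f p r(-ζ) = c (p m(kap) (1-p) m(kap (ζ - ·)) p) r(-ζ)`, and `kap (ζ - ·)` is
`PL {ζ}`. Use C2 with `σ = 0`, `τ = ζ`. -/
def S_C3 : Prop :=
  ∀ (Q : Type) [Ring Q] [Algebra ℂ Q] (p f : Q) (m : (TT → ℂ) → Q) (r : TT → Q), Dat p f m r →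
    ∀ ζ : TT, ζ ≠ 0 → tH p f m * r ζ * tH p f m = 0

/-- C4. `tH tH = tG tG m(ww) m(ww)`, and `tG (m(ww²) - m(ww)) = p m(chi) f p m(v) = p m(chi v) (1-p) f`
(`v = ww² - ww` is even, Lipschitz and vanishes at `0` and `1/2`), `chi v` is Lipschitz by F2 and F4, so this is
zero. -/
def S_C4 : Prop :=
  ∀ (Q : Type) [Ring Q] [Algebra ℂ Q] (p f : Q) (m : (TT → ℂ) → Q) (r : TT → Q), Dat p f m r →
    tH p f m * tH p f m = tG p f m * tH p f m

/-- C5. By F11 `c ww = c'' u`, `u = 1 - fourier 2`. `p m(c) tH = p m(c ww) tG = p m(c'') m(u) p m(chi) f p =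
p m(c'') p m(u chi) f p = p m(c'') p m(u chi) (1 - p) f = 0`, because `u chi` is Lipschitz (F2, F4: `u` vanishes at `0`
and `1/2`). Similarly `tH m(c) p = tG m(ww c) p = p m(chi) f p m(u) m(c'') p = p m(chi) f m(u) p m(c'') p =
p m(chi u(-·)) f p m(c'') p = 0`. -/
def S_C5 : Prop :=
  ∀ (Q : Type) [Ring Q] [Algebra ℂ Q] (p f : Q) (m : (TT → ℂ) → Q) (r : TT → Q), Dat p f m r →
    ∀ c : TT → ℂ, MB c → ∀ C : ℝ, (∀ x, ‖c x‖ ≤ C * ‖x‖) →
      p * m c * tH p f m = 0 ∧ tH p f m * m c * p = 0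

/-- C6. The Hankel part of a symbol. By F7 `a = c + ∑ i, β i * kap (· - z i)`, `c` Lipschitz, `p m(c) (1-p) = 0`, and
`m (kap (· - z i)) = r(-z i) m(kap) r(z i)`. -/
def S_C6 : Prop :=
  ∀ (Q : Type) [Ring Q] [Algebra ℂ Q] (p f : Q) (m : (TT → ℂ) → Q) (r : TT → Q), Dat p f m r →
    ∀ (ι : Type) [Fintype ι] [DecidableEq ι] (z : ι → TT), Function.Injective z →
    ∀ (a : TT → ℂ) (α β : ι → ℂ), Sym z a α β →
      p * m a * (1 - p) = ∑ i, β i • (r (-z i) * (p * m kap * (1 - p)) * r (z i)) ∧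
      (1 - p) * m a * p = ∑ i, β i • (r (-z i) * ((1 - p) * m kap * p) * r (z i))

/-- C7. Products. `p m(a) p m(b) p = p m(ab) p - (p m(a) (1-p)) ((1-p) m(b) p)`. With C6 the last product is
`∑ i, ∑ j, β i β' j r(-z i) (p m(kap) (1-p)) r(z i - z j) ((1-p) m(kap) p) r(z j)`, and for `i ≠ j`
this vanishes by C2 (`r(ζ) m(kap) = m(kap(· + ζ)) r(ζ)`). For `i = j`: `p m(kap) (1-p) m(kap) p = - tG tH`: one has
`tH tH = p m(kap) f p m(kap) f p = p m(kap) (1-p) m(kap(-·)) p`, and `kap(-x) = ww x - kap x` a.e., and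
`(1-p) m(ww) p = 0`; so `tH tH = - p m(kap) (1-p) m(kap) p`; and `tH tH = tG tH` by C4. -/
def S_C7 : Prop :=
  ∀ (Q : Type) [Ring Q] [Algebra ℂ Q] (p f : Q) (m : (TT → ℂ) → Q) (r : TT → Q), Dat p f m r →
    ∀ (ι : Type) [Fintype ι] [DecidableEq ι] (z : ι → TT), Function.Injective z →
    ∀ (a b : TT → ℂ) (α β α' β' : ι → ℂ), Sym z a α β → Sym z b α' β' →
      (p * m a * p) * (p * m b * p) = p * m (fun x => a x * b x) * p +
        ∑ i, (β i * β' i) • (r (-z i) * (tG p f m * tH p f m) * r (z i))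

section
variable {Q Λ : Type} [Ring Q] [Algebra ℂ Q] [CommRing Λ] [Algebra ℂ Λ]

/-- a commutative algebra which is mapped onto the algebra generated by `tA` and `tG` -/
structure Phi (p f : Q) (m : (TT → ℂ) → Q) (φ : Λ →ₐ[ℂ] Q) (aa ga : Λ) : Prop where
  ha : φ aa = tA p m
  hg : φ ga = tG p f m
  hag : aa * aa = aa + ga * ga
  hcomm : ∀ y : Q, y * tA p m = tA p m * y → y * tG p f m = tG p f m * y → ∀ x, y * φ x = φ x * y

variable {ι : Type} [Fintype ι] [DecidableEq ι]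

/-- the operator with the local symbol `N` -/
noncomputable def Op (p f : Q) (m : (TT → ℂ) → Q) (r : TT → Q) (φ : Λ →ₐ[ℂ] Q) (z : ι → TT)
    (N : Matrix ι ι Λ) : Q :=
  ∑ i, ∑ j, r (-z i) * φ (N i j) * tH p f m * r (z j)

/-- the local symbols of a function -/
noncomputable def DD (aa : Λ) (α β : ι → ℂ) : Matrix ι ι Λ :=
  Matrix.diagonal fun i => algebraMap ℂ Λ (α i) + β i • aa

end

/-- C8. The product. `φ x` commutes with `p`, `m ww` and `tH` (`hcomm`, C1).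
(i) `(p m(a) p) (r(-z i) φ(x) tH r(z j)) = r(-z i) (p m(a(· + z i)) p) φ(x) tH r(z j)` and
`p m(a(· + z i)) p tH = (α i + β i tA) tH = φ(DD i i) tH` by C5 for `c = a(· + z i) - α i - β i chi`.
(ii) `(r(-z i) φ(x) tH r(z j)) (p m(b) p)`, the same, with `tH m(c) p = 0`.
(iii) `(r(-z i) φ(x) tH r(z j)) (r(-z k) φ(y) tH r(z l))` is zero for `j ≠ k` by C3 (`φ(y)` commutes with `tH`,
`tH r(ζ) φ(y) tH = tH r(ζ) tH φ(y)`), and for `j = k` it is `r(-z i) φ(x y ga) tH r(z l)`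
by C4.
(iv) C7 for `(p m(a) p) (p m(b) p)`; `tG tH = φ(ga) tH`. -/
def S_C8 : Prop :=
  ∀ (Q Λ : Type) [Ring Q] [Algebra ℂ Q] [CommRing Λ] [Algebra ℂ Λ] (p f : Q) (m : (TT → ℂ) → Q)
    (r : TT → Q) (φ : Λ →ₐ[ℂ] Q) (aa ga : Λ), Dat p f m r → Phi p f m φ aa ga →
    ∀ (ι : Type) [Fintype ι] [DecidableEq ι] (z : ι → TT), Function.Injective z →
    ∀ (a b : TT → ℂ) (α β α' β' : ι → ℂ), Sym z a α β → Sym z b α' β' → ∀ N M : Matrix ι ι Λ,
      (p * m a * p + Op p f m r φ z N) * (p * m b * p + Op p f m r φ z M) =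
        p * m (fun x => a x * b x) * p + Op p f m r φ z
          ((Matrix.diagonal fun i => (β i * β' i) • ga) + DD aa α β * M + N * DD aa α' β' +
            ga • (N * M))

/-- C9. The intertwining relation, with the same computations as in C8. -/
def S_C9 : Prop :=
  ∀ (Q Λ : Type) [Ring Q] [Algebra ℂ Q] [CommRing Λ] [Algebra ℂ Λ] (p f : Q) (m : (TT → ℂ) → Q)
    (r : TT → Q) (φ : Λ →ₐ[ℂ] Q) (aa ga : Λ), Dat p f m r → Phi p f m φ aa ga →
    ∀ (ι : Type) [Fintype ι] [DecidableEq ι] (z : ι → TT), Function.Injective z →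
    ∀ (a : TT → ℂ) (α β : ι → ℂ), Sym z a α β → ∀ (N : Matrix ι ι Λ) (i : ι),
      tH p f m * r (z i) * (p * m a * p + Op p f m r φ z N) =
        ∑ j, φ ((DD aa α β + ga • N) i j) * (tH p f m * r (z j))

/-- C10. `u a` is Lipschitz by F2, so `m(u) p m(a) p = m(u a) p = m(a) m(u) p`; and
`m(u) r(-z i) φ(x) tH r(z j) = r(-z i) m(u(· + z i)) p tH φ(x) r(z j) = r(-z i) p m(u(· + z i)) tH φ(x) r(z j) = 0` by C5,
because `u(· + z i)` is Lipschitz and vanishes at `0`. -/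
def S_C10 : Prop :=
  ∀ (Q Λ : Type) [Ring Q] [Algebra ℂ Q] [CommRing Λ] [Algebra ℂ Λ] (p f : Q) (m : (TT → ℂ) → Q)
    (r : TT → Q) (φ : Λ →ₐ[ℂ] Q) (aa ga : Λ), Dat p f m r → Phi p f m φ aa ga →
    ∀ (ι : Type) [Fintype ι] [DecidableEq ι] (z : ι → TT), Function.Injective z →
    ∀ (a : TT → ℂ) (α β : ι → ℂ), Sym z a α β → ∀ (N : Matrix ι ι Λ) (u : TT → ℂ), Li u →
      (∀ i, u (z i) = 0) → m u * (p * m a * p + Op p f m r φ z N) = m a * (m u * p)

end Pool.Agent.H259.PC
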