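import Pool.Agent.H259.PC.Lau

/-!
# Curves: statement
-/

set_option autoImplicit false

open Polynomial

namespace Pool.Agent.H259.PC

open Pool.Agent.H259.RH

/-- D3. By `HA.blk_root` an eigenvalue `r` of `F.map (evL t)` solves a quadratic equation
`r ^ 2 - evL t τ * r + evL t δ = 0` with `τ, δ : LP` from a finite set of pairs
(`τ = F l l + F (σ l) (σ l)`, `δ = F l l * F (σ l) (σ l) - F l (σ l) * F (σ l) l` for `σ l ≠ l`;
`τ = 2 * F l l`, `δ = F l l ^ 2` for `σ l = l`); see the end of `HA/Fin.lean` (`GoodA.hyp`) for the same argument with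
polynomials, and `loop_union` (`RH/Diag.lean`) for finite unions. So it suffices to treat one pair.
Every `t`, `‖t‖ = 1`, is `s * (1 + I x)² / (1 + x²)` with `s = 1` or `s = -1`, `x ∈ [-1, 1]`
(`s = 1` if `0 ≤ re t`, `x = im t / (1 + re t)`; otherwise apply this to `-t`). For fixed `s` and every `f : LP` there are
`n` and a polynomial `p` with `evL t f = p (x) / (1 + x²) ^ n` for all these `t` (`LaurentPolynomial.induction_on'`;
`1 / t = s (1 - I x)² / (1 + x²)`). Let `D = τ²/4 - δ`, `evL t D = P(x) / (1 + x²) ^ k`; by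
`HA.poly_bv` there is `y` of bounded variation on `[-1, 1]` with `y x ^ 2 = P(x) (1 + x²) ^ k`, so
`(y x / (1 + x²) ^ k) ^ 2 = evL t D`, and `r = evL t τ / 2 ± y x / (1 + x²) ^ k`; these are functions of bounded variation on
`[-1, 1]` (`1 / (1 + x²)` is Lipschitz with constant `1`; `bv_mul`, `bv_add`), use `HA.bv_loop` as in
`HA.quad_loop`. -/
def S_D3 : Prop :=
  ∀ (ι : Type) [Fintype ι] [DecidableEq ι] (σ : ι → ι), (∀ l, σ (σ l) = l) →
    ∀ F : Matrix ι ι LP, (∀ l m, m ≠ l → m ≠ σ l → F l m = 0) →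
      LoopSet {r : ℂ | ∃ t : ℂˣ, ‖(t : ℂ)‖ = 1 ∧ (F.map (evL t)).charpoly.IsRoot r}

end Pool.Agent.H259.PC
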